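import Mathlib

/-!
# Uniform Roe algebras, asymptotic dimension and nuclear dimension (definitions)
-/

namespace Pool.Agent.Roe

open scoped ENNReal InnerProductSpace CStarAlgebra

noncomputable section

/-- The Hilbert space `ℓ²(X)`. -/
abbrev L2 (X : Type*) : Type _ := lp (fun _ : X => ℂ) 2

open Classical in
/-- The standard basis vector `δ_x` of `ℓ²(X)`. -/
def delta {X : Type*} (x : X) : L2 X := lp.single 2 x (1 : ℂ)

/-- The matrix entry `⟨T δ_y, δ_x⟩` (in Mathlib the inner product is linear in the second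
variable). -/
def entry {X : Type*} (T : L2 X →L[ℂ] L2 X) (x y : X) : ℂ := inner ℂ (delta x) (T (delta y))

/-- `T` has propagation at most `R`. -/
def HasProp {X : Type*} [MetricSpace X] (T : L2 X →L[ℂ] L2 X) (R : ℝ) : Prop :=
  ∀ x y : X, R < dist x y → entry T x y = 0

/-- Bounded geometry: balls of a given radius have uniformly bounded cardinality. -/
def BoundedGeometry (X : Type*) [MetricSpace X] : Prop :=
  ∀ r : ℝ, ∃ N : ℕ, ∀ x : X, (Metric.closedBall x r).encard ≤ N

theorem delta_self {X : Type*} (x : X) : (delta x : L2 X) x = 1 := by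
  classical
  unfold delta
  exact @lp.single_apply_self X (fun _ => ℂ) _ (fun a b => Classical.propDecidable (a = b)) 2 x 1

theorem delta_ne {X : Type*} {x y : X} (h : y ≠ x) : (delta x : L2 X) y = 0 := by
  classical
  unfold delta
  exact @lp.single_apply_ne X (fun _ => ℂ) _ (fun a b => Classical.propDecidable (a = b)) 2 x 1 y h

theorem delta_apply {X : Type*} [DecidableEq X] (x y : X) :
    (delta x : L2 X) y = if y = x then 1 else 0 := by
  by_cases h : y = x
  · subst h
    rw [if_pos rfl, delta_self]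
  · rw [if_neg h, delta_ne h]

theorem entry_eq {X : Type*} (T : L2 X →L[ℂ] L2 X) (x y : X) :
    entry T x y = (T (delta y) : L2 X) x := by
  classical
  unfold entry delta
  rw [lp.inner_single_left]
  simp

theorem inner_delta_left {X : Type*} (x : X) (f : L2 X) : inner ℂ (delta x) f = f x := by
  classical
  unfold delta
  rw [lp.inner_single_left]
  simp

theorem inner_delta_right {X : Type*} (x : X) (f : L2 X) :
    inner ℂ f (delta x) = star (f x) := by
  rw [← inner_conj_symm, inner_delta_left]
  rfl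

theorem entry_star {X : Type*} (T : L2 X →L[ℂ] L2 X) (x y : X) :
    entry (star T) x y = star (entry T y x) := by
  rw [ContinuousLinearMap.star_eq_adjoint]
  unfold entry
  rw [ContinuousLinearMap.adjoint_inner_right, inner_delta_right, inner_delta_left]

theorem entry_mul {X : Type*} (S T : L2 X →L[ℂ] L2 X) (x y : X) :
    HasSum (fun w => entry S x w * entry T w y) (entry (S * T) x y) := by
  have h1 : entry (S * T) x y = inner ℂ (star S (delta x)) (T (delta y)) := by
    unfold entry
    rw [ContinuousLinearMap.star_eq_adjoint, ContinuousLinearMap.adjoint_inner_left]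
    rfl
  rw [h1]
  have h2 := lp.hasSum_inner (𝕜 := ℂ) (star S (delta x)) (T (delta y))
  have h4 : (fun w => entry S x w * entry T w y) =
      fun w => inner ℂ ((star S (delta x) : L2 X) w) ((T (delta y) : L2 X) w) := by
    funext w
    have h3 : (star S (delta x) : L2 X) w = star (entry S x w) := by
      rw [← entry_star, entry_eq]
    rw [entry_eq T, h3]
    simp [mul_comm]
  rw [h4]
  exact h2

theorem hasProp_mul {X : Type*} [MetricSpace X] {S T : L2 X →L[ℂ] L2 X} {r s : ℝ}
    (hS : HasProp S r) (hT : HasProp T s) : HasProp (S * T) (r + s) := by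
  intro x y hxy
  have h := entry_mul S T x y
  have h0 : (fun w => entry S x w * entry T w y) = fun _ => 0 := by
    funext w
    by_cases h1 : r < dist x w
    · rw [hS x w h1, zero_mul]
    · by_cases h2 : s < dist w y
      · rw [hT w y h2, mul_zero]
      · exfalso
        have := dist_triangle x w y
        linarith [not_lt.1 h1, not_lt.1 h2]
  rw [h0] at h
  exact (hasSum_zero.unique h).symm

/-- The star algebra of bounded operators on `ℓ²(X)` of finite propagation. -/
def finProp (X : Type*) [MetricSpace X] : StarSubalgebra ℂ (L2 X →L[ℂ] L2 X) where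
  carrier := {T | ∃ R : ℝ, HasProp T R}
  mul_mem' := by
    rintro S T ⟨r, hr⟩ ⟨s, hs⟩
    exact ⟨r + s, hasProp_mul hr hs⟩
  add_mem' := by
    rintro S T ⟨r, hr⟩ ⟨s, hs⟩
    refine ⟨max r s, fun x y h => ?_⟩
    have h1 := hr x y (lt_of_le_of_lt (le_max_left _ _) h)
    have h2 := hs x y (lt_of_le_of_lt (le_max_right _ _) h)
    unfold entry at h1 h2 ⊢
    rw [add_apply, inner_add_right, h1, h2, add_zero]
  algebraMap_mem' := by
    intro c
    refine ⟨0, fun x y h => ?_⟩
    classical
    have hne : x ≠ y := by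
      rintro rfl
      simp at h
    rw [entry_eq, Algebra.algebraMap_eq_smul_one]
    change (c • (delta y : L2 X)) x = 0
    rw [lp.coeFn_smul, Pi.smul_apply, delta_apply]
    simp [hne]
  star_mem' := by
    rintro T ⟨r, hr⟩
    refine ⟨r, fun x y h => ?_⟩
    rw [entry_star, hr y x (by rwa [dist_comm]), star_zero]

/-- The uniform Roe algebra `C*_u(X)`: the norm closure, in `B(ℓ²(X))`, of the set of bounded
operators of finite propagation. -/
def uniformRoe (X : Type*) [MetricSpace X] : StarSubalgebra ℂ (L2 X →L[ℂ] L2 X) :=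
  (finProp X).topologicalClosure

instance (X : Type*) [MetricSpace X] :
    IsClosed ((uniformRoe X : StarSubalgebra ℂ (L2 X →L[ℂ] L2 X)) : Set (L2 X →L[ℂ] L2 X)) :=
  (finProp X).isClosed_topologicalClosure

/-- `asdim X ≤ n`: for every `R > 0` there is a cover of `X` by sets of uniformly bounded
diameter such that every ball of radius `R` meets at most `n + 1` members of the cover. -/
def AsdimLE (X : Type*) [MetricSpace X] (n : ℕ) : Prop :=
  ∀ R : ℝ, 0 < R → ∃ (𝒰 : Set (Set X)) (D : ℝ),
    (⋃₀ 𝒰 = Set.univ) ∧ (∀ U ∈ 𝒰, ∀ x ∈ U, ∀ y ∈ U, dist x y ≤ D) ∧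
    ∀ x : X, {U ∈ 𝒰 | (U ∩ Metric.closedBall x R).Nonempty}.encard ≤ n + 1

/-- The asymptotic dimension. -/
def asdim (X : Type*) [MetricSpace X] : ℕ∞ := sInf {m : ℕ∞ | ∃ n : ℕ, m = n ∧ AsdimLE X n}

/-- A linear map between C*-algebras is completely positive (Mathlib's notion
`CompletelyPositiveMap`; the C*-algebras carry their spectral order). -/
def IsCP {A B : Type*} [NonUnitalCStarAlgebra A] [NonUnitalCStarAlgebra B] (f : A →ₗ[ℂ] B) :
    Prop :=
  letI := CStarAlgebra.spectralOrder A
  letI := CStarAlgebra.spectralOrderedRing A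
  letI := CStarAlgebra.spectralOrder B
  letI := CStarAlgebra.spectralOrderedRing B
  ∃ g : A →CP B, g.toLinearMap = f

/-- A linear map between C*-algebras preserves orthogonality of positive elements
(`order zero`, for completely positive maps).  Positive elements are those of the form `x* x`. -/
def OrderZero {A B : Type*} [NonUnitalCStarAlgebra A] [NonUnitalCStarAlgebra B]
    (f : A →ₗ[ℂ] B) : Prop :=
  ∀ x y : A, (star x * x) * (star y * y) = 0 → f (star x * x) * f (star y * y) = 0

/-- Nuclear dimension at most `n`. -/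
def NucDimLE (A : Type*) [CStarAlgebra A] (n : ℕ) : Prop :=
  ∀ (𝓕 : Finset A) (ε : ℝ), 0 < ε →
    ∃ (F : Fin (n + 1) → Type) (_ : ∀ i, CStarAlgebra (F i))
      (_ : ∀ i, FiniteDimensional ℂ (F i))
      (ψ : A →ₗ[ℂ] (∀ i, F i)) (φ : (∀ i, F i) →ₗ[ℂ] A),
      IsCP ψ ∧ (∀ a, ‖ψ a‖ ≤ ‖a‖) ∧ IsCP φ ∧
      (∀ i, (∀ b : F i, ‖φ (Pi.single i b)‖ ≤ ‖b‖) ∧
        OrderZero (φ ∘ₗ LinearMap.single ℂ F i)) ∧
      ∀ a ∈ 𝓕, ‖φ (ψ a) - a‖ < ε

/-- The nuclear dimension. -/
def nucDim (A : Type*) [CStarAlgebra A] : ℕ∞ := sInf {m : ℕ∞ | ∃ n : ℕ, m = n ∧ NucDimLE A n}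

end

end Pool.Agent.Roe
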