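import Mathlib

/-! `asdim (Z^2) ≥ 2` : a uniformly bounded cover of `Z^2` has three members that meet one
unit triangle (Sperner parity). -/

set_option autoImplicit false

namespace Pool.Agent.Work.MP_80b727_an.Sperner

open Finset

/-- parity function of an edge: `1` iff the labels are `{0,1}`. -/
def ed (a b : Fin 3) : ZMod 2 := if (a = 0 ∧ b = 1) ∨ (a = 1 ∧ b = 0) then 1 else 0

theorem tri_aux : ∀ a b c : Fin 3, ¬ (a ≠ b ∧ b ≠ c ∧ a ≠ c) → ed a b + ed b c + ed a c = 0 := by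
  decide

theorem sperner (N : ℕ) (l : ℕ → ℕ → Fin 3)
    (hleft : ∀ j ≤ N, l 0 j = 0)
    (hbot : ∀ i ≤ N, l i 0 = 0 ∨ l i 0 = 1)
    (hcorner : l N 0 = 1)
    (hright : ∀ j ≤ N, l N j = 1 ∨ l N j = 2)
    (htop : ∀ i ≤ N, l i N = 0 ∨ l i N = 2) :
    ∃ i j, i < N ∧ j < N ∧
      ((l i j ≠ l (i + 1) j ∧ l (i + 1) j ≠ l i (j + 1) ∧ l i j ≠ l i (j + 1)) ∨
       (l (i + 1) j ≠ l i (j + 1) ∧ l i (j + 1) ≠ l (i + 1) (j + 1) ∧
          l (i + 1) j ≠ l (i + 1) (j + 1))) := by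
  by_contra hcon
  push Not at hcon
  have hsub : ∀ a b : ZMod 2, a + b = b - a := by decide
  -- square relation
  have hsq : ∀ i < N, ∀ j < N,
      (ed (l i j) (l (i + 1) j) + ed (l i (j + 1)) (l (i + 1) (j + 1)))
        + (ed (l i j) (l i (j + 1)) + ed (l (i + 1) j) (l (i + 1) (j + 1))) = 0 := by
    intro i hi j hj
    have h := hcon i j hi hj
    have h1 : ed (l i j) (l (i + 1) j) + ed (l (i + 1) j) (l i (j + 1)) + ed (l i j) (l i (j + 1)) = 0 := by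
      apply tri_aux
      rintro ⟨ha, hb, hc⟩
      exact hc (h.1 ha hb)
    have h2 : ed (l (i + 1) j) (l i (j + 1)) + ed (l i (j + 1)) (l (i + 1) (j + 1))
        + ed (l (i + 1) j) (l (i + 1) (j + 1)) = 0 := by
      apply tri_aux
      rintro ⟨ha, hb, hc⟩
      exact hc (h.2 ha hb)
    have h3 : ∀ x : ZMod 2, x + x = 0 := by decide
    linear_combination h1 + h2 - h3 (ed (l (i + 1) j) (l i (j + 1)))
  have e1 : ∑ i ∈ range N, ∑ j ∈ range N,
      (ed (l i j) (l (i + 1) j) + ed (l i (j + 1)) (l (i + 1) (j + 1)))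
      = ∑ i ∈ range N, (ed (l i N) (l (i + 1) N) - ed (l i 0) (l (i + 1) 0)) := by
    refine Finset.sum_congr rfl fun i _ => ?_
    rw [← Finset.sum_range_sub (fun j => ed (l i j) (l (i + 1) j)) N]
    exact Finset.sum_congr rfl fun j _ => hsub _ _
  have e2 : ∑ i ∈ range N, ∑ j ∈ range N,
      (ed (l i j) (l i (j + 1)) + ed (l (i + 1) j) (l (i + 1) (j + 1)))
      = ∑ j ∈ range N, (ed (l N j) (l N (j + 1)) - ed (l 0 j) (l 0 (j + 1))) := by
    rw [Finset.sum_comm]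
    refine Finset.sum_congr rfl fun j _ => ?_
    rw [← Finset.sum_range_sub (fun i => ed (l i j) (l i (j + 1))) N]
    exact Finset.sum_congr rfl fun j _ => hsub _ _
  have htop0 : ∀ i < N, ed (l i N) (l (i + 1) N) = 0 := by
    intro i hi
    rcases htop i hi.le with h1 | h1 <;> rcases htop (i + 1) hi with h2 | h2 <;> rw [h1, h2] <;> rfl
  have hright0 : ∀ j < N, ed (l N j) (l N (j + 1)) = 0 := by
    intro j hj
    rcases hright j hj.le with h1 | h1 <;> rcases hright (j + 1) hj with h2 | h2 <;>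
      rw [h1, h2] <;> rfl
  have hleft0 : ∀ j < N, ed (l 0 j) (l 0 (j + 1)) = 0 := by
    intro j hj
    rw [hleft j hj.le, hleft (j + 1) hj]
    rfl
  let g : ℕ → ZMod 2 := fun i => if l i 0 = 1 then 1 else 0
  have hbot0 : ∀ i < N, ed (l i 0) (l (i + 1) 0) = g (i + 1) - g i := by
    intro i hi
    simp only [g]
    rcases hbot i hi.le with h1 | h1 <;> rcases hbot (i + 1) hi with h2 | h2 <;>
      rw [h1, h2] <;> decide
  have e3 : ∑ i ∈ range N, (ed (l i N) (l (i + 1) N) - ed (l i 0) (l (i + 1) 0)) = - (g N - g 0) := by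
    rw [← Finset.sum_range_sub g N, ← Finset.sum_neg_distrib]
    refine Finset.sum_congr rfl fun i hi => ?_
    rw [htop0 i (Finset.mem_range.1 hi), hbot0 i (Finset.mem_range.1 hi), zero_sub]
  have e4 : ∑ j ∈ range N, (ed (l N j) (l N (j + 1)) - ed (l 0 j) (l 0 (j + 1))) = 0 := by
    refine Finset.sum_eq_zero fun j hj => ?_
    rw [hright0 j (Finset.mem_range.1 hj), hleft0 j (Finset.mem_range.1 hj), sub_zero]
  have hg0 : g 0 = 0 := by
    simp only [g]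
    rw [hleft 0 (Nat.zero_le _)]
    rfl
  have hgN : g N = 1 := by
    simp only [g]
    rw [hcorner]
    rfl
  have e5 : ∑ i ∈ range N, ∑ j ∈ range N,
      ((ed (l i j) (l (i + 1) j) + ed (l i (j + 1)) (l (i + 1) (j + 1)))
        + (ed (l i j) (l i (j + 1)) + ed (l (i + 1) j) (l (i + 1) (j + 1)))) = 1 := by
    have : ∀ i ∈ range N, ∑ j ∈ range N,
      ((ed (l i j) (l (i + 1) j) + ed (l i (j + 1)) (l (i + 1) (j + 1)))
        + (ed (l i j) (l i (j + 1)) + ed (l (i + 1) j) (l (i + 1) (j + 1))))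
        = (∑ j ∈ range N, (ed (l i j) (l (i + 1) j) + ed (l i (j + 1)) (l (i + 1) (j + 1))))
          + ∑ j ∈ range N, (ed (l i j) (l i (j + 1)) + ed (l (i + 1) j) (l (i + 1) (j + 1))) :=
      fun i _ => Finset.sum_add_distrib
    rw [Finset.sum_congr rfl this, Finset.sum_add_distrib, e1, e2, e3, e4, hg0, hgN]
    decide
  have e6 : ∑ i ∈ range N, ∑ j ∈ range N,
      ((ed (l i j) (l (i + 1) j) + ed (l i (j + 1)) (l (i + 1) (j + 1)))
        + (ed (l i j) (l i (j + 1)) + ed (l (i + 1) j) (l (i + 1) (j + 1)))) = 0 :=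
    Finset.sum_eq_zero fun i hi => Finset.sum_eq_zero fun j hj =>
      hsq i (Finset.mem_range.1 hi) j (Finset.mem_range.1 hj)
  rw [e5] at e6
  exact absurd e6 (by decide)

/-- Three different members of a uniformly bounded cover of `Z^2` meet one `l^1`-ball of
radius `1`. -/
theorem exists_three (W : Set (Set (ℤ × ℤ))) (hcov : ∀ x : ℤ × ℤ, ∃ U ∈ W, x ∈ U) (D : ℕ)
    (hD : ∀ U ∈ W, ∀ x ∈ U, ∀ y ∈ U, |x.1 - y.1| ≤ D ∧ |x.2 - y.2| ≤ D) :
    ∃ c : ℤ × ℤ, ∃ A ∈ W, ∃ B ∈ W, ∃ C ∈ W, A ≠ B ∧ B ≠ C ∧ A ≠ C ∧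
      (∃ x ∈ A, |x.1 - c.1| + |x.2 - c.2| ≤ 1) ∧
      (∃ x ∈ B, |x.1 - c.1| + |x.2 - c.2| ≤ 1) ∧
      (∃ x ∈ C, |x.1 - c.1| + |x.2 - c.2| ≤ 1) := by
  classical
  choose U hUW hU using hcov
  set N : ℕ := D + 1 with hN
  let lab : Set (ℤ × ℤ) → Fin 3 := fun V =>
    if ∃ x ∈ V, x.1 = 0 then 0 else if ∃ x ∈ V, x.2 = 0 then 1 else 2
  let l : ℕ → ℕ → Fin 3 := fun i j => lab (U ((i : ℤ), (j : ℤ)))
  have key : ∀ x y z c : ℤ × ℤ, lab (U x) ≠ lab (U y) → lab (U y) ≠ lab (U z) →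
      lab (U x) ≠ lab (U z) → |x.1 - c.1| + |x.2 - c.2| ≤ 1 → |y.1 - c.1| + |y.2 - c.2| ≤ 1 →
      |z.1 - c.1| + |z.2 - c.2| ≤ 1 →
      ∃ c : ℤ × ℤ, ∃ A ∈ W, ∃ B ∈ W, ∃ C ∈ W, A ≠ B ∧ B ≠ C ∧ A ≠ C ∧
      (∃ x ∈ A, |x.1 - c.1| + |x.2 - c.2| ≤ 1) ∧
      (∃ x ∈ B, |x.1 - c.1| + |x.2 - c.2| ≤ 1) ∧
      (∃ x ∈ C, |x.1 - c.1| + |x.2 - c.2| ≤ 1) := by
    intro x y z c h1 h2 h3 hx hy hz
    exact ⟨c, U x, hUW x, U y, hUW y, U z, hUW z, fun h => h1 (by rw [h]),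
      fun h => h2 (by rw [h]), fun h => h3 (by rw [h]), ⟨x, hU x, hx⟩, ⟨y, hU y, hy⟩, ⟨z, hU z, hz⟩⟩
  obtain ⟨i, j, hi, hj, h⟩ := sperner N l (by
      intro j _
      simp only [l, lab]
      rw [if_pos ⟨_, hU _, by simp⟩]) (by
      intro i _
      simp only [l, lab]
      split_ifs with h1 h2
      · exact Or.inl rfl
      · exact Or.inr rfl
      · exact absurd ⟨_, hU _, by simp⟩ h2) (by
      simp only [l, lab]
      rw [if_neg, if_pos ⟨_, hU _, by simp⟩]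
      rintro ⟨x, hx, hx0⟩
      have h1 := (hD _ (hUW _) _ (hU ((N : ℤ), ((0 : ℕ) : ℤ))) _ hx).1
      rw [hx0] at h1
      simp only [sub_zero, Nat.abs_cast] at h1
      omega) (by
      intro j _
      simp only [l, lab]
      rw [if_neg]
      · split_ifs
        · exact Or.inl rfl
        · exact Or.inr rfl
      rintro ⟨x, hx, hx0⟩
      have h1 := (hD _ (hUW _) _ (hU ((N : ℤ), (j : ℤ))) _ hx).1
      rw [hx0] at h1
      simp only [sub_zero, Nat.abs_cast] at h1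
      omega) (by
      intro i _
      simp only [l, lab]
      split_ifs with h1 h2
      · exact Or.inl rfl
      · exfalso
        obtain ⟨x, hx, hx0⟩ := h2
        have h1 := (hD _ (hUW _) _ (hU ((i : ℤ), (N : ℤ))) _ hx).2
        rw [hx0] at h1
        simp only [sub_zero, Nat.abs_cast] at h1
        omega
      · exact Or.inr rfl)
  rcases h with ⟨h1, h2, h3⟩ | ⟨h1, h2, h3⟩
  · refine key ((i : ℤ), (j : ℤ)) (((i + 1 : ℕ) : ℤ), (j : ℤ)) ((i : ℤ), ((j + 1 : ℕ) : ℤ))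
      ((i : ℤ), (j : ℤ)) h1 h2 h3 (by simp) (by simp) (by simp)
  · refine key (((i + 1 : ℕ) : ℤ), (j : ℤ)) ((i : ℤ), ((j + 1 : ℕ) : ℤ))
      (((i + 1 : ℕ) : ℤ), ((j + 1 : ℕ) : ℤ)) (((i + 1 : ℕ) : ℤ), ((j + 1 : ℕ) : ℤ))
      h1 h2 h3 (by simp) (by simp) (by simp)

end Pool.Agent.Work.MP_80b727_an.Sperner
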