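import Mathlib
import Pool.Agent.Work.MP_80b727_an.Defs
import Pool.Agent.Work.MP_80b727_an.Sperner

/-! Module L: asymptotic dimension of `Z × Z`. -/

set_option autoImplicit false

namespace Pool.Agent.Roe

theorem boundedGeometry_int2 : BoundedGeometry (ℤ × ℤ) := by
  intro r
  have hfin : (Metric.closedBall (0 : ℤ × ℤ) r).Finite :=
    (isCompact_closedBall (0 : ℤ × ℤ) r).finite_of_discrete
  refine ⟨(Metric.closedBall (0 : ℤ × ℤ) r).ncard, fun x => ?_⟩
  have hsub : Metric.closedBall x r ⊆ (fun y => x + y) '' Metric.closedBall (0 : ℤ × ℤ) r := by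
    intro y hy
    refine ⟨y - x, ?_, by simp⟩
    rw [Metric.mem_closedBall, dist_eq_norm] at hy ⊢
    rwa [sub_zero]
  refine (Set.encard_le_encard hsub).trans ?_
  rw [Function.Injective.encard_image (add_right_injective x), hfin.cast_ncard_eq]

theorem dist_int2 (x y : ℤ × ℤ) : dist x y = max |((x.1 - y.1 : ℤ) : ℝ)| |((x.2 - y.2 : ℤ) : ℝ)| := by
  rw [Prod.dist_eq, Int.dist_eq, Int.dist_eq]
  push_cast
  rfl

theorem not_asdimLE_one_int2 : ¬ AsdimLE (ℤ × ℤ) 1 := by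
  intro h
  obtain ⟨W, D, hcov, hD, hball⟩ := h 1 one_pos
  have hcov' : ∀ x : ℤ × ℤ, ∃ U ∈ W, x ∈ U := by
    intro x
    have : x ∈ ⋃₀ W := by rw [hcov]; trivial
    exact this
  have hD' : ∀ U ∈ W, ∀ x ∈ U, ∀ y ∈ U, |x.1 - y.1| ≤ (⌈D⌉₊ : ℤ) ∧ |x.2 - y.2| ≤ (⌈D⌉₊ : ℤ) := by
    intro U hU x hx y hy
    have h1 := hD U hU x hx y hy
    rw [dist_int2] at h1
    have h2 := (max_le_iff.1 h1).1.trans (Nat.le_ceil D)
    have h3 := (max_le_iff.1 h1).2.trans (Nat.le_ceil D)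
    constructor
    · exact_mod_cast h2
    · exact_mod_cast h3
  obtain ⟨c, A, hA, B, hB, C, hC, hAB, hBC, hAC, ⟨x, hx, hxc⟩, ⟨y, hy, hyc⟩, ⟨z, hz, hzc⟩⟩ :=
    Pool.Agent.Work.MP_80b727_an.Sperner.exists_three W hcov' ⌈D⌉₊ hD'
  have hin : ∀ (U : Set (ℤ × ℤ)) (t : ℤ × ℤ), t ∈ U → |t.1 - c.1| + |t.2 - c.2| ≤ 1 →
      (U ∩ Metric.closedBall c 1).Nonempty := by
    intro U t ht h1
    refine ⟨t, ht, ?_⟩
    rw [Metric.mem_closedBall, dist_int2]
    have h2 : |t.1 - c.1| ≤ 1 := by have := abs_nonneg (t.2 - c.2); omega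
    have h3 : |t.2 - c.2| ≤ 1 := by have := abs_nonneg (t.1 - c.1); omega
    apply max_le
    · exact_mod_cast h2
    · exact_mod_cast h3
  have hsub : ({A, B, C} : Set (Set (ℤ × ℤ))) ⊆
      {U ∈ W | (U ∩ Metric.closedBall c 1).Nonempty} := by
    intro U hU
    rcases hU with rfl | rfl | rfl
    · exact ⟨hA, hin _ x hx hxc⟩
    · exact ⟨hB, hin _ y hy hyc⟩
    · exact ⟨hC, hin _ z hz hzc⟩
  have h3 : ({A, B, C} : Set (Set (ℤ × ℤ))).encard = 3 :=
    Set.encard_eq_three.2 ⟨A, B, C, hAB, hAC, hBC, rfl⟩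
  have h4 := (Set.encard_le_encard hsub).trans (hball c)
  rw [h3] at h4
  exact absurd h4 (by norm_num)

/-- index of the brick containing a point (brick wall with bricks `2L × L`). -/
def brick (L : ℤ) (x : ℤ × ℤ) : ℤ × ℤ := ((x.1 / L - (x.2 / L) % 2) / 2, x.2 / L)

theorem asdimLE_two_int2 : AsdimLE (ℤ × ℤ) 2 := by
  intro R hR
  set ρ : ℤ := ⌊R⌋ with hρ
  have hρ0 : 0 ≤ ρ := Int.floor_nonneg.2 hR.le
  set L : ℤ := 2 * ρ + 1 with hL
  have hL0 : 0 < L := by omega
  let U : ℤ × ℤ → Set (ℤ × ℤ) := fun k => {x | brick L x = k}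
  refine ⟨Set.range U, 2 * L, ?_, ?_, ?_⟩
  · rw [Set.eq_univ_iff_forall]
    intro x
    exact ⟨U (brick L x), ⟨_, rfl⟩, rfl⟩
  · rintro _ ⟨k, rfl⟩ x hx y hy
    have hxy : brick L x = brick L y := hx.trans hy.symm
    unfold brick at hxy
    rw [Prod.mk.injEq] at hxy
    have hj : x.2 / L = y.2 / L := hxy.2
    have hi : (x.1 / L - (x.2 / L) % 2) / 2 = (y.1 / L - (x.2 / L) % 2) / 2 := by
      rw [hxy.1, hj]
    have e1 := Int.emod_add_mul_ediv x.1 L
    have e2 := Int.emod_add_mul_ediv y.1 L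
    have e3 := Int.emod_add_mul_ediv x.2 L
    have e4 := Int.emod_add_mul_ediv y.2 L
    have l1 := Int.emod_nonneg x.1 hL0.ne'
    have l2 := Int.emod_nonneg y.1 hL0.ne'
    have l3 := Int.emod_nonneg x.2 hL0.ne'
    have l4 := Int.emod_nonneg y.2 hL0.ne'
    have u1 := Int.emod_lt_of_pos x.1 hL0
    have u2 := Int.emod_lt_of_pos y.1 hL0
    have u3 := Int.emod_lt_of_pos x.2 hL0
    have u4 := Int.emod_lt_of_pos y.2 hL0
    have h2 : |x.2 - y.2| ≤ 2 * L := by
      rw [abs_le]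
      rw [hj] at e3
      constructor <;> linarith
    have hm : x.1 / L - y.1 / L ≤ 1 ∧ -1 ≤ x.1 / L - y.1 / L := by omega
    have h1 : |x.1 - y.1| ≤ 2 * L := by
      have p1 : L * (x.1 / L - y.1 / L) ≤ L * 1 := mul_le_mul_of_nonneg_left hm.1 hL0.le
      have p2 : L * (-1) ≤ L * (x.1 / L - y.1 / L) := mul_le_mul_of_nonneg_left hm.2 hL0.le
      rw [abs_le]
      constructor <;> linarith
    rw [dist_int2]
    apply max_le
    · exact_mod_cast h1
    · exact_mod_cast h2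
  · intro c
    set m0 : ℤ := (c.1 - ρ) / L with hm0
    set j0 : ℤ := (c.2 - ρ) / L with hj0
    let f : ℤ → ℤ → ℤ × ℤ := fun m j => ((m - j % 2) / 2, j)
    have hmem : ∀ x : ℤ × ℤ, x ∈ Metric.closedBall c R →
        (brick L x = f m0 j0 ∨ brick L x = f (m0 + 1) j0) ∨
        (brick L x = f m0 (j0 + 1) ∨ brick L x = f (m0 + 1) (j0 + 1)) := by
      intro x hx
      rw [Metric.mem_closedBall, dist_int2, max_le_iff] at hx
      have hx1 : |x.1 - c.1| ≤ ρ := by
        rw [hρ, Int.le_floor]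
        exact_mod_cast hx.1
      have hx2 : |x.2 - c.2| ≤ ρ := by
        rw [hρ, Int.le_floor]
        exact_mod_cast hx.2
      have hdiv : ∀ s t : ℤ, |s - t| ≤ ρ → s / L = (t - ρ) / L ∨ s / L = (t - ρ) / L + 1 := by
        intro s t hst
        rw [abs_le] at hst
        have a1 : (t - ρ) / L ≤ s / L := Int.ediv_le_ediv hL0 (by linarith)
        have a2 : s / L ≤ (t - ρ + L) / L := Int.ediv_le_ediv hL0 (by linarith)
        rw [Int.add_ediv_of_dvd_right (dvd_refl L), Int.ediv_self hL0.ne'] at a2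
        omega
      have hb : brick L x = f (x.1 / L) (x.2 / L) := rfl
      rcases hdiv x.2 c.2 hx2 with h2 | h2 <;> rcases hdiv x.1 c.1 hx1 with h1 | h1
      · exact Or.inl (Or.inl (by rw [hb, h1, h2]))
      · exact Or.inl (Or.inr (by rw [hb, h1, h2]))
      · exact Or.inr (Or.inl (by rw [hb, h1, h2]))
      · exact Or.inr (Or.inr (by rw [hb, h1, h2]))
    have h3 : ∃ k1 k2 k3 : ℤ × ℤ, ∀ x : ℤ × ℤ, x ∈ Metric.closedBall c R →
        brick L x = k1 ∨ brick L x = k2 ∨ brick L x = k3 := by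
      rcases Int.even_or_odd (m0 - j0 % 2) with he | ho
      · refine ⟨f m0 j0, f m0 (j0 + 1), f (m0 + 1) (j0 + 1), fun x hx => ?_⟩
        have heq : f (m0 + 1) j0 = f m0 j0 := by
          simp only [f, Prod.mk.injEq, and_true]
          rw [Int.even_iff] at he
          omega
        rcases hmem x hx with (h | h) | (h | h)
        · exact Or.inl h
        · exact Or.inl (h.trans heq)
        · exact Or.inr (Or.inl h)
        · exact Or.inr (Or.inr h)
      · refine ⟨f m0 j0, f (m0 + 1) j0, f m0 (j0 + 1), fun x hx => ?_⟩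
        have heq : f (m0 + 1) (j0 + 1) = f m0 (j0 + 1) := by
          simp only [f, Prod.mk.injEq, and_true]
          rw [Int.odd_iff] at ho
          omega
        rcases hmem x hx with (h | h) | (h | h)
        · exact Or.inl h
        · exact Or.inr (Or.inl h)
        · exact Or.inr (Or.inr h)
        · exact Or.inr (Or.inr (h.trans heq))
    obtain ⟨k1, k2, k3, hk⟩ := h3
    have hsub : {V ∈ Set.range U | (V ∩ Metric.closedBall c R).Nonempty} ⊆ {U k1, U k2, U k3} := by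
      rintro _ ⟨⟨k, rfl⟩, x, hxU, hxc⟩
      have hxk : brick L x = k := hxU
      rcases hk x hxc with h | h | h
      · left; rw [← hxk, h]
      · right; left; rw [← hxk, h]
      · right; right; rw [← hxk, h]; rfl
    refine (Set.encard_le_encard hsub).trans ?_
    have h4 := Set.encard_insert_le ({U k2, U k3} : Set (Set (ℤ × ℤ))) (U k1)
    have h5 := Set.encard_insert_le ({U k3} : Set (Set (ℤ × ℤ))) (U k2)
    rw [Set.encard_singleton] at h5
    calc ({U k1, U k2, U k3} : Set (Set (ℤ × ℤ))).encard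
        ≤ ({U k2, U k3} : Set (Set (ℤ × ℤ))).encard + 1 := h4
      _ ≤ (1 + 1) + 1 := by gcongr
      _ = ((2 : ℕ) : ℕ∞) + 1 := by norm_num

theorem asdimLE_mono {X : Type*} [MetricSpace X] {n m : ℕ} (h : n ≤ m) (hn : AsdimLE X n) :
    AsdimLE X m := by
  intro R hR
  obtain ⟨W, D, h1, h2, h3⟩ := hn R hR
  refine ⟨W, D, h1, h2, fun x => (h3 x).trans ?_⟩
  gcongr

theorem asdim_int2 : asdim (ℤ × ℤ) = 2 := by
  apply le_antisymm
  · exact sInf_le ⟨2, by norm_num, asdimLE_two_int2⟩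
  · apply le_sInf
    rintro _ ⟨n, rfl, hn⟩
    by_contra hcon
    rw [not_le] at hcon
    have h1 : n ≤ 1 := by
      have : (n : ℕ∞) < ((2 : ℕ) : ℕ∞) := by exact_mod_cast hcon
      have := Nat.cast_lt.1 this
      omega
    exact not_asdimLE_one_int2 (asdimLE_mono h1 hn)

end Pool.Agent.Roe
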