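import Mathlib

/-!
# Combinatorial data for the noncommutative partition of unity
-/

namespace Pool.Agent.Roe

/-- Combinatorial data: the operators `z_j = d_j + o_j σ` on `ℓ²(X)`. -/
structure CombData (X : Type) [MetricSpace X] (ι : Type) (a : ι → X → X → ℂ) (δ : ℝ) (m : ℕ) where
  J : Type
  col : J → Fin 2
  σ : X → X
  d : J → X → ℝ
  o : J → X → ℝ
  P : J → Finset X
  D : ℝ
  N : ℕ
  act : X → Finset J
  σσ : ∀ x, σ (σ x) = x
  d_supp : ∀ j x, d j x ≠ 0 → x ∈ P j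
  o_supp : ∀ j x, o j x ≠ 0 → x ∈ P j
  P_card : ∀ j, (P j).card ≤ N
  P_diam : ∀ j, ∀ x ∈ P j, ∀ y ∈ P j, dist x y ≤ D
  act_card : ∀ x, (act x).card ≤ m
  act_d : ∀ j x, j ∉ act x → d j x = 0
  act_o : ∀ j x, j ∉ act x → o j x = 0
  o_σ : ∀ j x, o j (σ x) = o j x
  o_fix : ∀ j x, σ x = x → o j x = 0
  orth1 : ∀ j k, j ≠ k → col j = col k → ∀ x, d j x * d k x + o j x * o k x = 0
  orth2 : ∀ j k, j ≠ k → col j = col k → ∀ x, d j x * o k x + o j x * d k (σ x) = 0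
  sum1 : ∀ x, ∑ j ∈ act x, (d j x ^ 2 + o j x ^ 2) = 1
  sum2 : ∀ x, ∑ j ∈ act x, o j x * (d j x + d j (σ x)) = 0
  comm : ∀ i j x y, ‖a i x y * ((d j y : ℂ) - d j x) + a i x (σ y) * o j y
      - o j x * a i (σ x) y‖ ≤ δ

end Pool.Agent.Roe
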