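import Mathlib

set_option autoImplicit false
set_option maxHeartbeats 400000

namespace Pool.Agent.Roe

theorem exists_eta (E L S : ℤ) (hE : 0 ≤ E) (hL : 0 ≤ L) (hS : 2 * L + E < S)
    (κ : ℤ × ℤ → ℝ) (hκ : ∀ c, 0 ≤ κ c ∧ κ c ≤ E) :
    ∃ η : ℤ × ℤ → ℝ, (∀ p q : ℤ × ℤ, |η p - η q| ≤ dist p q) ∧
      (∀ p, 0 ≤ η p ∧ η p ≤ E) ∧
      ∀ c p : ℤ × ℤ, |p.1 - c.1 * S| ≤ L → |p.2 - c.2 * S| ≤ L → η p = κ c := by
  classical
  -- the domain and the partial function
  let D : Set (ℤ × ℤ) := {p | ∃ c : ℤ × ℤ, |p.1 - c.1 * S| ≤ L ∧ |p.2 - c.2 * S| ≤ L}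
  have hex : ∀ p : ℤ × ℤ, ∃ c : ℤ × ℤ, p ∈ D → |p.1 - c.1 * S| ≤ L ∧ |p.2 - c.2 * S| ≤ L := by
    intro p
    by_cases hp : p ∈ D
    · obtain ⟨c, hc⟩ := hp
      exact ⟨c, fun _ => hc⟩
    · exact ⟨0, fun h => absurd h hp⟩
  choose cc hcc using hex
  have hsep1 : ∀ (a b x y : ℤ), |x - a * S| ≤ L → |y - b * S| ≤ L → a ≠ b → E ≤ |x - y| := by
    intro a b x y hx hy hab
    have hSpos : 0 < S := by linarith
    have h1 : S ≤ |a * S - b * S| := by
      rw [← sub_mul, abs_mul, abs_of_pos hSpos]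
      have h2 : 1 ≤ |a - b| := Int.one_le_abs (sub_ne_zero.mpr hab)
      nlinarith
    have h3 : |a * S - b * S| ≤ |a * S - x| + |x - y| + |y - b * S| := by
      have h4 : a * S - b * S = (a * S - x) + (x - y) + (y - b * S) := by ring
      rw [h4]
      exact abs_add_three _ _ _
    rw [abs_sub_comm (a * S) x] at h3
    linarith
  have hdist : ∀ p q : ℤ × ℤ, ((|p.1 - q.1| : ℤ) : ℝ) ≤ dist p q ∧
      ((|p.2 - q.2| : ℤ) : ℝ) ≤ dist p q := by
    intro p q
    rw [Prod.dist_eq]
    constructor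
    · refine le_trans (le_of_eq ?_) (le_max_left _ _)
      rw [Int.dist_eq]
      push_cast
      rfl
    · refine le_trans (le_of_eq ?_) (le_max_right _ _)
      rw [Int.dist_eq]
      push_cast
      rfl
  have hsep : ∀ c c' p q : ℤ × ℤ, |p.1 - c.1 * S| ≤ L → |p.2 - c.2 * S| ≤ L →
      |q.1 - c'.1 * S| ≤ L → |q.2 - c'.2 * S| ≤ L → c ≠ c' → (E : ℝ) ≤ dist p q := by
    intro c c' p q h1 h2 h3 h4 hne
    have hne' : c.1 ≠ c'.1 ∨ c.2 ≠ c'.2 := by
      by_contra hcon
      push Not at hcon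
      exact hne (Prod.ext hcon.1 hcon.2)
    rcases hne' with h | h
    · have h5 := hsep1 _ _ _ _ h1 h3 h
      have h6 : (E : ℝ) ≤ ((|p.1 - q.1| : ℤ) : ℝ) := by exact_mod_cast h5
      exact h6.trans (hdist p q).1
    · have h5 := hsep1 _ _ _ _ h2 h4 h
      have h6 : (E : ℝ) ≤ ((|p.2 - q.2| : ℤ) : ℝ) := by exact_mod_cast h5
      exact h6.trans (hdist p q).2
  have habs : ∀ c c' : ℤ × ℤ, |κ c - κ c'| ≤ E := by
    intro c c'
    rw [abs_le]
    constructor
    · linarith [(hκ c).1, (hκ c').2]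
    · linarith [(hκ c).2, (hκ c').1]
  let f : ℤ × ℤ → ℝ := fun p => κ (cc p)
  have hf : LipschitzOnWith 1 f D := by
    apply LipschitzOnWith.of_dist_le_mul
    intro p hp q hq
    rw [NNReal.coe_one, one_mul, Real.dist_eq]
    by_cases h : cc p = cc q
    · show |κ (cc p) - κ (cc q)| ≤ dist p q
      rw [h, sub_self, abs_zero]
      exact dist_nonneg
    · exact (habs _ _).trans (hsep _ _ p q (hcc p hp).1 (hcc p hp).2 (hcc q hq).1 (hcc q hq).2 h)
  obtain ⟨g, hg, hfg⟩ := hf.extend_real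
  refine ⟨fun p => max 0 (min (g p) E), ?_, ?_, ?_⟩
  · intro p q
    have h1 := hg.dist_le_mul p q
    rw [NNReal.coe_one, one_mul, Real.dist_eq] at h1
    refine le_trans ?_ h1
    calc |max 0 (min (g p) (E : ℝ)) - max 0 (min (g q) (E : ℝ))|
        ≤ |min (g p) (E : ℝ) - min (g q) (E : ℝ)| := by
          have := abs_max_sub_max_le_abs (min (g p) (E : ℝ)) (min (g q) (E : ℝ)) 0
          rwa [max_comm _ (0 : ℝ), max_comm _ (0 : ℝ)] at this
      _ ≤ |g p - g q| := by
          have := abs_min_sub_min_le_max (g p) (E : ℝ) (g q) (E : ℝ)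
          rw [sub_self, abs_zero] at this
          refine this.trans (le_of_eq ?_)
          exact max_eq_left (abs_nonneg _)
  · intro p
    have hE' : (0 : ℝ) ≤ E := by exact_mod_cast hE
    exact ⟨le_max_left _ _, max_le hE' (min_le_right _ _)⟩
  · intro c p h1 h2
    have hp : p ∈ D := ⟨c, h1, h2⟩
    have h3 : g p = κ (cc p) := (hfg hp).symm
    have h4 : κ (cc p) = κ c := by
      by_cases h : cc p = c
      · rw [h]
      · exfalso
        -- p lies in two boxes
        have h5 := hcc p hp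
        have hne' : (cc p).1 ≠ c.1 ∨ (cc p).2 ≠ c.2 := by
          by_contra hcon
          push Not at hcon
          exact h (Prod.ext hcon.1 hcon.2)
        have key : ∀ (a b x : ℤ), |x - a * S| ≤ L → |x - b * S| ≤ L → a ≠ b → False := by
          intro a b x hx hy hab
          have hSpos : 0 < S := by linarith
          have h1 : S ≤ |a * S - b * S| := by
            rw [← sub_mul, abs_mul, abs_of_pos hSpos]
            have h2 : 1 ≤ |a - b| := Int.one_le_abs (sub_ne_zero.mpr hab)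
            nlinarith
          have h3 : |a * S - b * S| ≤ |a * S - x| + |x - b * S| := by
            have h4 : a * S - b * S = (a * S - x) + (x - b * S) := by ring
            rw [h4]
            exact abs_add_le _ _
          rw [abs_sub_comm (a * S) x] at h3
          linarith
        rcases hne' with h | h
        · exact key _ _ _ h5.1 h1 h
        · exact key _ _ _ h5.2 h2 h
    show max 0 (min (g p) (E : ℝ)) = κ c
    rw [h3, h4, min_eq_left (hκ c).2, max_eq_right (hκ c).1]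

end Pool.Agent.Roe
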