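import Mathlib

/-! Two close members in every long bounded sequence of finite families. -/

set_option autoImplicit false

namespace Pool.Agent.Roe

theorem exists_close (K : Type) [Fintype K] (M δ : ℝ) (hδ : 0 < δ) :
    ∃ T : ℕ, ∀ f : ℕ → K → ℂ, (∀ n k, ‖f n k‖ ≤ M) →
      ∃ a b : ℕ, a < b ∧ b ≤ T ∧ ∀ k, ‖f a k - f b k‖ ≤ δ := by
  classical
  have htb : TotallyBounded (Metric.closedBall (0 : K → ℂ) |M|) :=
    (isCompact_closedBall (0 : K → ℂ) |M|).totallyBounded
  obtain ⟨t, ht, hcov⟩ := Metric.totallyBounded_iff.mp htb (δ / 2) (by linarith)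
  refine ⟨ht.toFinset.card, fun f hf => ?_⟩
  have hmem : ∀ n, ∃ y ∈ t, dist (f n) y < δ / 2 := by
    intro n
    have h1 : f n ∈ Metric.closedBall (0 : K → ℂ) |M| := by
      rw [mem_closedBall_zero_iff, pi_norm_le_iff_of_nonneg (abs_nonneg M)]
      intro k
      exact (hf n k).trans (le_abs_self M)
    have h2 := hcov h1
    simpa using h2
  choose g hgt hg using hmem
  obtain ⟨a, ha, b, hb, hab, hgab⟩ := Finset.exists_ne_map_eq_of_card_lt_of_maps_to
    (s := Finset.range (ht.toFinset.card + 1)) (t := ht.toFinset) (f := g) (by simp)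
    (fun n _ => by simpa using hgt n)
  have key : ∀ a b : ℕ, g a = g b → ∀ k, ‖f a k - f b k‖ ≤ δ := by
    intro a b h k
    have h1 : dist (f a) (f b) ≤ δ := by
      have h2 := dist_triangle_right (f a) (f b) (g a)
      have h3 := hg a
      have h4 := hg b
      rw [← h] at h4
      linarith
    rw [← dist_eq_norm]
    exact (dist_le_pi_dist (f a) (f b) k).trans h1
  have ha' := Finset.mem_range.mp ha
  have hb' := Finset.mem_range.mp hb
  rcases lt_or_gt_of_ne hab with h | h
  · exact ⟨a, b, h, by omega, key a b hgab⟩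
  · exact ⟨b, a, h, by omega, key b a hgab.symm⟩

end Pool.Agent.Roe
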