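import Mathlib

/-!
# The real functions used in the pattern
-/

namespace Pool.Agent.Roe

noncomputable section

open Real

/-- the angle function, `0` for `t ≤ -1`, `π/2` for `t ≥ 1`. -/
def th (t : ℝ) : ℝ := π / 4 * (max (-1) (min 1 t) + 1)

theorem th_nonneg (t : ℝ) : 0 ≤ th t := by
  unfold th
  have h := le_max_left (-1 : ℝ) (min 1 t)
  have hp := pi_pos
  have : 0 ≤ max (-1) (min 1 t) + 1 := by linarith
  positivity

theorem th_le (t : ℝ) : th t ≤ π / 2 := by
  unfold th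
  have h : max (-1) (min 1 t) ≤ 1 := max_le (by norm_num) (min_le_left _ _)
  have hp := pi_pos
  nlinarith

theorem th_of_le {t : ℝ} (h : t ≤ -1) : th t = 0 := by
  unfold th
  rw [min_eq_right (by linarith), max_eq_left h]
  ring

theorem th_of_ge {t : ℝ} (h : 1 ≤ t) : th t = π / 2 := by
  unfold th
  rw [min_eq_left h, max_eq_right (by norm_num)]
  ring

theorem th_lip (s t : ℝ) : |th s - th t| ≤ |s - t| := by
  unfold th
  have h1 : π / 4 * (max (-1) (min 1 s) + 1) - π / 4 * (max (-1) (min 1 t) + 1)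
      = π / 4 * (max (-1) (min 1 s) - max (-1) (min 1 t)) := by ring
  rw [h1, abs_mul, abs_of_pos (by positivity)]
  have h2 : |max (-1) (min 1 s) - max (-1) (min 1 t)| ≤ |s - t| := by
    refine (abs_max_sub_max_le_max _ _ _ _).trans ?_
    refine max_le (by simp) ?_
    refine (abs_min_sub_min_le_max _ _ _ _).trans ?_
    exact max_le (by simp) le_rfl
  have h3 : π / 4 ≤ 1 := by have := pi_le_four; linarith
  have h4 := abs_nonneg (max (-1) (min 1 s) - max (-1) (min 1 t))
  have h5 : 0 < π / 4 := by positivity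
  nlinarith

/-- rising amplitude -/
def sn (t : ℝ) : ℝ := sin (th t)

/-- falling amplitude -/
def cs (t : ℝ) : ℝ := cos (th t)

theorem sn_nonneg (t : ℝ) : 0 ≤ sn t :=
  sin_nonneg_of_nonneg_of_le_pi (th_nonneg t) ((th_le t).trans (by have := pi_pos; linarith))

theorem cs_nonneg (t : ℝ) : 0 ≤ cs t :=
  cos_nonneg_of_neg_pi_div_two_le_of_le
    (by have := pi_pos; have := th_nonneg t; linarith) (th_le t)

theorem sn_le_one (t : ℝ) : sn t ≤ 1 := sin_le_one _

theorem cs_le_one (t : ℝ) : cs t ≤ 1 := cos_le_one _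

theorem sn_cs_sq (t : ℝ) : sn t ^ 2 + cs t ^ 2 = 1 := sin_sq_add_cos_sq _

theorem sn_of_le {t : ℝ} (h : t ≤ -1) : sn t = 0 := by unfold sn; rw [th_of_le h, sin_zero]

theorem sn_of_ge {t : ℝ} (h : 1 ≤ t) : sn t = 1 := by unfold sn; rw [th_of_ge h, sin_pi_div_two]

theorem cs_of_le {t : ℝ} (h : t ≤ -1) : cs t = 1 := by unfold cs; rw [th_of_le h, cos_zero]

theorem cs_of_ge {t : ℝ} (h : 1 ≤ t) : cs t = 0 := by unfold cs; rw [th_of_ge h, cos_pi_div_two]

theorem abs_sin_sub_le (a b : ℝ) : |sin a - sin b| ≤ |a - b| := by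
  have h := Real.lipschitzWith_sin.dist_le_mul a b
  simpa [Real.dist_eq] using h

theorem abs_cos_sub_le (a b : ℝ) : |cos a - cos b| ≤ |a - b| := by
  have h := Real.lipschitzWith_cos.dist_le_mul a b
  simpa [Real.dist_eq] using h

theorem sn_lip (s t : ℝ) : |sn s - sn t| ≤ |s - t| :=
  (abs_sin_sub_le _ _).trans (th_lip s t)

theorem cs_lip (s t : ℝ) : |cs s - cs t| ≤ |s - t| :=
  (abs_cos_sub_le _ _).trans (th_lip s t)

/-- the product estimate for numbers in `[-1, 1]` -/
theorem abs_mul_sub_mul_le {a b a' b' : ℝ} (ha : |a'| ≤ 1) (hb : |b| ≤ 1) :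
    |a * b - a' * b'| ≤ |a - a'| + |b - b'| := by
  have h : a * b - a' * b' = (a - a') * b + a' * (b - b') := by ring
  rw [h]
  refine (abs_add_le _ _).trans ?_
  rw [abs_mul, abs_mul]
  have h1 := mul_le_mul_of_nonneg_left hb (abs_nonneg (a - a'))
  have h2 := mul_le_mul_of_nonneg_right ha (abs_nonneg (b - b'))
  linarith

theorem abs_sqrt_sub_sqrt_le {x y : ℝ} (hx : 0 ≤ x) (hy : 0 ≤ y) :
    |√x - √y| ≤ √|x - y| := by
  apply Real.le_sqrt_of_sq_le
  rw [sq_abs]
  have h1 : √x ^ 2 = x := Real.sq_sqrt hx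
  have h2 : √y ^ 2 = y := Real.sq_sqrt hy
  have h3 := Real.sqrt_nonneg x
  have h4 := Real.sqrt_nonneg y
  rcases le_total x y with h | h
  · have h5 : √x ≤ √y := Real.sqrt_le_sqrt h
    rw [abs_of_nonpos (by linarith)]
    nlinarith
  · have h5 : √y ≤ √x := Real.sqrt_le_sqrt h
    rw [abs_of_nonneg (by linarith)]
    nlinarith

/-- the scaling factor in the partner block -/
def tau (U V : ℝ) : ℝ := max 0 (min 1 (2 - max |U| |V|))

theorem tau_nonneg (U V : ℝ) : 0 ≤ tau U V := le_max_left _ _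

theorem tau_le_one (U V : ℝ) : tau U V ≤ 1 := max_le (by norm_num) (min_le_left _ _)

theorem tau_inner {U V : ℝ} (hU : |U| ≤ 1) (hV : |V| ≤ 1) : tau U V = 1 := by
  unfold tau
  have h := max_le hU hV
  rw [min_eq_left (by linarith), max_eq_right (by norm_num)]

theorem tau_far {U V : ℝ} (h : 2 ≤ |U| ∨ 2 ≤ |V|) : tau U V = 0 := by
  unfold tau
  have h1 : 2 ≤ max |U| |V| := le_max_iff.2 h
  rw [min_eq_right (by linarith), max_eq_left (by linarith)]

theorem tau_lip (U V U' V' : ℝ) : |tau U V - tau U' V'| ≤ |U - U'| + |V - V'| := by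
  unfold tau
  have h1 : abs (max |U| |V| - max |U'| |V'|) ≤ |U - U'| + |V - V'| := by
    refine (abs_max_sub_max_le_max _ _ _ _).trans ?_
    refine max_le ?_ ?_
    · refine (abs_abs_sub_abs_le _ _).trans ?_
      have := abs_nonneg (V - V'); linarith
    · refine (abs_abs_sub_abs_le _ _).trans ?_
      have := abs_nonneg (U - U'); linarith
  refine (abs_max_sub_max_le_max _ _ _ _).trans ?_
  refine max_le (by simp; positivity) ?_
  refine (abs_min_sub_min_le_max _ _ _ _).trans ?_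
  refine max_le (by simp; positivity) ?_
  have h2 : (2 - max |U| |V|) - (2 - max |U'| |V'|) = -(max |U| |V| - max |U'| |V'|) := by ring
  rw [h2, abs_neg]
  exact h1

/-- the off-diagonal amplitude -/
def gg (U V : ℝ) : ℝ := √(sn U * cs U * (sn V * cs V))

theorem gg_nonneg (U V : ℝ) : 0 ≤ gg U V := Real.sqrt_nonneg _

theorem prod_nonneg' (U V : ℝ) : 0 ≤ sn U * cs U * (sn V * cs V) := by
  have := sn_nonneg U; have := sn_nonneg V; have := cs_nonneg U; have := cs_nonneg V
  positivity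

theorem gg_sq (U V : ℝ) : gg U V * gg U V = sn U * cs U * (sn V * cs V) :=
  Real.mul_self_sqrt (prod_nonneg' U V)

theorem mul_le_one' {a b : ℝ} (_ha : 0 ≤ a) (ha1 : a ≤ 1) (hb : 0 ≤ b) (hb1 : b ≤ 1) :
    a * b ≤ 1 := mul_le_one₀ ha1 hb hb1

theorem gg_le_one (U V : ℝ) : gg U V ≤ 1 := by
  unfold gg
  rw [Real.sqrt_le_one]
  exact mul_le_one' (mul_nonneg (sn_nonneg _) (cs_nonneg _))
    (mul_le_one' (sn_nonneg _) (sn_le_one _) (cs_nonneg _) (cs_le_one _))
    (mul_nonneg (sn_nonneg _) (cs_nonneg _))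
    (mul_le_one' (sn_nonneg _) (sn_le_one _) (cs_nonneg _) (cs_le_one _))

theorem sncs_outer {t : ℝ} (h : 1 ≤ |t|) : sn t * cs t = 0 := by
  rcases le_abs.1 h with h | h
  · rw [cs_of_ge h, mul_zero]
  · rw [sn_of_le (by linarith), zero_mul]

theorem gg_outer {U V : ℝ} (h : 1 ≤ |U| ∨ 1 ≤ |V|) : gg U V = 0 := by
  unfold gg
  rcases h with h | h
  · rw [sncs_outer h, zero_mul, Real.sqrt_zero]
  · rw [sncs_outer h, mul_zero, Real.sqrt_zero]

theorem abs_sn_le (t : ℝ) : |sn t| ≤ 1 := by rw [abs_of_nonneg (sn_nonneg t)]; exact sn_le_one t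

theorem abs_cs_le (t : ℝ) : |cs t| ≤ 1 := by rw [abs_of_nonneg (cs_nonneg t)]; exact cs_le_one t

theorem abs_mul_le_one {a b : ℝ} (ha : |a| ≤ 1) (hb : |b| ≤ 1) : |a * b| ≤ 1 := by
  rw [abs_mul]; exact mul_le_one₀ ha (abs_nonneg _) hb

theorem gg_lip (U V U' V' : ℝ) : |gg U V - gg U' V'| ≤ √(2 * |U - U'| + 2 * |V - V'|) := by
  unfold gg
  refine (abs_sqrt_sub_sqrt_le (prod_nonneg' _ _) (prod_nonneg' _ _)).trans ?_
  apply Real.sqrt_le_sqrt
  refine (abs_mul_sub_mul_le (abs_mul_le_one (abs_sn_le _) (abs_cs_le _))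
    (abs_mul_le_one (abs_sn_le _) (abs_cs_le _))).trans ?_
  have h1 := abs_mul_sub_mul_le (a := sn U) (b := cs U) (a' := sn U') (b' := cs U')
    (abs_sn_le _) (abs_cs_le _)
  have h2 := abs_mul_sub_mul_le (a := sn V) (b := cs V) (a' := sn V') (b' := cs V')
    (abs_sn_le _) (abs_cs_le _)
  have h3 := sn_lip U U'
  have h4 := cs_lip U U'
  have h5 := sn_lip V V'
  have h6 := cs_lip V V'
  linarith

/-- partner block, label NE -/
def D2A (U V : ℝ) : ℝ :=
  max 0 (cos (tau U V * (th U + th V))) + cs U * cs V - max 0 (cos (th U + th V))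

/-- partner block, label SW -/
def D2B (U V : ℝ) : ℝ :=
  max 0 (-cos (tau U V * (th U + th V))) + sn U * sn V - max 0 (-cos (th U + th V))

/-- partner block, label NW -/
def D2C (U V : ℝ) : ℝ :=
  sin (tau U V * (th U + th V)) + |sin (th V - th U)| - sin (th U + th V)

theorem D2A_inner {U V : ℝ} (hU : |U| ≤ 1) (hV : |V| ≤ 1) : D2A U V = cs U * cs V := by
  unfold D2A; rw [tau_inner hU hV, one_mul]; ring

theorem D2B_inner {U V : ℝ} (hU : |U| ≤ 1) (hV : |V| ≤ 1) : D2B U V = sn U * sn V := by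
  unfold D2B; rw [tau_inner hU hV, one_mul]; ring

theorem D2C_inner {U V : ℝ} (hU : |U| ≤ 1) (hV : |V| ≤ 1) :
    D2C U V = |sin (th V - th U)| := by
  unfold D2C; rw [tau_inner hU hV, one_mul]; ring

theorem outer_identities {a b : ℝ} (ha : 0 ≤ a) (ha' : a ≤ π / 2) (hb : 0 ≤ b) (hb' : b ≤ π / 2)
    (h : a = 0 ∨ a = π / 2 ∨ b = 0 ∨ b = π / 2) :
    cos a * cos b = max 0 (cos (a + b)) ∧ sin a * sin b = max 0 (-cos (a + b)) ∧
      |sin (b - a)| = sin (a + b) := by
  have hsa : 0 ≤ sin a := sin_nonneg_of_nonneg_of_le_pi ha (by linarith [pi_pos])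
  have hsb : 0 ≤ sin b := sin_nonneg_of_nonneg_of_le_pi hb (by linarith [pi_pos])
  have hca : 0 ≤ cos a := cos_nonneg_of_neg_pi_div_two_le_of_le (by linarith [pi_pos]) ha'
  have hcb : 0 ≤ cos b := cos_nonneg_of_neg_pi_div_two_le_of_le (by linarith [pi_pos]) hb'
  rcases h with h | h | h | h
  · subst h
    simp [hcb, hsb, abs_of_nonneg]
  · subst h
    rw [sin_sub, sin_add, cos_add]
    simp [hcb, hsb, abs_of_nonneg]
  · subst h
    simp [hca, hsa, abs_of_nonneg]
  · subst h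
    rw [sin_sub, sin_add, cos_add]
    simp [hca, hsa, abs_of_nonneg]

theorem th_outer {U V : ℝ} (h : 1 ≤ |U| ∨ 1 ≤ |V|) :
    th U = 0 ∨ th U = π / 2 ∨ th V = 0 ∨ th V = π / 2 := by
  rcases h with h | h
  · rcases le_abs.1 h with h | h
    · exact Or.inr (Or.inl (th_of_ge h))
    · exact Or.inl (th_of_le (by linarith))
  · rcases le_abs.1 h with h | h
    · exact Or.inr (Or.inr (Or.inr (th_of_ge h)))
    · exact Or.inr (Or.inr (Or.inl (th_of_le (by linarith))))

theorem D2_outer {U V : ℝ} (h : 1 ≤ |U| ∨ 1 ≤ |V|) :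
    D2A U V = max 0 (cos (tau U V * (th U + th V))) ∧
    D2B U V = max 0 (-cos (tau U V * (th U + th V))) ∧
    D2C U V = sin (tau U V * (th U + th V)) := by
  obtain ⟨h1, h2, h3⟩ := outer_identities (th_nonneg U) (th_le U) (th_nonneg V) (th_le V)
    (th_outer h)
  unfold D2A D2B D2C cs sn
  rw [h1, h2, h3]
  refine ⟨by ring, by ring, by ring⟩

theorem D2_far {U V : ℝ} (h : 2 ≤ |U| ∨ 2 ≤ |V|) :
    D2A U V = 1 ∧ D2B U V = 0 ∧ D2C U V = 0 := by
  have h' : 1 ≤ |U| ∨ 1 ≤ |V| := h.imp (fun h => by linarith) (fun h => by linarith)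
  obtain ⟨h1, h2, h3⟩ := D2_outer h'
  rw [h1, h2, h3, tau_far h]
  simp

/-- `|(U,V)| ≤ 1` or outer -/
theorem inner_or_outer (U V : ℝ) : (|U| ≤ 1 ∧ |V| ≤ 1) ∨ (1 ≤ |U| ∨ 1 ≤ |V|) := by
  rcases le_total |U| 1 with h | h
  · rcases le_total |V| 1 with h' | h'
    · exact Or.inl ⟨h, h'⟩
    · exact Or.inr (Or.inr h')
  · exact Or.inr (Or.inl h)

theorem sum_partner (U V : ℝ) :
    D2A U V ^ 2 + D2B U V ^ 2 + D2C U V ^ 2 + 2 * gg U V ^ 2 = 1 := by
  rcases inner_or_outer U V with ⟨hU, hV⟩ | h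
  · rw [D2A_inner hU hV, D2B_inner hU hV, D2C_inner hU hV, sq_abs, sq (gg U V), gg_sq, sin_sub]
    have h1 := sn_cs_sq U
    have h2 := sn_cs_sq V
    change (cs U * cs V) ^ 2 + (sn U * sn V) ^ 2 + (sn V * cs U - cs V * sn U) ^ 2 +
      2 * (sn U * cs U * (sn V * cs V)) = 1
    calc _ = (sn U ^ 2 + cs U ^ 2) * (sn V ^ 2 + cs V ^ 2) := by ring
      _ = 1 := by rw [h1, h2, one_mul]
  · obtain ⟨h1, h2, h3⟩ := D2_outer h
    rw [h1, h2, h3, gg_outer h]
    set x := tau U V * (th U + th V)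
    have h4 := sin_sq_add_cos_sq x
    rcases le_total 0 (cos x) with h5 | h5
    · rw [max_eq_right h5, max_eq_left (by linarith)]
      nlinarith
    · rw [max_eq_left h5, max_eq_right (by linarith)]
      nlinarith

theorem orth_partner (U V : ℝ) : D2A U V * D2B U V - gg U V * gg U V = 0 := by
  rcases inner_or_outer U V with ⟨hU, hV⟩ | h
  · rw [D2A_inner hU hV, D2B_inner hU hV, gg_sq]; ring
  · obtain ⟨h1, h2, h3⟩ := D2_outer h
    rw [h1, h2, gg_outer h]
    rcases le_total 0 (cos (tau U V * (th U + th V))) with h5 | h5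
    · rw [max_eq_left (b := -cos (tau U V * (th U + th V))) (by linarith)]; ring
    · rw [max_eq_left (b := cos (tau U V * (th U + th V))) h5]; ring

/-- the four states in the hole block -/
theorem sum_hole (U V : ℝ) :
    (sn U * sn V) ^ 2 + (cs U * cs V) ^ 2 + (max 0 (cs U * sn V - sn U * cs V)) ^ 2 +
      (max 0 (sn U * cs V - cs U * sn V)) ^ 2 + 2 * gg U V ^ 2 = 1 := by
  have h0 : (max 0 (cs U * sn V - sn U * cs V)) ^ 2 + (max 0 (sn U * cs V - cs U * sn V)) ^ 2
      = (cs U * sn V - sn U * cs V) ^ 2 := by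
    rcases le_total 0 (cs U * sn V - sn U * cs V) with h5 | h5
    · rw [max_eq_right h5, max_eq_left (by linarith)]; ring
    · rw [max_eq_left h5, max_eq_right (by linarith)]; ring
  have h1 := sn_cs_sq U
  have h2 := sn_cs_sq V
  rw [sq (gg U V), gg_sq]
  calc _ = (sn U * sn V) ^ 2 + (cs U * cs V) ^ 2 + ((max 0 (cs U * sn V - sn U * cs V)) ^ 2 +
      (max 0 (sn U * cs V - cs U * sn V)) ^ 2) + 2 * (sn U * cs U * (sn V * cs V)) := by ring
    _ = (sn U ^ 2 + cs U ^ 2) * (sn V ^ 2 + cs V ^ 2) := by rw [h0]; ring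
    _ = 1 := by rw [h1, h2, one_mul]

theorem orth_hole (U V : ℝ) : (sn U * sn V) * (cs U * cs V) - gg U V * gg U V = 0 := by
  rw [gg_sq]; ring

theorem orth_hole' (U V : ℝ) :
    max 0 (cs U * sn V - sn U * cs V) * max 0 (sn U * cs V - cs U * sn V) = 0 := by
  rcases le_total 0 (cs U * sn V - sn U * cs V) with h5 | h5
  · rw [max_eq_left (b := sn U * cs V - cs U * sn V) (by linarith)]; ring
  · rw [max_eq_left h5]; ring

theorem max0_lip (x y : ℝ) : |max 0 x - max 0 y| ≤ |x - y| := by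
  refine (abs_max_sub_max_le_max _ _ _ _).trans ?_
  exact max_le (by simp) le_rfl

theorem arg_lip (U V U' V' : ℝ) :
    |tau U V * (th U + th V) - tau U' V' * (th U' + th V')| ≤
      5 * (|U - U'| + |V - V'|) := by
  have h : tau U V * (th U + th V) - tau U' V' * (th U' + th V') =
      (tau U V - tau U' V') * (th U + th V) +
        tau U' V' * ((th U - th U') + (th V - th V')) := by ring
  rw [h]
  refine (abs_add_le _ _).trans ?_
  rw [abs_mul, abs_mul]
  have h1 := tau_lip U V U' V'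
  have h2 : |th U + th V| ≤ 4 := by
    rw [abs_of_nonneg (add_nonneg (th_nonneg U) (th_nonneg V))]
    have := th_le U; have := th_le V; have := pi_le_four; linarith
  have h3 : |tau U' V'| ≤ 1 := by rw [abs_of_nonneg (tau_nonneg _ _)]; exact tau_le_one _ _
  have h4 : |(th U - th U') + (th V - th V')| ≤ |U - U'| + |V - V'| :=
    (abs_add_le _ _).trans (add_le_add (th_lip _ _) (th_lip _ _))
  have h5 := mul_le_mul h1 h2 (abs_nonneg _) (by positivity)
  have h6 := mul_le_mul h3 h4 (abs_nonneg _) (by norm_num)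
  linarith

theorem D2A_lip (U V U' V' : ℝ) : |D2A U V - D2A U' V'| ≤ 7 * (|U - U'| + |V - V'|) := by
  unfold D2A
  have h1 := (max0_lip _ _).trans ((abs_cos_sub_le _ _).trans (arg_lip U V U' V'))
  have h2 : |cs U * cs V - cs U' * cs V'| ≤ |U - U'| + |V - V'| :=
    (abs_mul_sub_mul_le (abs_cs_le _) (abs_cs_le _)).trans
      (add_le_add (cs_lip _ _) (cs_lip _ _))
  have h3 : |max 0 (cos (th U + th V)) - max 0 (cos (th U' + th V'))| ≤
      |U - U'| + |V - V'| := by
    refine (max0_lip _ _).trans ((abs_cos_sub_le _ _).trans ?_)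
    have : th U + th V - (th U' + th V') = (th U - th U') + (th V - th V') := by ring
    rw [this]
    exact (abs_add_le _ _).trans (add_le_add (th_lip _ _) (th_lip _ _))
  rw [abs_le] at *
  constructor <;> linarith [h1.1, h1.2, h2.1, h2.2, h3.1, h3.2]

theorem D2B_lip (U V U' V' : ℝ) : |D2B U V - D2B U' V'| ≤ 7 * (|U - U'| + |V - V'|) := by
  unfold D2B
  have hneg : ∀ x y : ℝ, |-cos x - -cos y| ≤ |x - y| := by
    intro x y
    have : -cos x - -cos y = -(cos x - cos y) := by ring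
    rw [this, abs_neg]; exact abs_cos_sub_le _ _
  have h1 := (max0_lip _ _).trans ((hneg _ _).trans (arg_lip U V U' V'))
  have h2 : |sn U * sn V - sn U' * sn V'| ≤ |U - U'| + |V - V'| :=
    (abs_mul_sub_mul_le (abs_sn_le _) (abs_sn_le _)).trans
      (add_le_add (sn_lip _ _) (sn_lip _ _))
  have h3 : |max 0 (-cos (th U + th V)) - max 0 (-cos (th U' + th V'))| ≤
      |U - U'| + |V - V'| := by
    refine (max0_lip _ _).trans ((hneg _ _).trans ?_)
    have : th U + th V - (th U' + th V') = (th U - th U') + (th V - th V') := by ring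
    rw [this]
    exact (abs_add_le _ _).trans (add_le_add (th_lip _ _) (th_lip _ _))
  rw [abs_le] at *
  constructor <;> linarith [h1.1, h1.2, h2.1, h2.2, h3.1, h3.2]

theorem D2C_lip (U V U' V' : ℝ) : |D2C U V - D2C U' V'| ≤ 7 * (|U - U'| + |V - V'|) := by
  unfold D2C
  have h1 := (abs_sin_sub_le _ _).trans (arg_lip U V U' V')
  have h2 : abs (|sin (th V - th U)| - |sin (th V' - th U')|) ≤ |U - U'| + |V - V'| := by
    refine (abs_abs_sub_abs_le _ _).trans ((abs_sin_sub_le _ _).trans ?_)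
    have : th V - th U - (th V' - th U') = -(th U - th U') + (th V - th V') := by ring
    rw [this]
    refine (abs_add_le _ _).trans ?_
    rw [abs_neg]
    exact add_le_add (th_lip _ _) (th_lip _ _)
  have h3 : |sin (th U + th V) - sin (th U' + th V')| ≤ |U - U'| + |V - V'| := by
    refine (abs_sin_sub_le _ _).trans ?_
    have : th U + th V - (th U' + th V') = (th U - th U') + (th V - th V') := by ring
    rw [this]
    exact (abs_add_le _ _).trans (add_le_add (th_lip _ _) (th_lip _ _))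
  rw [abs_le] at *
  constructor <;> linarith [h1.1, h1.2, h2.1, h2.2, h3.1, h3.2]

end

end Pool.Agent.Roe
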