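import Mathlib
import Pool.Agent.Work.MP_80b727_an.Functions

/-!
# The base pattern: amplitudes of the checkerboard squares
-/

namespace Pool.Agent.Roe

noncomputable section

open Real

/-- amplitude of the interval `[iS, (i+1)S]` at the real coordinate `u`, at scale `R` -/
def al (R S : ℝ) (i : ℤ) (u : ℝ) : ℝ := sn ((u - i * S) / R) * cs ((u - (i + 1) * S) / R)

section
variable {R S : ℝ}

theorem al_nonneg (i : ℤ) (u : ℝ) : 0 ≤ al R S i u := mul_nonneg (sn_nonneg _) (cs_nonneg _)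

theorem abs_al_le (i : ℤ) (u : ℝ) : |al R S i u| ≤ 1 := abs_mul_le_one (abs_sn_le _) (abs_cs_le _)

theorem al_lip (hR : 0 < R) (i : ℤ) (u u' : ℝ) :
    |al R S i u - al R S i u'| ≤ 2 * (|u - u'| / R) := by
  unfold al
  refine (abs_mul_sub_mul_le (abs_sn_le _) (abs_cs_le _)).trans ?_
  have h1 := sn_lip ((u - i * S) / R) ((u' - i * S) / R)
  have h2 := cs_lip ((u - (i + 1) * S) / R) ((u' - (i + 1) * S) / R)
  have h3 : (u - i * S) / R - (u' - i * S) / R = (u - u') / R := by ring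
  have h4 : (u - (i + 1) * S) / R - (u' - (i + 1) * S) / R = (u - u') / R := by ring
  rw [h3, abs_div, abs_of_pos hR] at h1
  rw [h4, abs_div, abs_of_pos hR] at h2
  linarith

theorem al_self (hR : 0 < R) (hS : 2 * R ≤ S) {m : ℤ} {u : ℝ} (hu : |u - m * S| ≤ S / 2) :
    al R S m u = sn ((u - m * S) / R) := by
  unfold al
  rw [cs_of_le, mul_one]
  rw [div_le_iff₀ hR]
  have := (abs_le.1 hu).2
  linarith

theorem al_pred (hR : 0 < R) (hS : 2 * R ≤ S) {m : ℤ} {u : ℝ} (hu : |u - m * S| ≤ S / 2) :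
    al R S (m - 1) u = cs ((u - m * S) / R) := by
  unfold al
  rw [sn_of_ge, one_mul]
  · push_cast; congr 2; ring
  · rw [le_div_iff₀ hR]
    have := (abs_le.1 hu).1
    push_cast
    linarith

theorem al_zero (hR : 0 < R) (hS : 2 * R ≤ S) {m i : ℤ} {u : ℝ} (hu : |u - m * S| ≤ S / 2)
    (h1 : i ≠ m) (h2 : i ≠ m - 1) : al R S i u = 0 := by
  unfold al
  have hS0 : 0 < S := by linarith
  have hu1 := (abs_le.1 hu).1
  have hu2 := (abs_le.1 hu).2
  rcases lt_or_gt_of_ne h1 with h | h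
  · have h3 : i + 1 ≤ m - 1 := by omega
    have h4 : ((i : ℝ) + 1) ≤ m - 1 := by exact_mod_cast h3
    rw [cs_of_ge, mul_zero]
    rw [le_div_iff₀ hR]
    nlinarith
  · have h3 : m + 1 ≤ i := by omega
    have h4 : (m : ℝ) + 1 ≤ i := by exact_mod_cast h3
    rw [sn_of_le, zero_mul]
    rw [div_le_iff₀ hR]
    nlinarith

/-- the base pattern -/
def D0 (R S : ℝ) (j : ℤ × ℤ) (u v : ℝ) : ℝ :=
  max 0 (al R S j.1 u * al R S j.2 v - al R S (j.1 + 1) u * al R S (j.2 - 1) v
    - al R S (j.1 - 1) u * al R S (j.2 + 1) v)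

theorem D0_lip (hR : 0 < R) (j : ℤ × ℤ) (u v u' v' : ℝ) :
    |D0 R S j u v - D0 R S j u' v'| ≤ 6 * ((|u - u'| + |v - v'|) / R) := by
  unfold D0
  refine (max0_lip _ _).trans ?_
  have key : ∀ i l : ℤ, |al R S i u * al R S l v - al R S i u' * al R S l v'| ≤
      2 * ((|u - u'| + |v - v'|) / R) := by
    intro i l
    refine (abs_mul_sub_mul_le (abs_al_le _ _) (abs_al_le _ _)).trans ?_
    have h1 := al_lip (S := S) hR i u u'
    have h2 := al_lip (S := S) hR l v v'
    have h3 : (|u - u'| + |v - v'|) / R = |u - u'| / R + |v - v'| / R := by ring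
    rw [h3]; linarith
  have h1 := key j.1 j.2
  have h2 := key (j.1 + 1) (j.2 - 1)
  have h3 := key (j.1 - 1) (j.2 + 1)
  rw [abs_le] at *
  constructor <;> linarith [h1.1, h1.2, h2.1, h2.2, h3.1, h3.2]

variable {m n : ℤ} {u v : ℝ}

theorem D0_NE (hR : 0 < R) (hS : 2 * R ≤ S) (hu : |u - m * S| ≤ S / 2)
    (hv : |v - n * S| ≤ S / 2) :
    D0 R S (m, n) u v = sn ((u - m * S) / R) * sn ((v - n * S) / R) := by
  unfold D0
  have h1 : al R S (m + 1) u = 0 := al_zero hR hS hu (by omega) (by omega)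
  have h2 : al R S (n + 1) v = 0 := al_zero hR hS hv (by omega) (by omega)
  simp only [h1, h2, al_self hR hS hu, al_self hR hS hv]
  rw [zero_mul, mul_zero, sub_zero, sub_zero,
    max_eq_right (mul_nonneg (sn_nonneg _) (sn_nonneg _))]

theorem D0_SW (hR : 0 < R) (hS : 2 * R ≤ S) (hu : |u - m * S| ≤ S / 2)
    (hv : |v - n * S| ≤ S / 2) :
    D0 R S (m - 1, n - 1) u v = cs ((u - m * S) / R) * cs ((v - n * S) / R) := by
  unfold D0
  have h1 : al R S (m - 1 - 1) u = 0 := al_zero hR hS hu (by omega) (by omega)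
  have h2 : al R S (n - 1 - 1) v = 0 := al_zero hR hS hv (by omega) (by omega)
  simp only [h1, h2, al_pred hR hS hu, al_pred hR hS hv]
  rw [zero_mul, mul_zero, sub_zero, sub_zero,
    max_eq_right (mul_nonneg (cs_nonneg _) (cs_nonneg _))]

theorem D0_NW (hR : 0 < R) (hS : 2 * R ≤ S) (hu : |u - m * S| ≤ S / 2)
    (hv : |v - n * S| ≤ S / 2) :
    D0 R S (m - 1, n) u v = max 0 (cs ((u - m * S) / R) * sn ((v - n * S) / R) -
      sn ((u - m * S) / R) * cs ((v - n * S) / R)) := by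
  unfold D0
  have h2 : al R S (n + 1) v = 0 := al_zero hR hS hv (by omega) (by omega)
  simp only [sub_add_cancel, h2, al_pred hR hS hu, al_self hR hS hu, al_pred hR hS hv,
    al_self hR hS hv]
  rw [mul_zero, sub_zero]

theorem D0_SE (hR : 0 < R) (hS : 2 * R ≤ S) (hu : |u - m * S| ≤ S / 2)
    (hv : |v - n * S| ≤ S / 2) :
    D0 R S (m, n - 1) u v = max 0 (sn ((u - m * S) / R) * cs ((v - n * S) / R) -
      cs ((u - m * S) / R) * sn ((v - n * S) / R)) := by
  unfold D0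
  have h1 : al R S (m + 1) u = 0 := al_zero hR hS hu (by omega) (by omega)
  simp only [sub_add_cancel, h1, al_pred hR hS hu, al_self hR hS hu, al_pred hR hS hv,
    al_self hR hS hv]
  rw [zero_mul, sub_zero]

theorem D0_le_of_zero {j : ℤ × ℤ} (h : al R S j.1 u * al R S j.2 v = 0) :
    D0 R S j u v = 0 := by
  unfold D0
  rw [h]
  apply max_eq_left
  have h1 := mul_nonneg (al_nonneg (R := R) (S := S) (j.1 + 1) u) (al_nonneg (R := R) (S := S) (j.2 - 1) v)
  have h2 := mul_nonneg (al_nonneg (R := R) (S := S) (j.1 - 1) u) (al_nonneg (R := R) (S := S) (j.2 + 1) v)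
  linarith

theorem D0_other (hR : 0 < R) (hS : 2 * R ≤ S) (hu : |u - m * S| ≤ S / 2)
    (hv : |v - n * S| ≤ S / 2) {j : ℤ × ℤ} (h1 : j ≠ (m, n)) (h2 : j ≠ (m - 1, n - 1))
    (h3 : j ≠ (m - 1, n)) (h4 : j ≠ (m, n - 1)) : D0 R S j u v = 0 := by
  apply D0_le_of_zero
  obtain ⟨i, l⟩ := j
  by_cases h5 : i ≠ m ∧ i ≠ m - 1
  · rw [al_zero hR hS hu h5.1 h5.2, zero_mul]
  · have h6 : l ≠ n ∧ l ≠ n - 1 := by
      constructor
      · rintro rfl
        apply h5
        exact ⟨fun h => h1 (by rw [h]), fun h => h3 (by rw [h])⟩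
      · rintro rfl
        apply h5
        exact ⟨fun h => h4 (by rw [h]), fun h => h2 (by rw [h])⟩
    show al R S i u * al R S l v = 0
    rw [al_zero hR hS hv h6.1 h6.2, mul_zero]

/-- the base pattern vanishes away from the square of the label -/
theorem D0_supp (hR : 0 < R) {j : ℤ × ℤ} (h : D0 R S j u v ≠ 0) :
    (j.1 * S - R < u ∧ u < (j.1 + 1) * S + R) ∧ (j.2 * S - R < v ∧ v < (j.2 + 1) * S + R) := by
  have h1 : al R S j.1 u * al R S j.2 v ≠ 0 := fun h2 => h (D0_le_of_zero h2)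
  have key : ∀ (i : ℤ) (t : ℝ), al R S i t ≠ 0 → i * S - R < t ∧ t < (i + 1) * S + R := by
    intro i t ht
    unfold al at ht
    constructor
    · by_contra hc
      apply ht
      rw [sn_of_le, zero_mul]
      rw [div_le_iff₀ hR]; linarith [not_lt.1 hc]
    · by_contra hc
      apply ht
      rw [cs_of_ge, mul_zero]
      rw [le_div_iff₀ hR]; linarith [not_lt.1 hc]
  exact ⟨key _ _ (left_ne_zero_of_mul h1), key _ _ (right_ne_zero_of_mul h1)⟩

end

end

end Pool.Agent.Roe
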