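import Mathlib
import Pool.Agent.Work.MP_80b727_an.Functions
import Pool.Agent.Work.MP_80b727_an.BasePattern

/-!
# The geometry: holes, partner blocks, displacement
-/

namespace Pool.Agent.Roe

noncomputable section

open Real

/-- Parameters of the construction. -/
structure Geo where
  R : ℤ
  r : ℤ
  T : ℤ
  hr : 0 ≤ r
  hrR : r < R
  hT : 0 ≤ T
  kk : ℤ × ℤ → ℤ
  ll : ℤ × ℤ → ℤ
  hk0 : ∀ c, 0 ≤ kk c
  hkl : ∀ c, kk c < ll c
  hlT : ∀ c, ll c ≤ T
  η : ℤ × ℤ → ℝ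
  η_lip : ∀ p q : ℤ × ℤ, |η p - η q| ≤ dist p q
  η_nonneg : ∀ p, 0 ≤ η p
  η_le : ∀ p, η p ≤ 7 * R * T
  η_eq : ∀ c p : ℤ × ℤ, |p.1 - c.1 * (3 * (7 * R * T) + 6 * R + 1)| ≤ 7 * R * T + 3 * R →
    |p.2 - c.2 * (3 * (7 * R * T) + 6 * R + 1)| ≤ 7 * R * T + 3 * R → η p = 7 * R * kk c

namespace Geo

variable (G : Geo)

/-- maximal displacement -/
def E : ℤ := 7 * G.R * G.T
/-- radius of the boxes around the nominal corners -/
def L : ℤ := G.E + 3 * G.R
/-- spacing of the grid -/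
def S : ℤ := 3 * G.E + 6 * G.R + 1

theorem R_pos : 0 < G.R := lt_of_le_of_lt G.hr G.hrR
theorem R_posR : (0 : ℝ) < G.R := by exact_mod_cast G.R_pos
theorem E_nonneg : 0 ≤ G.E := by
  have := G.R_pos; have := G.hT; unfold E; positivity
theorem L_pos : 0 < G.L := by have := G.E_nonneg; have := G.R_pos; unfold L; omega
theorem S_pos : 0 < G.S := by have := G.E_nonneg; have := G.R_pos; unfold S; omega
theorem two_R_le_S : (2 : ℝ) * G.R ≤ G.S := by
  have h1 := G.E_nonneg; have h2 := G.R_pos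
  have : 2 * G.R ≤ G.S := by unfold S; omega
  exact_mod_cast this

/-- the cell of a point -/
def cell (p : ℤ × ℤ) : ℤ × ℤ := ((p.1 + G.L) / G.S, (p.2 + G.L) / G.S)

/-- `x` is within `a` of `c` in the sup norm -/
def nr (a : ℤ) (x c : ℤ × ℤ) : Prop := |x.1 - c.1| ≤ a ∧ |x.2 - c.2| ≤ a

instance (a : ℤ) (x c : ℤ × ℤ) : Decidable (nr a x c) := by unfold nr; infer_instance

/-- nominal corner -/
def nom (c : ℤ × ℤ) : ℤ × ℤ := (c.1 * G.S, c.2 * G.S)

theorem cell_of_box {c p : ℤ × ℤ} (h : nr G.L p (G.nom c)) : G.cell p = c := by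
  obtain ⟨h1, h2⟩ := h
  have hS := G.S_pos
  have hE := G.E_nonneg
  have hR := G.R_pos
  have key : ∀ x m : ℤ, |x - m * G.S| ≤ G.L → (x + G.L) / G.S = m := by
    intro x m hx
    have h3 := (abs_le.1 hx).1
    have h4 := (abs_le.1 hx).2
    have h5 : 2 * G.L < G.S := by unfold S L; omega
    apply le_antisymm
    · have h6 : (x + G.L) / G.S < m + 1 := by
        apply Int.ediv_lt_of_lt_mul hS
        nlinarith
      omega
    · apply Int.le_ediv_of_mul_le hS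
      nlinarith
  unfold cell
  rw [key _ _ h1, key _ _ h2]

theorem η_box {c p : ℤ × ℤ} (h : nr G.L p (G.nom c)) : G.η p = 7 * G.R * G.kk c :=
  G.η_eq c p h.1 h.2

/-- the hole of the corner `c` -/
def h (c : ℤ × ℤ) : ℤ × ℤ := (c.1 * G.S + 7 * G.R * G.kk c, c.2 * G.S + 7 * G.R * G.kk c)

/-- the partner of the corner `c` -/
def w (c : ℤ × ℤ) : ℤ × ℤ := (c.1 * G.S + 7 * G.R * G.ll c, c.2 * G.S + 7 * G.R * G.ll c)

/-- the shift from the hole to the partner -/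
def sh (c : ℤ × ℤ) : ℤ := 7 * G.R * (G.ll c - G.kk c)

theorem w_eq (c : ℤ × ℤ) : G.w c = ((G.h c).1 + G.sh c, (G.h c).2 + G.sh c) := by
  unfold w h sh
  ext <;> simp <;> ring

theorem sh_ge (c : ℤ × ℤ) : 7 * G.R ≤ G.sh c := by
  have := G.hkl c; have := G.R_pos
  unfold sh
  nlinarith

theorem kk_le (c : ℤ × ℤ) : 7 * G.R * G.kk c ≤ G.E := by
  have := G.hkl c; have := G.hlT c; have := G.R_pos
  unfold E
  nlinarith

theorem ll_le (c : ℤ × ℤ) : 7 * G.R * G.ll c ≤ G.E := by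
  have := G.hlT c; have := G.R_pos
  unfold E
  nlinarith

theorem kk_nn (c : ℤ × ℤ) : 0 ≤ 7 * G.R * G.kk c := by
  have := G.hk0 c; have := G.R_pos
  positivity

theorem ll_nn (c : ℤ × ℤ) : 0 ≤ 7 * G.R * G.ll c := by
  have := G.hk0 c; have := G.hkl c; have := G.R_pos
  have : 0 ≤ G.ll c := by omega
  positivity

theorem sh_le (c : ℤ × ℤ) : G.sh c ≤ G.E := by
  have h1 := G.ll_le c; have h2 := G.kk_nn c
  unfold sh
  nlinarith

theorem box_of_h {c p : ℤ × ℤ} (hp : nr (3 * G.R) p (G.h c)) : nr G.L p (G.nom c) := by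
  obtain ⟨h1, h2⟩ := hp
  have h3 := G.kk_le c
  have h4 := G.kk_nn c
  unfold h at h1 h2
  rw [abs_le] at h1 h2
  unfold nr nom L
  simp only at *
  rw [abs_le, abs_le]
  have hR := G.R_pos
  refine ⟨⟨by linarith [h1.1], by linarith [h1.2]⟩, ⟨by linarith [h2.1], by linarith [h2.2]⟩⟩

theorem box_of_w {c p : ℤ × ℤ} (hp : nr (3 * G.R) p (G.w c)) : nr G.L p (G.nom c) := by
  obtain ⟨h1, h2⟩ := hp
  have h3 := G.ll_le c
  have h4 := G.ll_nn c
  unfold w at h1 h2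
  rw [abs_le] at h1 h2
  unfold nr nom L
  simp only at *
  rw [abs_le, abs_le]
  have hR := G.R_pos
  refine ⟨⟨by linarith [h1.1], by linarith [h1.2]⟩, ⟨by linarith [h2.1], by linarith [h2.2]⟩⟩

theorem nr_mono {a b : ℤ} (hab : a ≤ b) {x c : ℤ × ℤ} (hx : nr a x c) : nr b x c :=
  ⟨hx.1.trans hab, hx.2.trans hab⟩

theorem cell_h {c p : ℤ × ℤ} (hp : nr (3 * G.R) p (G.h c)) : G.cell p = c :=
  G.cell_of_box (G.box_of_h hp)

theorem cell_w {c p : ℤ × ℤ} (hp : nr (3 * G.R) p (G.w c)) : G.cell p = c :=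
  G.cell_of_box (G.box_of_w hp)

/-- hole and partner are far apart -/
theorem not_both {a b : ℤ} (hab : a + b < 7 * G.R) {c p : ℤ × ℤ} (h1 : nr a p (G.h c))
    (h2 : nr b p (G.w c)) : False := by
  have h3 := G.sh_ge c
  rw [w_eq] at h2
  have h4 := (abs_le.1 h1.1).2
  have h5 := (abs_le.1 h2.1).1
  simp only at h4 h5
  omega

/-- `p` is in the hole block -/
def inH (p : ℤ × ℤ) : Prop := nr (2 * G.R) p (G.h (G.cell p))

/-- `p` is in the partner block -/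
def inW (p : ℤ × ℤ) : Prop := nr (2 * G.R) p (G.w (G.cell p))

instance (p : ℤ × ℤ) : Decidable (G.inH p) := by unfold inH; infer_instance
instance (p : ℤ × ℤ) : Decidable (G.inW p) := by unfold inW; infer_instance

theorem inH_of {c p : ℤ × ℤ} (hp : nr (2 * G.R) p (G.h c)) : G.inH p := by
  have h1 := G.cell_h (nr_mono (by have := G.R_pos; omega) hp)
  unfold inH
  rwa [h1]

theorem inW_of {c p : ℤ × ℤ} (hp : nr (2 * G.R) p (G.w c)) : G.inW p := by
  have h1 := G.cell_w (nr_mono (by have := G.R_pos; omega) hp)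
  unfold inW
  rwa [h1]

theorem not_inW_of_inH {p : ℤ × ℤ} (h1 : G.inH p) : ¬ G.inW p := fun h2 =>
  G.not_both (by have := G.R_pos; omega) h1 h2

/-- the swap -/
def σ (p : ℤ × ℤ) : ℤ × ℤ :=
  if G.inH p then (p.1 + G.sh (G.cell p), p.2 + G.sh (G.cell p))
  else if G.inW p then (p.1 - G.sh (G.cell p), p.2 - G.sh (G.cell p))
  else p

/-- `p ↦ p + (s, s)` -/
def tr (s : ℤ) (p : ℤ × ℤ) : ℤ × ℤ := (p.1 + s, p.2 + s)

theorem nr_tr_h {a : ℤ} {c p : ℤ × ℤ} : nr a (tr (G.sh c) p) (G.w c) ↔ nr a p (G.h c) := by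
  rw [w_eq]
  unfold nr tr
  simp only [add_sub_add_right_eq_sub]

theorem σ_h {c p : ℤ × ℤ} (hp : nr (2 * G.R) p (G.h c)) : G.σ p = tr (G.sh c) p := by
  have h1 := G.cell_h (nr_mono (by have := G.R_pos; omega) hp)
  unfold σ
  rw [if_pos (G.inH_of hp), h1]
  rfl

theorem σ_w {c p : ℤ × ℤ} (hp : nr (2 * G.R) p (G.w c)) : G.σ p = tr (-G.sh c) p := by
  have h1 := G.cell_w (nr_mono (by have := G.R_pos; omega) hp)
  unfold σ
  have h2 : ¬ G.inH p := fun h => G.not_inW_of_inH h (G.inW_of hp)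
  rw [if_neg h2, if_pos (G.inW_of hp), h1]
  rfl

theorem σ_other {p : ℤ × ℤ} (h1 : ¬ G.inH p) (h2 : ¬ G.inW p) : G.σ p = p := by
  unfold σ; rw [if_neg h1, if_neg h2]

theorem tr_tr (s t : ℤ) (p : ℤ × ℤ) : tr s (tr t p) = tr (s + t) p := by
  unfold tr; ext <;> simp <;> ring

theorem tr_zero (p : ℤ × ℤ) : tr 0 p = p := by unfold tr; simp

theorem nr_tr_w {a : ℤ} {c p : ℤ × ℤ} : nr a (tr (-G.sh c) p) (G.h c) ↔ nr a p (G.w c) := by
  rw [← nr_tr_h, tr_tr, add_neg_cancel, tr_zero]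

theorem σσ (p : ℤ × ℤ) : G.σ (G.σ p) = p := by
  by_cases h1 : G.inH p
  · have h2 : nr (2 * G.R) p (G.h (G.cell p)) := h1
    rw [G.σ_h h2, G.σ_w (c := G.cell p) (G.nr_tr_h.2 h2), tr_tr, neg_add_cancel, tr_zero]
  · by_cases h3 : G.inW p
    · have h2 : nr (2 * G.R) p (G.w (G.cell p)) := h3
      rw [G.σ_w h2, G.σ_h (c := G.cell p) (G.nr_tr_w.2 h2), tr_tr, add_neg_cancel, tr_zero]
    · rw [G.σ_other h1 h3, G.σ_other h1 h3]

/-- local coordinates -/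
def lc (a c : ℤ) : ℝ := ((a - c : ℤ) : ℝ) / G.R

theorem lc_sub_le (a b c : ℤ) (s : ℤ) (h : |a - b| ≤ s) :
    |G.lc a c - G.lc b c| ≤ s / G.R := by
  unfold lc
  have h1 : ((a - c : ℤ) : ℝ) / G.R - ((b - c : ℤ) : ℝ) / G.R = ((a - b : ℤ) : ℝ) / G.R := by
    push_cast; ring
  rw [h1, abs_div, abs_of_pos G.R_posR]
  have h2 : |((a - b : ℤ) : ℝ)| ≤ s := by
    rw [← Int.cast_abs]; exact_mod_cast h
  exact div_le_div_of_nonneg_right h2 G.R_posR.le

theorem abs_lc_le_iff (a c s : ℤ) : |G.lc a c| ≤ s ↔ |a - c| ≤ s * G.R := by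
  unfold lc
  rw [abs_div, abs_of_pos G.R_posR, div_le_iff₀ G.R_posR, ← Int.cast_abs]
  constructor
  · intro h; exact_mod_cast h
  · intro h; exact_mod_cast h

/-- amplitudes on the diagonal near the partner block -/
def D2 (j c : ℤ × ℤ) (U V : ℝ) : ℝ :=
  if j = c then D2A U V else if j = (c.1 - 1, c.2 - 1) then D2B U V
  else if j = (c.1 - 1, c.2) then D2C U V else 0

/-- off-diagonal amplitudes -/
def O2 (j c : ℤ × ℤ) (U V : ℝ) : ℝ :=
  if j = c then gg U V else if j = (c.1 - 1, c.2 - 1) then - gg U V else 0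

/-- the coordinate `u` -/
def u (p : ℤ × ℤ) : ℝ := p.1 - G.η p

/-- the coordinate `v` -/
def v (p : ℤ × ℤ) : ℝ := p.2 - G.η p

/-- diagonal part -/
def d (j p : ℤ × ℤ) : ℝ :=
  if G.inW p then D2 j (G.cell p) (G.lc p.1 (G.w (G.cell p)).1) (G.lc p.2 (G.w (G.cell p)).2)
  else D0 G.R G.S j (G.u p) (G.v p)

/-- off-diagonal part -/
def o (j p : ℤ × ℤ) : ℝ :=
  if G.inW p then O2 j (G.cell p) (G.lc p.1 (G.w (G.cell p)).1) (G.lc p.2 (G.w (G.cell p)).2)
  else if G.inH p then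
    O2 j (G.cell p) (G.lc p.1 (G.h (G.cell p)).1) (G.lc p.2 (G.h (G.cell p)).2)
  else 0

theorem O2_outer {j c : ℤ × ℤ} {U V : ℝ} (h : 1 ≤ |U| ∨ 1 ≤ |V|) : O2 j c U V = 0 := by
  unfold O2
  rw [gg_outer h]
  simp

theorem D2_far' {j c : ℤ × ℤ} {U V : ℝ} (h : 2 ≤ |U| ∨ 2 ≤ |V|) :
    D2 j c U V = if j = c then 1 else 0 := by
  unfold D2
  obtain ⟨h1, h2, h3⟩ := D2_far h
  rw [h1, h2, h3]
  simp

theorem outer_of_not_nr {s : ℤ} {p c : ℤ × ℤ} (hp : ¬ nr (s * G.R) p c) :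
    (s : ℝ) ≤ |G.lc p.1 c.1| ∨ (s : ℝ) ≤ |G.lc p.2 c.2| := by
  by_contra hc
  push Not at hc
  apply hp
  exact ⟨(G.abs_lc_le_iff _ _ _).1 hc.1.le, (G.abs_lc_le_iff _ _ _).1 hc.2.le⟩

theorem o_near_w {j c p : ℤ × ℤ} (hp : nr (3 * G.R) p (G.w c)) :
    G.o j p = O2 j c (G.lc p.1 (G.w c).1) (G.lc p.2 (G.w c).2) := by
  have h1 := G.cell_w hp
  have hR := G.R_pos
  unfold o
  by_cases h2 : G.inW p
  · rw [if_pos h2, h1]
  · have h3 : ¬ G.inH p := by
      intro h4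
      unfold inH at h4
      rw [h1] at h4
      exact G.not_both (by omega) h4 hp
    rw [if_neg h2, if_neg h3]
    unfold inW at h2
    rw [h1] at h2
    rw [O2_outer]
    have h5 := G.outer_of_not_nr h2
    push_cast at h5
    exact h5.imp (fun h => by linarith) (fun h => by linarith)

theorem o_near_h {j c p : ℤ × ℤ} (hp : nr (3 * G.R) p (G.h c)) :
    G.o j p = O2 j c (G.lc p.1 (G.h c).1) (G.lc p.2 (G.h c).2) := by
  have h1 := G.cell_h hp
  have hR := G.R_pos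
  unfold o
  have h2 : ¬ G.inW p := by
    intro h4
    unfold inW at h4
    rw [h1] at h4
    exact G.not_both (by omega) hp h4
  rw [if_neg h2]
  by_cases h3 : G.inH p
  · rw [if_pos h3, h1]
  · rw [if_neg h3]
    unfold inH at h3
    rw [h1] at h3
    rw [O2_outer]
    have h5 := G.outer_of_not_nr h3
    push_cast at h5
    exact h5.imp (fun h => by linarith) (fun h => by linarith)

end Geo

end

end Pool.Agent.Roe
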