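import Mathlib
import Pool.Agent.Work.MP_80b727_an.Geo

/-!
# The state at a point
-/

namespace Pool.Agent.Roe

noncomputable section

open Real

namespace Geo

variable (G : Geo)

/-- the base coordinates near the hole block agree with the local coordinates of the hole -/
theorem u_box {c p : ℤ × ℤ} (hp : nr G.L p (G.nom c)) :
    (G.u p - c.1 * G.S) / G.R = G.lc p.1 (G.h c).1 ∧
    (G.v p - c.2 * G.S) / G.R = G.lc p.2 (G.h c).2 := by
  have h1 := G.η_box hp
  unfold u v lc h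
  rw [h1]
  constructor <;> (congr 1; push_cast; ring)

/-- the coordinates of a point of the box -/
theorem u_box_le {c p : ℤ × ℤ} (hp : nr G.L p (G.nom c))
    (h1 : |p.1 - (G.h c).1| ≤ G.E + 3 * G.R) (h2 : |p.2 - (G.h c).2| ≤ G.E + 3 * G.R) :
    |G.u p - c.1 * G.S| ≤ (G.S : ℝ) / 2 ∧ |G.v p - c.2 * G.S| ≤ (G.S : ℝ) / 2 := by
  have hη := G.η_box hp
  have hE := G.E_nonneg
  have hR := G.R_pos
  have hS : 2 * (G.E + 3 * G.R) ≤ G.S := by unfold S; omega
  have hS' : 2 * ((G.E : ℝ) + 3 * G.R) ≤ G.S := by exact_mod_cast hS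
  have e1 : G.u p - c.1 * G.S = ((p.1 - (G.h c).1 : ℤ) : ℝ) := by
    unfold u h; rw [hη]; push_cast; ring
  have e2 : G.v p - c.2 * G.S = ((p.2 - (G.h c).2 : ℤ) : ℝ) := by
    unfold v h; rw [hη]; push_cast; ring
  rw [e1, e2, ← Int.cast_abs, ← Int.cast_abs]
  have h1' : ((|p.1 - (G.h c).1| : ℤ) : ℝ) ≤ G.E + 3 * G.R := by exact_mod_cast h1
  have h2' : ((|p.2 - (G.h c).2| : ℤ) : ℝ) ≤ G.E + 3 * G.R := by exact_mod_cast h2
  constructor <;> linarith

theorem d_near_w {j c p : ℤ × ℤ} (hp : nr (3 * G.R) p (G.w c)) :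
    G.d j p = D2 j c (G.lc p.1 (G.w c).1) (G.lc p.2 (G.w c).2) := by
  have h1 := G.cell_w hp
  have hR := G.R_pos
  have hbox := G.box_of_w hp
  unfold d
  by_cases h2 : G.inW p
  · rw [if_pos h2, h1]
  · rw [if_neg h2]
    have h3 : ¬ nr (2 * G.R) p (G.w c) := by
      unfold inW at h2; rwa [h1] at h2
    have h4 := G.outer_of_not_nr h3
    push_cast at h4
    rw [D2_far' h4]
    -- local coordinates with respect to the hole
    have h5 := G.sh_ge c
    have h6 := G.sh_le c
    rw [w_eq] at hp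
    obtain ⟨hp1, hp2⟩ := hp
    simp only at hp1 hp2
    rw [abs_le] at hp1 hp2
    have a1 : |p.1 - (G.h c).1| ≤ G.E + 3 * G.R := by rw [abs_le]; constructor <;> omega
    have a2 : |p.2 - (G.h c).2| ≤ G.E + 3 * G.R := by rw [abs_le]; constructor <;> omega
    obtain ⟨hu, hv⟩ := G.u_box_le hbox (h1 := a1) (h2 := a2)
    obtain ⟨e1, e2⟩ := G.u_box hbox
    have g1 : 1 ≤ G.lc p.1 (G.h c).1 := by
      unfold lc
      rw [le_div_iff₀ G.R_posR, one_mul]
      exact_mod_cast (by omega : G.R ≤ p.1 - (G.h c).1)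
    have g2 : 1 ≤ G.lc p.2 (G.h c).2 := by
      unfold lc
      rw [le_div_iff₀ G.R_posR, one_mul]
      exact_mod_cast (by omega : G.R ≤ p.2 - (G.h c).2)
    have hRR := G.R_posR
    have hRS := G.two_R_le_S
    obtain ⟨m, n⟩ := c
    by_cases j1 : j = (m, n)
    · rw [if_pos j1, j1, D0_NE hRR hRS hu hv, e1, e2, sn_of_ge g1, sn_of_ge g2, one_mul]
    · rw [if_neg j1]
      by_cases j2 : j = (m - 1, n - 1)
      · rw [j2, D0_SW hRR hRS hu hv, e1, e2, cs_of_ge g1, zero_mul]
      · by_cases j3 : j = (m - 1, n)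
        · rw [j3, D0_NW hRR hRS hu hv, e1, e2, cs_of_ge g1, cs_of_ge g2]; simp
        · by_cases j4 : j = (m, n - 1)
          · rw [j4, D0_SE hRR hRS hu hv, e1, e2, cs_of_ge g1, cs_of_ge g2]; simp
          · exact D0_other hRR hRS hu hv j1 j2 j3 j4

/-- index of the nearest grid line -/
def rd (t : ℝ) : ℤ := ⌊t / G.S + 1 / 2⌋

theorem rd_spec (t : ℝ) : |t - G.rd t * G.S| ≤ (G.S : ℝ) / 2 := by
  have hS : (0 : ℝ) < G.S := by exact_mod_cast G.S_pos
  have h1 := Int.floor_le (t / G.S + 1 / 2)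
  have h2 := Int.lt_floor_add_one (t / G.S + 1 / 2)
  change ((G.rd t : ℤ) : ℝ) ≤ _ at h1
  change _ < ((G.rd t : ℤ) : ℝ) + 1 at h2
  have h3 : t / G.S * G.S = t := by field_simp
  rw [abs_le]
  constructor
  · nlinarith
  · nlinarith

theorem rd_unique {t : ℝ} {m : ℤ} (h : |t - m * G.S| < (G.S : ℝ) / 2) : G.rd t = m := by
  have hS : (0 : ℝ) < G.S := by exact_mod_cast G.S_pos
  unfold rd
  rw [Int.floor_eq_iff]
  rw [abs_lt] at h
  have h3 : t / G.S * G.S = t := by field_simp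
  constructor
  · by_contra hc
    push Not at hc
    nlinarith [h.1, h.2]
  · by_contra hc
    push Not at hc
    nlinarith [h.1, h.2]

/-- reference corner of a point -/
def M (p : ℤ × ℤ) : ℤ × ℤ := if G.inW p then G.cell p else (G.rd (G.u p), G.rd (G.v p))

/-- first local coordinate -/
def U (p : ℤ × ℤ) : ℝ :=
  if G.inW p then G.lc p.1 (G.w (G.cell p)).1 else (G.u p - (G.rd (G.u p)) * G.S) / G.R

/-- second local coordinate -/
def V (p : ℤ × ℤ) : ℝ :=
  if G.inW p then G.lc p.2 (G.w (G.cell p)).2 else (G.v p - (G.rd (G.v p)) * G.S) / G.R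

/-- amplitude of NE -/
def dA (p : ℤ × ℤ) : ℝ :=
  if G.inW p then D2A (G.U p) (G.V p) else sn (G.U p) * sn (G.V p)

/-- amplitude of SW -/
def dB (p : ℤ × ℤ) : ℝ :=
  if G.inW p then D2B (G.U p) (G.V p) else cs (G.U p) * cs (G.V p)

/-- amplitude of NW -/
def dC (p : ℤ × ℤ) : ℝ :=
  if G.inW p then D2C (G.U p) (G.V p)
  else max 0 (cs (G.U p) * sn (G.V p) - sn (G.U p) * cs (G.V p))

/-- amplitude of SE -/
def dD (p : ℤ × ℤ) : ℝ :=
  if G.inW p then 0 else max 0 (sn (G.U p) * cs (G.V p) - cs (G.U p) * sn (G.V p))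

theorem d_eq (j p : ℤ × ℤ) :
    G.d j p = if j = G.M p then G.dA p else if j = ((G.M p).1 - 1, (G.M p).2 - 1) then G.dB p
      else if j = ((G.M p).1 - 1, (G.M p).2) then G.dC p
      else if j = ((G.M p).1, (G.M p).2 - 1) then G.dD p else 0 := by
  unfold d M dA dB dC dD U V
  by_cases hp : G.inW p
  · simp only [if_pos hp]
    unfold D2
    simp only [ite_self]
  · simp only [if_neg hp]
    have hRR := G.R_posR
    have hRS := G.two_R_le_S
    have hu := G.rd_spec (G.u p)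
    have hv := G.rd_spec (G.v p)
    by_cases j1 : j = (G.rd (G.u p), G.rd (G.v p))
    · rw [if_pos j1, j1, D0_NE hRR hRS hu hv]
    · rw [if_neg j1]
      by_cases j2 : j = (G.rd (G.u p) - 1, G.rd (G.v p) - 1)
      · rw [if_pos j2, j2, D0_SW hRR hRS hu hv]
      · rw [if_neg j2]
        by_cases j3 : j = (G.rd (G.u p) - 1, G.rd (G.v p))
        · rw [if_pos j3, j3, D0_NW hRR hRS hu hv]
        · rw [if_neg j3]
          by_cases j4 : j = (G.rd (G.u p), G.rd (G.v p) - 1)
          · rw [if_pos j4, j4, D0_SE hRR hRS hu hv]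
          · rw [if_neg j4]
            exact D0_other hRR hRS hu hv j1 j2 j3 j4

/-- if both coordinates are in transition, we are in the hole -/
theorem loc_hole {p : ℤ × ℤ} {c : ℤ × ℤ} (h1 : |(G.u p - c.1 * G.S) / G.R| ≤ 1)
    (h2 : |(G.v p - c.2 * G.S) / G.R| ≤ 1) : nr G.L p (G.nom c) := by
  have hRR := G.R_posR
  rw [abs_div, abs_of_pos hRR, div_le_iff₀ hRR, one_mul, abs_le] at h1 h2
  have h3 := G.η_nonneg p
  have h4 : G.η p ≤ G.E := by
    have := G.η_le p
    unfold E; push_cast; exact this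
  have h5 : (G.L : ℝ) = G.E + 3 * G.R := by unfold L; push_cast; ring
  unfold u at h1
  unfold v at h2
  constructor
  · have : ((|p.1 - (G.nom c).1| : ℤ) : ℝ) ≤ G.L := by
      rw [Int.cast_abs, abs_le, h5]
      unfold nom
      push_cast
      constructor <;> linarith [h1.1, h1.2]
    exact_mod_cast this
  · have : ((|p.2 - (G.nom c).2| : ℤ) : ℝ) ≤ G.L := by
      rw [Int.cast_abs, abs_le, h5]
      unfold nom
      push_cast
      constructor <;> linarith [h2.1, h2.2]
    exact_mod_cast this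

theorem inH_state {c p : ℤ × ℤ} (hp : nr (2 * G.R) p (G.h c)) :
    G.M p = c ∧ G.U p = G.lc p.1 (G.h c).1 ∧ G.V p = G.lc p.2 (G.h c).2 := by
  have hR := G.R_pos
  have hE := G.E_nonneg
  have hbox := G.box_of_h (nr_mono (by omega) hp)
  have hH := G.inH_of hp
  have hW := G.not_inW_of_inH hH
  have hη := G.η_box hbox
  have e1 : G.u p - c.1 * G.S = ((p.1 - (G.h c).1 : ℤ) : ℝ) := by
    unfold u h; rw [hη]; push_cast; ring
  have e2 : G.v p - c.2 * G.S = ((p.2 - (G.h c).2 : ℤ) : ℝ) := by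
    unfold v h; rw [hη]; push_cast; ring
  have hS : 4 * G.R < G.S := by unfold S; omega
  have hS' : 4 * (G.R : ℝ) < G.S := by exact_mod_cast hS
  have r1 : G.rd (G.u p) = c.1 := by
    apply G.rd_unique
    rw [e1, ← Int.cast_abs]
    have : ((|p.1 - (G.h c).1| : ℤ) : ℝ) ≤ 2 * G.R := by exact_mod_cast hp.1
    linarith
  have r2 : G.rd (G.v p) = c.2 := by
    apply G.rd_unique
    rw [e2, ← Int.cast_abs]
    have : ((|p.2 - (G.h c).2| : ℤ) : ℝ) ≤ 2 * G.R := by exact_mod_cast hp.2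
    linarith
  obtain ⟨b1, b2⟩ := G.u_box hbox
  refine ⟨?_, ?_, ?_⟩
  · unfold M; rw [if_neg hW, r1, r2]
  · unfold U; rw [if_neg hW, r1, b1]
  · unfold V; rw [if_neg hW, r2, b2]

theorem inW_state {c p : ℤ × ℤ} (hp : nr (2 * G.R) p (G.w c)) :
    G.M p = c ∧ G.U p = G.lc p.1 (G.w c).1 ∧ G.V p = G.lc p.2 (G.w c).2 := by
  have hR := G.R_pos
  have hc := G.cell_w (nr_mono (by omega) hp)
  have hW := G.inW_of hp
  unfold M U V
  rw [if_pos hW, if_pos hW, if_pos hW, hc]
  exact ⟨rfl, rfl, rfl⟩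

theorem o_eq (j p : ℤ × ℤ) :
    G.o j p = if j = G.M p then gg (G.U p) (G.V p)
      else if j = ((G.M p).1 - 1, (G.M p).2 - 1) then - gg (G.U p) (G.V p) else 0 := by
  by_cases hW : G.inW p
  · have h1 : nr (2 * G.R) p (G.w (G.cell p)) := hW
    obtain ⟨a1, a2, a3⟩ := G.inW_state h1
    rw [a1, a2, a3]
    unfold o
    rw [if_pos hW]
    rfl
  · by_cases hH : G.inH p
    · have h1 : nr (2 * G.R) p (G.h (G.cell p)) := hH
      obtain ⟨a1, a2, a3⟩ := G.inH_state h1
      rw [a1, a2, a3]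
      unfold o
      rw [if_neg hW, if_pos hH]
      rfl
    · unfold o
      rw [if_neg hW, if_neg hH]
      have h0 : gg (G.U p) (G.V p) = 0 := by
        by_contra hc
        have h3 : ¬ (1 ≤ |G.U p| ∨ 1 ≤ |G.V p|) := fun h => hc (gg_outer h)
        push Not at h3
        apply hH
        have h4 : |(G.u p - (G.rd (G.u p)) * G.S) / G.R| ≤ 1 := by
          have := h3.1.le; unfold U at this; rwa [if_neg hW] at this
        have h5 : |(G.v p - (G.rd (G.v p)) * G.S) / G.R| ≤ 1 := by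
          have := h3.2.le; unfold V at this; rwa [if_neg hW] at this
        have h6 := G.loc_hole (c := (G.rd (G.u p), G.rd (G.v p))) h4 h5
        obtain ⟨b1, b2⟩ := G.u_box h6
        rw [b1] at h4
        rw [b2] at h5
        have hR := G.R_pos
        apply G.inH_of (c := (G.rd (G.u p), G.rd (G.v p)))
        constructor
        · have := (G.abs_lc_le_iff _ _ 1).1 (by exact_mod_cast h4)
          omega
        · have := (G.abs_lc_le_iff _ _ 1).1 (by exact_mod_cast h5)
          omega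
      rw [h0]
      simp

/-- nonzero off-diagonal part only inside the inner squares -/
theorem inner_of_o_ne {j p : ℤ × ℤ} (h : G.o j p ≠ 0) :
    ∃ c, nr G.R p (G.h c) ∨ nr G.R p (G.w c) := by
  refine ⟨G.cell p, ?_⟩
  by_contra hc
  push Not at hc
  apply h
  unfold o
  by_cases hW : G.inW p
  · rw [if_pos hW]
    apply O2_outer
    have h1 := G.outer_of_not_nr (s := 1) (by rw [one_mul]; exact hc.2)
    exact_mod_cast h1
  · rw [if_neg hW]
    by_cases hH : G.inH p
    · rw [if_pos hH]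
      apply O2_outer
      have h1 := G.outer_of_not_nr (s := 1) (by rw [one_mul]; exact hc.1)
      exact_mod_cast h1
    · rw [if_neg hH]

theorem lc_tr (s a b : ℤ) : G.lc (a + s) (b + s) = G.lc a b := by
  unfold lc; rw [add_sub_add_right_eq_sub]

/-- the off-diagonal part is invariant under the swap -/
theorem o_σ (j p : ℤ × ℤ) : G.o j (G.σ p) = G.o j p := by
  have hR := G.R_pos
  by_cases hH : G.inH p
  · have h1 : nr (2 * G.R) p (G.h (G.cell p)) := hH
    have h2 := G.nr_tr_h.2 h1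
    rw [G.σ_h h1, G.o_near_w (nr_mono (by omega) h2), G.o_near_h (nr_mono (by omega) h1)]
    rw [w_eq]
    unfold tr
    simp only [lc_tr]
  · by_cases hW : G.inW p
    · have h1 : nr (2 * G.R) p (G.w (G.cell p)) := hW
      have h2 := G.nr_tr_w.2 h1
      rw [G.σ_w h1, G.o_near_h (nr_mono (by omega) h2), G.o_near_w (nr_mono (by omega) h1)]
      have e1 : (G.h (G.cell p)).1 = (G.w (G.cell p)).1 + -G.sh (G.cell p) := by
        rw [w_eq]; simp
      have e2 : (G.h (G.cell p)).2 = (G.w (G.cell p)).2 + -G.sh (G.cell p) := by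
        rw [w_eq]; simp
      rw [e1, e2]
      unfold tr
      simp only [lc_tr]
    · rw [G.σ_other hH hW]

theorem o_fix (j p : ℤ × ℤ) (h : G.σ p = p) : G.o j p = 0 := by
  have hR := G.R_pos
  by_cases hH : G.inH p
  · exfalso
    have h1 : nr (2 * G.R) p (G.h (G.cell p)) := hH
    rw [G.σ_h h1] at h
    have h2 := congrArg Prod.fst h
    simp only [tr] at h2
    have := G.sh_ge (G.cell p)
    omega
  · by_cases hW : G.inW p
    · exfalso
      have h1 : nr (2 * G.R) p (G.w (G.cell p)) := hW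
      rw [G.σ_w h1] at h
      have h2 := congrArg Prod.fst h
      simp only [tr] at h2
      have := G.sh_ge (G.cell p)
      omega
    · unfold o; rw [if_neg hW, if_neg hH]

/-- swapping exchanges the amplitudes of NE and SW where the off-diagonal part is nonzero -/
theorem swap {p : ℤ × ℤ} (h : gg (G.U p) (G.V p) ≠ 0) :
    G.M (G.σ p) = G.M p ∧ G.dA (G.σ p) = G.dB p ∧ G.dB (G.σ p) = G.dA p := by
  have hR := G.R_pos
  have hj : G.o (G.M p) p ≠ 0 := by rw [o_eq, if_pos rfl]; exact h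
  have hin : ¬ (1 ≤ |G.U p| ∨ 1 ≤ |G.V p|) := fun h' => h (gg_outer h')
  push Not at hin
  obtain ⟨c, hc | hc⟩ := G.inner_of_o_ne hj
  · have h1 : nr (2 * G.R) p (G.h c) := nr_mono (by omega) hc
    have h2 := G.nr_tr_h.2 h1
    have hW : ¬ G.inW p := G.not_inW_of_inH (G.inH_of h1)
    have hW' : G.inW (G.σ p) := by rw [G.σ_h h1]; exact G.inW_of h2
    obtain ⟨a1, a2, a3⟩ := G.inH_state h1
    have b := G.inW_state h2
    rw [← G.σ_h h1] at b
    obtain ⟨b1, b2, b3⟩ := b
    have eU : G.U (G.σ p) = G.U p := by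
      rw [b2, a2, G.σ_h h1, w_eq]; unfold tr; simp only [lc_tr]
    have eV : G.V (G.σ p) = G.V p := by
      rw [b3, a3, G.σ_h h1, w_eq]; unfold tr; simp only [lc_tr]
    refine ⟨by rw [b1, a1], ?_, ?_⟩
    · unfold dA dB
      rw [if_pos hW', if_neg hW, eU, eV, D2A_inner hin.1.le hin.2.le]
    · unfold dA dB
      rw [if_pos hW', if_neg hW, eU, eV, D2B_inner hin.1.le hin.2.le]
  · have h1 : nr (2 * G.R) p (G.w c) := nr_mono (by omega) hc
    have h2 := G.nr_tr_w.2 h1
    have hW : G.inW p := G.inW_of h1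
    have hW' : ¬ G.inW (G.σ p) := by
      rw [G.σ_w h1]; exact G.not_inW_of_inH (G.inH_of h2)
    obtain ⟨a1, a2, a3⟩ := G.inW_state h1
    have b := G.inH_state h2
    rw [← G.σ_w h1] at b
    obtain ⟨b1, b2, b3⟩ := b
    have e1 : (G.h c).1 = (G.w c).1 + -G.sh c := by rw [w_eq]; simp
    have e2 : (G.h c).2 = (G.w c).2 + -G.sh c := by rw [w_eq]; simp
    have eU : G.U (G.σ p) = G.U p := by
      rw [b2, a2, G.σ_w h1, e1]; unfold tr; simp only [lc_tr]
    have eV : G.V (G.σ p) = G.V p := by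
      rw [b3, a3, G.σ_w h1, e2]; unfold tr; simp only [lc_tr]
    refine ⟨by rw [b1, a1], ?_, ?_⟩
    · unfold dA dB
      rw [if_pos hW, if_neg hW', eU, eV, D2B_inner hin.1.le hin.2.le]
    · unfold dA dB
      rw [if_pos hW, if_neg hW', eU, eV, D2A_inner hin.1.le hin.2.le]

theorem sum_state (p : ℤ × ℤ) :
    G.dA p ^ 2 + G.dB p ^ 2 + G.dC p ^ 2 + G.dD p ^ 2 + 2 * gg (G.U p) (G.V p) ^ 2 = 1 := by
  unfold dA dB dC dD
  by_cases hW : G.inW p
  · simp only [if_pos hW]
    have := sum_partner (G.U p) (G.V p)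
    linarith
  · simp only [if_neg hW]
    exact sum_hole (G.U p) (G.V p)

theorem orth_AB (p : ℤ × ℤ) : G.dA p * G.dB p - gg (G.U p) (G.V p) * gg (G.U p) (G.V p) = 0 := by
  unfold dA dB
  by_cases hW : G.inW p
  · simp only [if_pos hW]; exact orth_partner _ _
  · simp only [if_neg hW]; exact orth_hole _ _

theorem orth_CD (p : ℤ × ℤ) : G.dC p * G.dD p = 0 := by
  unfold dC dD
  by_cases hW : G.inW p
  · simp only [if_pos hW]; ring
  · simp only [if_neg hW]; exact orth_hole' _ _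

end Geo

end

end Pool.Agent.Roe
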