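import Mathlib
import Pool.Agent.Work.MP_80b727_an.State

/-!
# Slow variation and commutator entries
-/

namespace Pool.Agent.Roe

noncomputable section

open Real

namespace Geo

variable (G : Geo)

theorem nr_trans {a b : ℤ} {x y z : ℤ × ℤ} (h1 : nr a x y) (h2 : nr b y z) : nr (a + b) x z := by
  obtain ⟨h1a, h1b⟩ := h1
  obtain ⟨h2a, h2b⟩ := h2
  constructor
  · rw [abs_le] at *; constructor <;> omega
  · rw [abs_le] at *; constructor <;> omega

theorem nr_symm {a : ℤ} {x y : ℤ × ℤ} (h : nr a x y) : nr a y x :=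
  ⟨by rw [abs_sub_comm]; exact h.1, by rw [abs_sub_comm]; exact h.2⟩

theorem D2_lip (j c : ℤ × ℤ) (U V U' V' : ℝ) :
    |D2 j c U V - D2 j c U' V'| ≤ 7 * (|U - U'| + |V - V'|) := by
  unfold D2
  split_ifs
  · exact D2A_lip _ _ _ _
  · exact D2B_lip _ _ _ _
  · exact D2C_lip _ _ _ _
  · simp; positivity

theorem O2_lip (j c : ℤ × ℤ) (U V U' V' : ℝ) :
    |O2 j c U V - O2 j c U' V'| ≤ √(2 * |U - U'| + 2 * |V - V'|) := by
  unfold O2
  split_ifs
  · exact gg_lip _ _ _ _
  · have : -gg U V - -gg U' V' = -(gg U V - gg U' V') := by ring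
    rw [this, abs_neg]; exact gg_lip _ _ _ _
  · simp

theorem dist_le_of_nr {a : ℤ} (_ha : 0 ≤ a) {p q : ℤ × ℤ} (h : nr a p q) : dist p q ≤ a := by
  rw [Prod.dist_eq, Int.dist_eq, Int.dist_eq]
  refine max_le ?_ ?_
  · rw [← Int.cast_sub, ← Int.cast_abs]; exact_mod_cast h.1
  · rw [← Int.cast_sub, ← Int.cast_abs]; exact_mod_cast h.2

theorem d_slow (j : ℤ × ℤ) {p q : ℤ × ℤ} (h : nr G.r p q) :
    |G.d j p - G.d j q| ≤ 24 * (G.r / G.R) := by
  have hR := G.R_pos
  have hRR := G.R_posR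
  have hr := G.hr
  have hrR := G.hrR
  have hq0 : (0 : ℝ) ≤ G.r / G.R := by
    have : (0 : ℝ) ≤ G.r := by exact_mod_cast hr
    positivity
  have near : ∀ p' q' : ℤ × ℤ, nr G.r p' q' → G.inW p' →
      |G.d j p' - G.d j q'| ≤ 24 * (G.r / G.R) := by
    intro p' q' h' hW
    have h1 : nr (2 * G.R) p' (G.w (G.cell p')) := hW
    have h2 : nr (3 * G.R) q' (G.w (G.cell p')) :=
      nr_mono (by omega) (nr_trans (nr_symm h') h1)
    rw [G.d_near_w (nr_mono (by omega) h1), G.d_near_w h2]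
    refine (D2_lip _ _ _ _ _ _).trans ?_
    have h3 := G.lc_sub_le p'.1 q'.1 (G.w (G.cell p')).1 G.r h'.1
    have h4 := G.lc_sub_le p'.2 q'.2 (G.w (G.cell p')).2 G.r h'.2
    linarith
  by_cases hp : G.inW p
  · exact near p q h hp
  · by_cases hq : G.inW q
    · rw [abs_sub_comm]
      exact near q p (nr_symm h) hq
    · unfold d
      rw [if_neg hp, if_neg hq]
      refine (D0_lip hRR _ _ _ _ _).trans ?_
      have hη := (G.η_lip p q).trans (dist_le_of_nr hr h)
      have h3 : |G.u p - G.u q| ≤ 2 * G.r := by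
        unfold u
        have e : (p.1 : ℝ) - G.η p - (q.1 - G.η q) = ((p.1 - q.1 : ℤ) : ℝ) - (G.η p - G.η q) := by
          push_cast; ring
        rw [e]
        refine (abs_sub _ _).trans ?_
        have h5 : |((p.1 - q.1 : ℤ) : ℝ)| ≤ G.r := by
          rw [← Int.cast_abs]; exact_mod_cast h.1
        linarith
      have h4 : |G.v p - G.v q| ≤ 2 * G.r := by
        unfold v
        have e : (p.2 : ℝ) - G.η p - (q.2 - G.η q) = ((p.2 - q.2 : ℤ) : ℝ) - (G.η p - G.η q) := by
          push_cast; ring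
        rw [e]
        refine (abs_sub _ _).trans ?_
        have h5 : |((p.2 - q.2 : ℤ) : ℝ)| ≤ G.r := by
          rw [← Int.cast_abs]; exact_mod_cast h.2
        linarith
      have h5 : (|G.u p - G.u q| + |G.v p - G.v q|) / G.R ≤ (4 * G.r) / G.R :=
        div_le_div_of_nonneg_right (by linarith) hRR.le
      have h6 : (4 * (G.r : ℝ)) / G.R = 4 * (G.r / G.R) := by ring
      linarith

theorem o_slow (j : ℤ × ℤ) {p q : ℤ × ℤ} (h : nr G.r p q) :
    |G.o j p - G.o j q| ≤ √(4 * (G.r / G.R)) := by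
  have hR := G.R_pos
  have hr := G.hr
  have hrR := G.hrR
  have nearW : ∀ p' q' : ℤ × ℤ, nr G.r p' q' → G.inW p' →
      |G.o j p' - G.o j q'| ≤ √(4 * (G.r / G.R)) := by
    intro p' q' h' hW
    have h1 : nr (2 * G.R) p' (G.w (G.cell p')) := hW
    have h2 : nr (3 * G.R) q' (G.w (G.cell p')) :=
      nr_mono (by omega) (nr_trans (nr_symm h') h1)
    rw [G.o_near_w (nr_mono (by omega) h1), G.o_near_w h2]
    refine (O2_lip _ _ _ _ _ _).trans ?_
    have h3 := G.lc_sub_le p'.1 q'.1 (G.w (G.cell p')).1 G.r h'.1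
    have h4 := G.lc_sub_le p'.2 q'.2 (G.w (G.cell p')).2 G.r h'.2
    apply Real.sqrt_le_sqrt
    linarith
  have nearH : ∀ p' q' : ℤ × ℤ, nr G.r p' q' → G.inH p' →
      |G.o j p' - G.o j q'| ≤ √(4 * (G.r / G.R)) := by
    intro p' q' h' hW
    have h1 : nr (2 * G.R) p' (G.h (G.cell p')) := hW
    have h2 : nr (3 * G.R) q' (G.h (G.cell p')) :=
      nr_mono (by omega) (nr_trans (nr_symm h') h1)
    rw [G.o_near_h (nr_mono (by omega) h1), G.o_near_h h2]
    refine (O2_lip _ _ _ _ _ _).trans ?_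
    have h3 := G.lc_sub_le p'.1 q'.1 (G.h (G.cell p')).1 G.r h'.1
    have h4 := G.lc_sub_le p'.2 q'.2 (G.h (G.cell p')).2 G.r h'.2
    apply Real.sqrt_le_sqrt
    linarith
  by_cases hp : G.inW p
  · exact nearW p q h hp
  by_cases hq : G.inW q
  · rw [abs_sub_comm]; exact nearW q p (nr_symm h) hq
  by_cases hp' : G.inH p
  · exact nearH p q h hp'
  by_cases hq' : G.inH q
  · rw [abs_sub_comm]; exact nearH q p (nr_symm h) hq'
  unfold o
  rw [if_neg hp, if_neg hq, if_neg hp', if_neg hq']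
  simp

theorem abs_o_le (j p : ℤ × ℤ) : |G.o j p| ≤ 1 := by
  rw [o_eq]
  have h1 := gg_nonneg (G.U p) (G.V p)
  have h2 := gg_le_one (G.U p) (G.V p)
  split_ifs
  · rw [abs_of_nonneg h1]; exact h2
  · rw [abs_neg, abs_of_nonneg h1]; exact h2
  · simp

/-- the swap is an isometry near the inner squares -/
theorem key (a : ℤ × ℤ → ℤ × ℤ → ℂ) {δ₁ : ℝ}
    (hcls : ∀ c x y : ℤ × ℤ, nr (2 * G.R) x (G.h c) → nr (2 * G.R) y (G.h c) →
      ‖a x y - a (tr (G.sh c) x) (tr (G.sh c) y)‖ ≤ δ₁)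
    {j x y : ℤ × ℤ} (hy : G.o j y ≠ 0) (hxy : nr G.r x (G.σ y)) :
    nr G.r (G.σ x) y ∧ ‖a x (G.σ y) - a (G.σ x) y‖ ≤ δ₁ := by
  have hR := G.R_pos
  have hr := G.hr
  have hrR := G.hrR
  obtain ⟨c, hc | hc⟩ := G.inner_of_o_ne hy
  · have h1 : nr (2 * G.R) y (G.h c) := nr_mono (by omega) hc
    have e1 := G.σ_h h1
    rw [e1] at hxy ⊢
    have h2 : nr G.R (tr (G.sh c) y) (G.w c) := G.nr_tr_h.2 hc
    have h3 : nr (2 * G.R) x (G.w c) := nr_mono (by omega) (nr_trans hxy h2)
    have e2 := G.σ_w h3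
    rw [e2]
    constructor
    · constructor
      · have := hxy.1; unfold tr at this ⊢; simp only at this ⊢
        have e : x.1 + -G.sh c - y.1 = x.1 - (y.1 + G.sh c) := by ring
        rw [e]; exact this
      · have := hxy.2; unfold tr at this ⊢; simp only at this ⊢
        have e : x.2 + -G.sh c - y.2 = x.2 - (y.2 + G.sh c) := by ring
        rw [e]; exact this
    · have h4 := hcls c (tr (-G.sh c) x) y (G.nr_tr_w.2 h3) h1
      rw [tr_tr, add_neg_cancel, tr_zero] at h4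
      rw [norm_sub_rev]
      exact h4
  · have h1 : nr (2 * G.R) y (G.w c) := nr_mono (by omega) hc
    have e1 := G.σ_w h1
    rw [e1] at hxy ⊢
    have h2 : nr G.R (tr (-G.sh c) y) (G.h c) := G.nr_tr_w.2 hc
    have h3 : nr (2 * G.R) x (G.h c) := nr_mono (by omega) (nr_trans hxy h2)
    have e2 := G.σ_h h3
    rw [e2]
    constructor
    · constructor
      · have := hxy.1; unfold tr at this ⊢; simp only at this ⊢
        have e : x.1 + G.sh c - y.1 = x.1 - (y.1 + -G.sh c) := by ring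
        rw [e]; exact this
      · have := hxy.2; unfold tr at this ⊢; simp only at this ⊢
        have e : x.2 + G.sh c - y.2 = x.2 - (y.2 + -G.sh c) := by ring
        rw [e]; exact this
    · have h4 := hcls c x (tr (-G.sh c) y) h3 (G.nr_tr_w.2 h1)
      rw [tr_tr, add_neg_cancel, tr_zero] at h4
      exact h4

theorem comm (a : ℤ × ℤ → ℤ × ℤ → ℂ) {δ₁ M : ℝ} (hM : 0 ≤ M) (hδ₁ : 0 ≤ δ₁)
    (haM : ∀ x y, ‖a x y‖ ≤ M) (ha0 : ∀ x y, ¬ nr G.r x y → a x y = 0)
    (hcls : ∀ c x y : ℤ × ℤ, nr (2 * G.R) x (G.h c) → nr (2 * G.R) y (G.h c) →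
      ‖a x y - a (tr (G.sh c) x) (tr (G.sh c) y)‖ ≤ δ₁) (j x y : ℤ × ℤ) :
    ‖a x y * ((G.d j y : ℂ) - G.d j x) + a x (G.σ y) * G.o j y - G.o j x * a (G.σ x) y‖ ≤
      M * (24 * (G.r / G.R)) + (M * √(4 * (G.r / G.R)) + δ₁) := by
  have hRR := G.R_posR
  have hr0 : (0 : ℝ) ≤ G.r := by exact_mod_cast G.hr
  have hs0 : 0 ≤ √(4 * ((G.r : ℝ) / G.R)) := Real.sqrt_nonneg _
  have part1 : ‖a x y * ((G.d j y : ℂ) - G.d j x)‖ ≤ M * (24 * (G.r / G.R)) := by
    by_cases h : nr G.r x y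
    · rw [norm_mul]
      refine mul_le_mul (haM _ _) ?_ (norm_nonneg _) hM
      rw [← Complex.ofReal_sub, Complex.norm_real, Real.norm_eq_abs]
      exact G.d_slow j (nr_symm h)
    · rw [ha0 x y h, zero_mul, norm_zero]; positivity
  have part2 : ‖a x (G.σ y) * G.o j y - G.o j x * a (G.σ x) y‖ ≤
      M * √(4 * (G.r / G.R)) + δ₁ := by
    by_cases h : nr G.r x (G.σ y)
    · -- the two points are close after the swap
      have hslow : |G.o j y - G.o j x| ≤ √(4 * (G.r / G.R)) := by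
        rw [← G.o_σ j y]
        exact G.o_slow j (nr_symm h)
      by_cases hy : G.o j y = 0
      · rw [hy]
        rw [hy] at hslow
        rw [zero_sub, abs_neg] at hslow
        rw [Complex.ofReal_zero, mul_zero, zero_sub, norm_neg, norm_mul, Complex.norm_real,
          Real.norm_eq_abs, mul_comm]
        have := mul_le_mul (haM (G.σ x) y) hslow (abs_nonneg _) hM
        linarith
      · obtain ⟨h1, h2⟩ := G.key a hcls hy h
        have e : a x (G.σ y) * G.o j y - G.o j x * a (G.σ x) y =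
            a x (G.σ y) * ((G.o j y : ℂ) - G.o j x) +
              G.o j x * (a x (G.σ y) - a (G.σ x) y) := by ring
        rw [e]
        refine (norm_add_le _ _).trans (add_le_add ?_ ?_)
        · rw [norm_mul]
          refine mul_le_mul (haM _ _) ?_ (norm_nonneg _) hM
          rw [← Complex.ofReal_sub, Complex.norm_real, Real.norm_eq_abs]
          exact hslow
        · rw [norm_mul, Complex.norm_real, Real.norm_eq_abs]
          have := mul_le_mul (G.abs_o_le j x) h2 (norm_nonneg _) zero_le_one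
          linarith
    · rw [ha0 _ _ h, zero_mul, zero_sub, norm_neg]
      by_cases hx : G.o j x = 0
      · rw [hx]; simp; positivity
      · have h1 : ¬ nr G.r (G.σ x) y := by
          intro h2
          obtain ⟨h3, -⟩ := G.key a hcls hx (nr_symm h2)
          exact h (nr_symm h3)
        rw [ha0 _ _ h1, mul_zero, norm_zero]
        positivity
  have e : a x y * ((G.d j y : ℂ) - G.d j x) + a x (G.σ y) * G.o j y - G.o j x * a (G.σ x) y =
      a x y * ((G.d j y : ℂ) - G.d j x) + (a x (G.σ y) * G.o j y - G.o j x * a (G.σ x) y) := by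
    ring
  rw [e]
  exact (norm_add_le _ _).trans (add_le_add part1 part2)

end Geo

end

end Pool.Agent.Roe
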