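import Mathlib
import Pool.Agent.Work.MP_80b727_an.Slow
import Pool.Agent.Work.MP_80b727_an.CombData
import Pool.Agent.Work.MP_80b727_an.Eta
import Pool.Agent.Work.MP_80b727_an.Pigeon

/-!
# Assembly of the combinatorial data on `ℤ × ℤ`
-/

namespace Pool.Agent.Roe

noncomputable section

open Real

namespace Geo

variable (G : Geo)

/-- colour of a label -/
def col (j : ℤ × ℤ) : Fin 2 := if Even (j.1 + j.2) then 0 else 1

/-- active labels -/
def act (p : ℤ × ℤ) : Finset (ℤ × ℤ) :=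
  {G.M p, ((G.M p).1 - 1, (G.M p).2 - 1), ((G.M p).1 - 1, (G.M p).2), ((G.M p).1, (G.M p).2 - 1)}

theorem act_card (p : ℤ × ℤ) : (G.act p).card ≤ 4 := Finset.card_le_four

theorem col_ne1 (m n : ℤ) : col (m - 1, n) ≠ col (m, n) := by
  unfold col
  simp only
  have e : m + n = (m - 1 + n) + 1 := by ring
  by_cases h : Even (m - 1 + n)
  · have h2 : ¬ Even (m + n) := by rw [e]; simpa [Int.even_add_one] using h
    rw [if_pos h, if_neg h2]; decide
  · have h2 : Even (m + n) := by rw [e]; simpa [Int.even_add_one] using h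
    rw [if_neg h, if_pos h2]; decide

theorem col_ne2 (m n : ℤ) : col (m, n - 1) ≠ col (m, n) := by
  unfold col
  simp only
  have e : m + n = (m + (n - 1)) + 1 := by ring
  by_cases h : Even (m + (n - 1))
  · have h2 : ¬ Even (m + n) := by rw [e]; simpa [Int.even_add_one] using h
    rw [if_pos h, if_neg h2]; decide
  · have h2 : Even (m + n) := by rw [e]; simpa [Int.even_add_one] using h
    rw [if_neg h, if_pos h2]; decide

theorem mem_act {j p : ℤ × ℤ} : j ∈ G.act p ↔ j = G.M p ∨ j = ((G.M p).1 - 1, (G.M p).2 - 1) ∨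
    j = ((G.M p).1 - 1, (G.M p).2) ∨ j = ((G.M p).1, (G.M p).2 - 1) := by
  unfold act; simp only [Finset.mem_insert, Finset.mem_singleton]

theorem d_zero {j p : ℤ × ℤ} (h : j ∉ G.act p) : G.d j p = 0 := by
  rw [mem_act] at h
  push Not at h
  rw [d_eq, if_neg h.1, if_neg h.2.1, if_neg h.2.2.1, if_neg h.2.2.2]

theorem o_zero {j p : ℤ × ℤ} (h : j ∉ G.act p) : G.o j p = 0 := by
  rw [mem_act] at h
  push Not at h
  rw [o_eq, if_neg h.1, if_neg h.2.1]

section values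
variable (p : ℤ × ℤ)

theorem d_A : G.d (G.M p) p = G.dA p := by rw [d_eq, if_pos rfl]

theorem d_B : G.d ((G.M p).1 - 1, (G.M p).2 - 1) p = G.dB p := by
  rw [d_eq, if_neg, if_pos rfl]
  intro h; have := congrArg Prod.fst h; simp at this <;> omega

theorem d_C : G.d ((G.M p).1 - 1, (G.M p).2) p = G.dC p := by
  rw [d_eq, if_neg, if_neg, if_pos rfl]
  · intro h; have := congrArg Prod.snd h; simp at this <;> omega
  · intro h; have := congrArg Prod.fst h; simp at this <;> omega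

theorem d_D : G.d ((G.M p).1, (G.M p).2 - 1) p = G.dD p := by
  rw [d_eq, if_neg, if_neg, if_neg, if_pos rfl]
  · intro h; have := congrArg Prod.fst h; simp at this <;> omega
  · intro h; have := congrArg Prod.fst h; simp at this <;> omega
  · intro h; have := congrArg Prod.snd h; simp at this <;> omega

theorem o_A : G.o (G.M p) p = gg (G.U p) (G.V p) := by rw [o_eq, if_pos rfl]

theorem o_B : G.o ((G.M p).1 - 1, (G.M p).2 - 1) p = - gg (G.U p) (G.V p) := by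
  rw [o_eq, if_neg, if_pos rfl]
  intro h; have := congrArg Prod.fst h; simp at this <;> omega

theorem o_C : G.o ((G.M p).1 - 1, (G.M p).2) p = 0 := by
  rw [o_eq, if_neg, if_neg]
  · intro h; have := congrArg Prod.snd h; simp at this <;> omega
  · intro h; have := congrArg Prod.fst h; simp at this <;> omega

theorem o_D : G.o ((G.M p).1, (G.M p).2 - 1) p = 0 := by
  rw [o_eq, if_neg, if_neg]
  · intro h; have := congrArg Prod.fst h; simp at this <;> omega
  · intro h; have := congrArg Prod.snd h; simp at this <;> omega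

theorem sum_act (f : ℤ × ℤ → ℝ) : ∑ j ∈ G.act p, f j =
    f (G.M p) + f ((G.M p).1 - 1, (G.M p).2 - 1) + f ((G.M p).1 - 1, (G.M p).2) +
      f ((G.M p).1, (G.M p).2 - 1) := by
  unfold act
  rw [Finset.sum_insert, Finset.sum_insert, Finset.sum_insert, Finset.sum_singleton]
  · ring
  · simp
  · simp
  · simp only [Finset.mem_insert, Finset.mem_singleton]
    rintro (h | h | h)
    · have := congrArg Prod.fst h; simp at this <;> omega
    · have := congrArg Prod.fst h; simp at this <;> omega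
    · have := congrArg Prod.snd h; simp at this <;> omega

theorem sum1 : ∑ j ∈ G.act p, (G.d j p ^ 2 + G.o j p ^ 2) = 1 := by
  rw [sum_act, d_A, d_B, d_C, d_D, o_A, o_B, o_C, o_D]
  have := G.sum_state p
  linarith

/-- values at the swapped point, when the off-diagonal part is nonzero -/
theorem d_σ_A (h : gg (G.U p) (G.V p) ≠ 0) : G.d (G.M p) (G.σ p) = G.dB p := by
  obtain ⟨h1, h2, h3⟩ := G.swap h
  rw [← h1, d_A, h2]

theorem d_σ_B (h : gg (G.U p) (G.V p) ≠ 0) :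
    G.d ((G.M p).1 - 1, (G.M p).2 - 1) (G.σ p) = G.dA p := by
  obtain ⟨h1, h2, h3⟩ := G.swap h
  rw [← h1, d_B, h3]

theorem sum2 : ∑ j ∈ G.act p, G.o j p * (G.d j p + G.d j (G.σ p)) = 0 := by
  rw [sum_act, o_A, o_B, o_C, o_D, d_A, d_B]
  by_cases h : gg (G.U p) (G.V p) = 0
  · rw [h]; ring
  · rw [G.d_σ_A p h, G.d_σ_B p h]; ring

end values

theorem pairs {j k p : ℤ × ℤ} (hjk : j ≠ k) (hc : col j = col k) (hj : j ∈ G.act p)
    (hk : k ∈ G.act p) :
    (j = G.M p ∧ k = ((G.M p).1 - 1, (G.M p).2 - 1)) ∨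
    (k = G.M p ∧ j = ((G.M p).1 - 1, (G.M p).2 - 1)) ∨
    (j = ((G.M p).1 - 1, (G.M p).2) ∧ k = ((G.M p).1, (G.M p).2 - 1)) ∨
    (k = ((G.M p).1 - 1, (G.M p).2) ∧ j = ((G.M p).1, (G.M p).2 - 1)) := by
  rw [mem_act] at hj hk
  have n1 : ∀ m : ℤ × ℤ, col (m.1 - 1, m.2) ≠ col m := fun m => col_ne1 m.1 m.2
  have n2 : ∀ m : ℤ × ℤ, col (m.1, m.2 - 1) ≠ col m := fun m => col_ne2 m.1 m.2
  have n3 : ∀ m : ℤ × ℤ, col (m.1 - 1, m.2 - 1) ≠ col (m.1 - 1, m.2) := fun m => col_ne2 _ _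
  have n4 : ∀ m : ℤ × ℤ, col (m.1 - 1, m.2 - 1) ≠ col (m.1, m.2 - 1) := fun m => col_ne1 _ _
  rcases hj with rfl | rfl | rfl | rfl <;> rcases hk with rfl | rfl | rfl | rfl
  · exact absurd rfl hjk
  · exact Or.inl ⟨rfl, rfl⟩
  · exact absurd hc.symm (n1 _)
  · exact absurd hc.symm (n2 _)
  · exact Or.inr (Or.inl ⟨rfl, rfl⟩)
  · exact absurd rfl hjk
  · exact absurd hc (n3 _)
  · exact absurd hc (n4 _)
  · exact absurd hc (n1 _)
  · exact absurd hc.symm (n3 _)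
  · exact absurd rfl hjk
  · exact Or.inr (Or.inr (Or.inl ⟨rfl, rfl⟩))
  · exact absurd hc (n2 _)
  · exact absurd hc.symm (n4 _)
  · exact Or.inr (Or.inr (Or.inr ⟨rfl, rfl⟩))
  · exact absurd rfl hjk

theorem orth1 {j k : ℤ × ℤ} (hjk : j ≠ k) (hc : col j = col k) (p : ℤ × ℤ) :
    G.d j p * G.d k p + G.o j p * G.o k p = 0 := by
  by_cases hj : j ∈ G.act p
  · by_cases hk : k ∈ G.act p
    · have hAB := G.orth_AB p
      have hCD := G.orth_CD p
      rcases G.pairs hjk hc hj hk with ⟨rfl, rfl⟩ | ⟨rfl, rfl⟩ | ⟨rfl, rfl⟩ | ⟨rfl, rfl⟩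
      · rw [d_A, d_B, o_A, o_B]; linarith
      · rw [d_A, d_B, o_A, o_B]; linarith
      · rw [d_C, d_D, o_C, o_D]; linarith
      · rw [d_C, d_D, o_C, o_D]; linarith
    · rw [G.d_zero hk, G.o_zero hk]; ring
  · rw [G.d_zero hj, G.o_zero hj]; ring

theorem orth2 {j k : ℤ × ℤ} (hjk : j ≠ k) (hc : col j = col k) (p : ℤ × ℤ) :
    G.d j p * G.o k p + G.o j p * G.d k (G.σ p) = 0 := by
  by_cases hg : gg (G.U p) (G.V p) = 0
  · have h0 : ∀ i, G.o i p = 0 := by
      intro i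
      rw [o_eq, hg]; simp
    rw [h0, h0]; ring
  by_cases hj : j ∈ G.act p
  · by_cases hk : k ∈ G.act p
    · rcases G.pairs hjk hc hj hk with ⟨rfl, rfl⟩ | ⟨rfl, rfl⟩ | ⟨rfl, rfl⟩ | ⟨rfl, rfl⟩
      · rw [d_A, o_A, o_B, G.d_σ_B p hg]; ring
      · rw [d_B, o_A, o_B, G.d_σ_A p hg]; ring
      · rw [o_C, o_D]; ring
      · rw [o_C, o_D]; ring
    · rw [G.o_zero hk]
      have h1 : k ∉ G.act (G.σ p) := by
        rw [mem_act] at hk ⊢
        rwa [(G.swap hg).1]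
      rw [G.d_zero h1]; ring
  · rw [G.d_zero hj, G.o_zero hj]; ring

/-- the reference corner is close -/
theorem M_close (p : ℤ × ℤ) : |p.1 - (G.M p).1 * G.S| ≤ G.S ∧ |p.2 - (G.M p).2 * G.S| ≤ G.S := by
  have hR := G.R_pos
  have hE := G.E_nonneg
  by_cases hW : G.inW p
  · have h1 : nr (2 * G.R) p (G.w (G.cell p)) := hW
    have h2 := G.box_of_w (nr_mono (by omega) h1)
    have hM : G.M p = G.cell p := by unfold M; rw [if_pos hW]
    rw [hM]
    have hL : G.L ≤ G.S := by unfold S L; omega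
    exact ⟨h2.1.trans hL, h2.2.trans hL⟩
  · have hM : G.M p = (G.rd (G.u p), G.rd (G.v p)) := by unfold M; rw [if_neg hW]
    rw [hM]
    have h1 := G.rd_spec (G.u p)
    have h2 := G.rd_spec (G.v p)
    have h3 := G.η_nonneg p
    have h4 : G.η p ≤ G.E := by
      have := G.η_le p
      unfold E; push_cast; exact this
    have h5 : 2 * G.E ≤ G.S := by unfold S; omega
    have h5' : 2 * (G.E : ℝ) ≤ G.S := by exact_mod_cast h5
    rw [abs_le] at h1 h2
    have g1 : ((|p.1 - G.rd (G.u p) * G.S| : ℤ) : ℝ) ≤ G.S := by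
      rw [Int.cast_abs, abs_le]
      push_cast
      have hu : G.u p = p.1 - G.η p := rfl
      constructor <;> linarith [h1.1, h1.2]
    have g2 : ((|p.2 - G.rd (G.v p) * G.S| : ℤ) : ℝ) ≤ G.S := by
      rw [Int.cast_abs, abs_le]
      push_cast
      have hv : G.v p = p.2 - G.η p := rfl
      constructor <;> linarith [h2.1, h2.2]
    exact ⟨by exact_mod_cast g1, by exact_mod_cast g2⟩

/-- the finite support set of a label -/
def P (j : ℤ × ℤ) : Finset (ℤ × ℤ) :=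
  Finset.Icc (j.1 * G.S - 2 * G.S, j.2 * G.S - 2 * G.S) (j.1 * G.S + 2 * G.S, j.2 * G.S + 2 * G.S)

theorem mem_P {j p : ℤ × ℤ} (h : j ∈ G.act p) : p ∈ G.P j := by
  have hS := G.S_pos
  obtain ⟨h1, h2⟩ := G.M_close p
  rw [abs_le] at h1 h2
  unfold P
  rw [Finset.mem_Icc, Prod.le_def, Prod.le_def]
  rw [mem_act] at h
  rcases h with rfl | rfl | rfl | rfl <;> simp only <;>
    (refine ⟨⟨?_, ?_⟩, ⟨?_, ?_⟩⟩ <;> nlinarith [h1.1, h1.2, h2.1, h2.2])

theorem P_card (j : ℤ × ℤ) : (G.P j).card ≤ (4 * G.S + 1).toNat * (4 * G.S + 1).toNat := by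
  unfold P
  rw [Finset.card_Icc_prod, Int.card_Icc, Int.card_Icc]
  apply Nat.mul_le_mul
  · apply Int.toNat_le_toNat; simp only; linarith
  · apply Int.toNat_le_toNat; simp only; linarith

theorem P_diam (j x y : ℤ × ℤ) (hx : x ∈ G.P j) (hy : y ∈ G.P j) :
    dist x y ≤ ((4 * G.S : ℤ) : ℝ) := by
  have hS := G.S_pos
  unfold P at hx hy
  rw [Finset.mem_Icc, Prod.le_def, Prod.le_def] at hx hy
  simp only at hx hy
  apply dist_le_of_nr (by omega)
  constructor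
  · rw [abs_le]; constructor <;> linarith [hx.1.1, hx.2.1, hy.1.1, hy.2.1]
  · rw [abs_le]; constructor <;> linarith [hx.1.2, hx.2.2, hy.1.2, hy.2.2]

/-- the combinatorial data -/
def data {k : ℕ} (a : Fin k → ℤ × ℤ → ℤ × ℤ → ℂ) {δ₁ M δ : ℝ} (hM : 0 ≤ M) (hδ₁ : 0 ≤ δ₁)
    (haM : ∀ i x y, ‖a i x y‖ ≤ M) (ha0 : ∀ i x y, ¬ nr G.r x y → a i x y = 0)
    (hcls : ∀ i, ∀ c x y : ℤ × ℤ, nr (2 * G.R) x (G.h c) → nr (2 * G.R) y (G.h c) →
      ‖a i x y - a i (tr (G.sh c) x) (tr (G.sh c) y)‖ ≤ δ₁)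
    (hδ : M * (24 * (G.r / G.R)) + (M * √(4 * (G.r / G.R)) + δ₁) ≤ δ) :
    CombData (ℤ × ℤ) (Fin k) a δ 4 where
  J := ℤ × ℤ
  col := col
  σ := G.σ
  d := G.d
  o := G.o
  P := G.P
  D := ((4 * G.S : ℤ) : ℝ)
  N := (4 * G.S + 1).toNat * (4 * G.S + 1).toNat
  act := G.act
  σσ := G.σσ
  d_supp j x h := by
    apply G.mem_P
    by_contra hc
    exact h (G.d_zero hc)
  o_supp j x h := by
    apply G.mem_P
    by_contra hc
    exact h (G.o_zero hc)
  P_card := G.P_card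
  P_diam j x hx y hy := G.P_diam j x y hx hy
  act_card := G.act_card
  act_d j x h := G.d_zero h
  act_o j x h := G.o_zero h
  o_σ := G.o_σ
  o_fix := G.o_fix
  orth1 j k h1 h2 x := G.orth1 h1 h2 x
  orth2 j k h1 h2 x := G.orth2 h1 h2 x
  sum1 := G.sum1
  sum2 := G.sum2
  comm i j x y := (G.comm (a i) hM hδ₁ (haM i) (ha0 i) (hcls i) j x y).trans hδ

end Geo

theorem comb_int2 (k : ℕ) (a : Fin k → ℤ × ℤ → ℤ × ℤ → ℂ) (r M : ℝ)
    (hM : ∀ i x y, ‖a i x y‖ ≤ M) (hr : ∀ i x y, r < dist x y → a i x y = 0) (δ : ℝ) (hδ : 0 < δ) :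
    Nonempty (CombData (ℤ × ℤ) (Fin k) a δ 4) := by
  classical
  -- constants
  obtain ⟨M', hM'1, hM'⟩ : ∃ M' : ℝ, 1 ≤ M' ∧ ∀ i x y, ‖a i x y‖ ≤ M' :=
    ⟨max 1 M, le_max_left _ _, fun i x y => (hM i x y).trans (le_max_right _ _)⟩
  obtain ⟨r', hr'0, hr'⟩ : ∃ r' : ℤ, 0 ≤ r' ∧ ∀ i x y, ¬ Geo.nr r' x y → a i x y = 0 := by
    refine ⟨max 0 ⌈r⌉, le_max_left _ _, fun i x y h => hr i x y ?_⟩
    by_contra hc
    push Not at hc
    apply h
    rw [Prod.dist_eq, Int.dist_eq, Int.dist_eq] at hc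
    have h1 := (le_max_left _ _).trans hc
    have h2 := (le_max_right _ _).trans hc
    have h3 : r ≤ ((max 0 ⌈r⌉ : ℤ) : ℝ) :=
      (Int.le_ceil r).trans (by exact_mod_cast le_max_right _ _)
    constructor
    · have : ((|x.1 - y.1| : ℤ) : ℝ) ≤ ((max 0 ⌈r⌉ : ℤ) : ℝ) := by
        rw [Int.cast_abs, Int.cast_sub]; exact h1.trans h3
      exact_mod_cast this
    · have : ((|x.2 - y.2| : ℤ) : ℝ) ≤ ((max 0 ⌈r⌉ : ℤ) : ℝ) := by
        rw [Int.cast_abs, Int.cast_sub]; exact h2.trans h3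
      exact_mod_cast this
  set δ₂ : ℝ := δ / (4 * M') with hδ₂
  have hδ₂0 : 0 < δ₂ := by positivity
  -- the scale
  obtain ⟨R, hR⟩ : ∃ R : ℤ, max (max (r' : ℝ) (24 * r' / δ₂)) (4 * r' / δ₂ ^ 2) < R := by
    obtain ⟨n, hn⟩ := exists_nat_gt (max (max (r' : ℝ) (24 * r' / δ₂)) (4 * r' / δ₂ ^ 2))
    exact ⟨n, by exact_mod_cast hn⟩
  have hR1 : (r' : ℝ) < R := lt_of_le_of_lt ((le_max_left _ _).trans (le_max_left _ _)) hR
  have hR2 : 24 * r' / δ₂ < (R : ℝ) :=
    lt_of_le_of_lt ((le_max_right _ _).trans (le_max_left _ _)) hR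
  have hR3 : 4 * r' / δ₂ ^ 2 < (R : ℝ) := lt_of_le_of_lt (le_max_right _ _) hR
  have hrR : r' < R := by exact_mod_cast hR1
  have hr'0' : (0 : ℝ) ≤ r' := by exact_mod_cast hr'0
  have hR0 : (0 : ℝ) < R := lt_of_le_of_lt hr'0' hR1
  have hR0' : 0 < R := by exact_mod_cast hR0
  -- pigeonhole
  let B : Finset (ℤ × ℤ) := Finset.Icc (-(2 * R), -(2 * R)) (2 * R, 2 * R)
  obtain ⟨T, hT⟩ := exists_close (Fin k × B × B) M' (δ / 2) (by linarith)
  set S : ℤ := 3 * (7 * R * T) + 6 * R + 1 with hS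
  let cand : ℤ × ℤ → ℕ → ℤ × ℤ := fun c t => (c.1 * S + 7 * R * t, c.2 * S + 7 * R * t)
  let f : ℤ × ℤ → ℕ → (Fin k × B × B) → ℂ := fun c t i =>
    a i.1 ((cand c t).1 + i.2.1.1.1, (cand c t).2 + i.2.1.1.2)
      ((cand c t).1 + i.2.2.1.1, (cand c t).2 + i.2.2.1.2)
  have hf : ∀ c, ∃ t s : ℕ, t < s ∧ s ≤ T ∧ ∀ i, ‖f c t i - f c s i‖ ≤ δ / 2 :=
    fun c => hT (f c) (fun n i => hM' _ _ _)
  choose kk ll hkl hlT hcl using hf
  -- displacement
  have hTR : 0 ≤ 7 * R * (T : ℤ) := by positivity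
  obtain ⟨η, hη1, hη2, hη3⟩ := exists_eta (7 * R * T) (7 * R * T + 3 * R) S hTR
    (by positivity) (by omega) (fun c => 7 * R * (kk c : ℝ)) (by
      intro c
      constructor
      · positivity
      · have h1 : (kk c : ℤ) ≤ T := by have := hkl c; have := hlT c; omega
        have h2 : (kk c : ℝ) ≤ T := by exact_mod_cast h1
        push_cast
        have : (0 : ℝ) ≤ 7 * R := by positivity
        nlinarith)
  let G : Geo :=
    { R := R, r := r', T := T, hr := hr'0, hrR := hrR, hT := by positivity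
      kk := fun c => kk c, ll := fun c => ll c
      hk0 := fun c => by positivity
      hkl := fun c => by exact_mod_cast hkl c
      hlT := fun c => by exact_mod_cast hlT c
      η := η, η_lip := hη1, η_nonneg := fun p => (hη2 p).1
      η_le := fun p => by
        have := (hη2 p).2
        push_cast at this ⊢
        exact this
      η_eq := fun c p h1 h2 => by
        have := hη3 c p h1 h2
        push_cast at this ⊢
        exact this }
  refine ⟨G.data a (δ₁ := δ / 2) (M := M') (by linarith) (by linarith) hM' hr' ?_ ?_⟩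
  · intro i c x y hx hy
    have hx' : (x.1 - (G.h c).1, x.2 - (G.h c).2) ∈ B := by
      have h1 := abs_le.1 hx.1
      have h2 := abs_le.1 hx.2
      change (x.1 - (G.h c).1, x.2 - (G.h c).2) ∈ Finset.Icc (-(2 * R), -(2 * R)) (2 * R, 2 * R)
      rw [Finset.mem_Icc, Prod.le_def, Prod.le_def]
      exact ⟨⟨h1.1, h2.1⟩, ⟨h1.2, h2.2⟩⟩
    have hy' : (y.1 - (G.h c).1, y.2 - (G.h c).2) ∈ B := by
      have h1 := abs_le.1 hy.1
      have h2 := abs_le.1 hy.2
      change (y.1 - (G.h c).1, y.2 - (G.h c).2) ∈ Finset.Icc (-(2 * R), -(2 * R)) (2 * R, 2 * R)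
      rw [Finset.mem_Icc, Prod.le_def, Prod.le_def]
      exact ⟨⟨h1.1, h2.1⟩, ⟨h1.2, h2.2⟩⟩
    have h := hcl c (i, ⟨_, hx'⟩, ⟨_, hy'⟩)
    have e1 : G.h c = cand c (kk c) := rfl
    have e2 : (G.h c).1 + G.sh c = (cand c (ll c)).1 := by
      have := G.w_eq c
      exact (congrArg Prod.fst this).symm
    have e3 : (G.h c).2 + G.sh c = (cand c (ll c)).2 := by
      have := G.w_eq c
      exact (congrArg Prod.snd this).symm
    have g1 : f c (kk c) (i, ⟨_, hx'⟩, ⟨_, hy'⟩) = a i x y := by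
      simp only [f, ← e1]
      congr 1 <;> (ext <;> simp)
    have g2 : f c (ll c) (i, ⟨_, hx'⟩, ⟨_, hy'⟩) = a i (Geo.tr (G.sh c) x) (Geo.tr (G.sh c) y) := by
      simp only [f, ← e2, ← e3]
      unfold Geo.tr
      congr 1 <;> (ext <;> simp <;> ring)
    rw [g1, g2] at h
    exact h
  · change M' * (24 * ((r' : ℝ) / R)) + (M' * √(4 * ((r' : ℝ) / R)) + δ / 2) ≤ δ
    have h1 : 24 * ((r' : ℝ) / R) ≤ δ₂ := by
      rw [div_lt_iff₀ hδ₂0] at hR2
      rw [← mul_div_assoc, div_le_iff₀ hR0]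
      linarith
    have h2 : √(4 * ((r' : ℝ) / R)) ≤ δ₂ := by
      rw [Real.sqrt_le_left hδ₂0.le]
      rw [div_lt_iff₀ (by positivity)] at hR3
      rw [← mul_div_assoc, div_le_iff₀ hR0]
      linarith
    have h3 : M' * δ₂ = δ / 4 := by rw [hδ₂]; field_simp
    have hM0 : 0 < M' := by linarith
    nlinarith

end

end Pool.Agent.Roe
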