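import Mathlib
import Pool.Agent.Work.MP_80b727_an.Defs

/-!
# Block diagonal operators `∑_j W_j b_j W_j*`
-/

namespace Pool.Agent.Roe

open scoped ENNReal InnerProductSpace CStarAlgebra
open ContinuousLinearMap (adjoint)

noncomputable section

/-- Euclidean space of dimension `n`. -/
abbrev Eu (n : ℕ) : Type := EuclideanSpace ℂ (Fin n)

section diag
variable {J : Type} {n : J → ℕ}

theorem diag_mem (b : ∀ j, Eu (n j) →L[ℂ] Eu (n j)) {C : ℝ} (hb : ∀ j, ‖b j‖ ≤ C)
    (f : lp (fun j => Eu (n j)) 2) : Memℓp (fun j => b j (f j)) 2 := by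
  have h1 : Memℓp (fun j => C • f j) 2 := (lp.memℓp f).const_smul C
  refine Memℓp.mono (g := fun j => ‖C • f j‖) ?_ ?_
  · exact memℓp_norm_iff.2 h1
  · intro j
    have h2 := (b j).le_opNorm (f j)
    refine h2.trans ?_
    rw [norm_smul]
    exact mul_le_mul_of_nonneg_right ((hb j).trans (le_abs_self C)) (norm_nonneg _)

theorem diag_norm_le (b : ∀ j, Eu (n j) →L[ℂ] Eu (n j)) {C : ℝ} (hb : ∀ j, ‖b j‖ ≤ C)
    (f : lp (fun j => Eu (n j)) 2) :
    ‖(⟨fun j => b j (f j), diag_mem b hb f⟩ : lp (fun j => Eu (n j)) 2)‖ ≤ |C| * ‖f‖ := by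
  have h1 : ‖(⟨fun j => b j (f j), diag_mem b hb f⟩ : lp (fun j => Eu (n j)) 2)‖ ≤
      ‖(C : ℂ) • f‖ := by
    apply lp.norm_mono (by norm_num)
    intro j
    have h2 := (b j).le_opNorm (f j)
    refine h2.trans ?_
    rw [lp.coeFn_smul, Pi.smul_apply, norm_smul]
    refine mul_le_mul_of_nonneg_right ((hb j).trans ?_) (norm_nonneg _)
    simpa using le_abs_self C
  refine h1.trans ?_
  rw [norm_smul]
  simp

/-- The diagonal operator on the Hilbert sum given by a bounded family. -/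
def diagB (b : ∀ j, Eu (n j) →L[ℂ] Eu (n j)) (C : ℝ) (hb : ∀ j, ‖b j‖ ≤ C) :
    lp (fun j => Eu (n j)) 2 →L[ℂ] lp (fun j => Eu (n j)) 2 :=
  LinearMap.mkContinuous
    { toFun := fun f => ⟨fun j => b j (f j), diag_mem b hb f⟩
      map_add' := by
        intro f g
        ext j : 2
        simp
      map_smul' := by
        intro c f
        ext j : 2
        simp } |C| (fun f => diag_norm_le b hb f)

open Classical in
/-- The diagonal operator on the Hilbert sum (zero if the family is unbounded). -/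
def diagL (b : ∀ j, Eu (n j) →L[ℂ] Eu (n j)) :
    lp (fun j => Eu (n j)) 2 →L[ℂ] lp (fun j => Eu (n j)) 2 :=
  if h : ∃ C : ℝ, ∀ j, ‖b j‖ ≤ C then diagB b h.choose h.choose_spec else 0

theorem diagL_apply (b : ∀ j, Eu (n j) →L[ℂ] Eu (n j)) {C : ℝ} (hb : ∀ j, ‖b j‖ ≤ C)
    (f : lp (fun j => Eu (n j)) 2) (j : J) : (diagL b f) j = b j (f j) := by
  unfold diagL
  rw [dif_pos ⟨C, hb⟩]
  rfl

theorem diagL_norm_le (b : ∀ j, Eu (n j) →L[ℂ] Eu (n j)) {C : ℝ} (hC : 0 ≤ C)
    (hb : ∀ j, ‖b j‖ ≤ C) : ‖diagL b‖ ≤ C := by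
  apply ContinuousLinearMap.opNorm_le_bound _ hC
  intro f
  have h1 : diagL b f = ⟨fun j => b j (f j), diag_mem b hb f⟩ := by
    ext1
    funext j
    exact diagL_apply b hb f j
  rw [h1]
  have := diag_norm_le b hb f
  rwa [abs_of_nonneg hC] at this

end diag

section BD
variable {H : Type*} [NormedAddCommGroup H] [InnerProductSpace ℂ H] [CompleteSpace H]
  {J : Type} {n : J → ℕ} (W : ∀ j, Eu (n j) →ₗᵢ[ℂ] H)
  (hW : OrthogonalFamily ℂ (fun j => Eu (n j)) W)

/-- The block diagonal operator `∑_j W_j b_j W_j*` (zero if the family `b` is unbounded). -/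
def BD (b : ∀ j, Eu (n j) →L[ℂ] Eu (n j)) : H →L[ℂ] H :=
  hW.linearIsometry.toContinuousLinearMap ∘L diagL b ∘L
    adjoint hW.linearIsometry.toContinuousLinearMap

theorem adjoint_apply_coord (y : H) (j : J) :
    (adjoint hW.linearIsometry.toContinuousLinearMap y) j =
      adjoint (W j).toContinuousLinearMap y := by
  classical
  apply ext_inner_left ℂ
  intro x
  rw [ContinuousLinearMap.adjoint_inner_right]
  refine (lp.inner_single_left (𝕜 := ℂ) (G := fun j => Eu (n j)) j x _).symm.trans ?_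
  rw [ContinuousLinearMap.adjoint_inner_right]
  have h1 : hW.linearIsometry.toContinuousLinearMap (lp.single 2 j x) = W j x :=
    hW.linearIsometry_apply_single x
  rw [h1]
  rfl

theorem BD_hasSum (b : ∀ j, Eu (n j) →L[ℂ] Eu (n j)) {C : ℝ} (hb : ∀ j, ‖b j‖ ≤ C) (x y : H) :
    HasSum (fun j => inner ℂ (adjoint (W j).toContinuousLinearMap x)
      (b j (adjoint (W j).toContinuousLinearMap y))) (inner ℂ x (BD W hW b y)) := by
  have h1 : inner ℂ x (BD W hW b y) =
      inner ℂ (adjoint hW.linearIsometry.toContinuousLinearMap x)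
        (diagL b (adjoint hW.linearIsometry.toContinuousLinearMap y)) := by
    rw [ContinuousLinearMap.adjoint_inner_left]
    rfl
  rw [h1]
  have h2 := lp.hasSum_inner (𝕜 := ℂ) (adjoint hW.linearIsometry.toContinuousLinearMap x)
    (diagL b (adjoint hW.linearIsometry.toContinuousLinearMap y))
  simp only [diagL_apply b hb, adjoint_apply_coord W hW] at h2
  exact h2

theorem BD_norm_le (b : ∀ j, Eu (n j) →L[ℂ] Eu (n j)) {C : ℝ} (hC : 0 ≤ C)
    (hb : ∀ j, ‖b j‖ ≤ C) : ‖BD W hW b‖ ≤ C := by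
  have h1 : ‖hW.linearIsometry.toContinuousLinearMap‖ ≤ 1 :=
    hW.linearIsometry.norm_toContinuousLinearMap_le
  have h2 : ‖adjoint hW.linearIsometry.toContinuousLinearMap‖ ≤ 1 := by
    rw [LinearIsometryEquiv.norm_map]
    exact h1
  have h3 := diagL_norm_le b hC hb
  unfold BD
  refine (ContinuousLinearMap.opNorm_comp_le _ _).trans ?_
  calc ‖hW.linearIsometry.toContinuousLinearMap‖ * ‖diagL b ∘L
        adjoint hW.linearIsometry.toContinuousLinearMap‖
      ≤ 1 * (C * 1) := by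
        apply mul_le_mul h1 _ (norm_nonneg _) zero_le_one
        refine (ContinuousLinearMap.opNorm_comp_le _ _).trans ?_
        exact mul_le_mul h3 h2 (norm_nonneg _) hC
    _ = C := by ring

theorem BD_add (b b' : ∀ j, Eu (n j) →L[ℂ] Eu (n j)) {C C' : ℝ} (hb : ∀ j, ‖b j‖ ≤ C)
    (hb' : ∀ j, ‖b' j‖ ≤ C') : BD W hW (fun j => b j + b' j) = BD W hW b + BD W hW b' := by
  have h1 : diagL (fun j => b j + b' j) = diagL b + diagL b' := by
    ext f j : 3
    rw [diagL_apply (C := C + C') _ (fun j => (norm_add_le _ _).trans (add_le_add (hb j) (hb' j)))]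
    simp [diagL_apply b hb, diagL_apply b' hb']
  unfold BD
  rw [h1, ContinuousLinearMap.add_comp, ContinuousLinearMap.comp_add]

theorem BD_smul (c : ℂ) (b : ∀ j, Eu (n j) →L[ℂ] Eu (n j)) {C : ℝ} (hb : ∀ j, ‖b j‖ ≤ C) :
    BD W hW (fun j => c • b j) = c • BD W hW b := by
  have h1 : diagL (fun j => c • b j) = c • diagL b := by
    ext f j : 3
    rw [diagL_apply (C := ‖c‖ * C) _ (fun j => by
      rw [norm_smul]; exact mul_le_mul_of_nonneg_left (hb j) (norm_nonneg _))]
    simp [diagL_apply b hb]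
  unfold BD
  rw [h1, ContinuousLinearMap.smul_comp, ContinuousLinearMap.comp_smul]

theorem adjoint_comp_self :
    adjoint hW.linearIsometry.toContinuousLinearMap ∘L
      hW.linearIsometry.toContinuousLinearMap = ContinuousLinearMap.id ℂ _ := by
  ext1 x
  apply ext_inner_left ℂ
  intro y
  rw [ContinuousLinearMap.comp_apply, ContinuousLinearMap.adjoint_inner_right]
  simp

theorem BD_mul (b b' : ∀ j, Eu (n j) →L[ℂ] Eu (n j)) {C C' : ℝ} (hb : ∀ j, ‖b j‖ ≤ C)
    (hb' : ∀ j, ‖b' j‖ ≤ C') : BD W hW (fun j => b j * b' j) = BD W hW b * BD W hW b' := by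
  have hC : ∀ j, 0 ≤ C := fun j => (norm_nonneg _).trans (hb j)
  have h1 : diagL (fun j => b j * b' j) = diagL b ∘L diagL b' := by
    ext f j : 3
    rw [diagL_apply (C := C * C') _ (fun j =>
      (norm_mul_le _ _).trans (mul_le_mul (hb j) (hb' j) (norm_nonneg _) (hC j)))]
    simp [diagL_apply b hb, diagL_apply b' hb']
  unfold BD
  rw [h1]
  ext1 x
  simp only [mul_apply_eq_comp, ContinuousLinearMap.comp_apply]
  have h2 : ∀ z, adjoint hW.linearIsometry.toContinuousLinearMap
      (hW.linearIsometry.toContinuousLinearMap z) = z := fun z =>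
    congrArg (fun f => f z) (adjoint_comp_self W hW)
  rw [h2]

theorem BD_star (b : ∀ j, Eu (n j) →L[ℂ] Eu (n j)) {C : ℝ} (hb : ∀ j, ‖b j‖ ≤ C) :
    BD W hW (fun j => star (b j)) = star (BD W hW b) := by
  have h1 : diagL (fun j => star (b j)) = adjoint (diagL b) := by
    rw [ContinuousLinearMap.eq_adjoint_iff]
    intro f g
    rw [lp.inner_eq_tsum, lp.inner_eq_tsum]
    apply tsum_congr
    intro j
    rw [diagL_apply (C := C) _ (fun j => by
      rw [ContinuousLinearMap.star_eq_adjoint, LinearIsometryEquiv.norm_map]; exact hb j), diagL_apply b hb,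
      ContinuousLinearMap.star_eq_adjoint, ContinuousLinearMap.adjoint_inner_left]
  unfold BD
  rw [h1, ContinuousLinearMap.star_eq_adjoint, ContinuousLinearMap.adjoint_comp,
    ContinuousLinearMap.adjoint_comp, ContinuousLinearMap.adjoint_adjoint]
  rfl

end BD

end

end Pool.Agent.Roe
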