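import Mathlib
import Pool.Agent.Work.MP_80b727_an.Defs

/-!
# Complete positivity lemmas
-/

namespace Pool.Agent.Roe

open scoped ENNReal InnerProductSpace CStarAlgebra
open ContinuousLinearMap (adjoint)

noncomputable section

theorem nonneg_exists {A : Type*} [NonUnitalCStarAlgebra A] [PartialOrder A] [StarOrderedRing A]
    {a : A} (ha : 0 ≤ a) : ∃ b : A, a = star b * b := by
  refine ⟨CFC.sqrt a, ?_⟩
  have h1 : IsSelfAdjoint (CFC.sqrt a) := (CFC.sqrt_nonneg a).isSelfAdjoint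
  rw [h1.star_eq, CFC.sqrt_mul_sqrt_self a ha]

theorem exists_negPart_sqrt {A : Type*} [NonUnitalCStarAlgebra A] [PartialOrder A]
    [StarOrderedRing A] {M : A} (hM : IsSelfAdjoint M) :
    ∃ N K : A, star N = N ∧ N = star K * K ∧ N * M * N = - (star (K * N) * (K * N)) ∧
      (K * N = 0 → 0 ≤ M) := by
  have hN0 : 0 ≤ M⁻ := CFC.negPart_nonneg M
  have hP0 : 0 ≤ M⁺ := CFC.posPart_nonneg M
  have hM2 : M⁺ - M⁻ = M := CFC.posPart_sub_negPart M hM
  have h3 : M⁻ * M⁺ = 0 := CFC.negPart_mul_posPart M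
  generalize M⁻ = N at *
  generalize M⁺ = P at *
  have hNsa : star N = N := hN0.isSelfAdjoint.star_eq
  obtain ⟨K, hK⟩ := nonneg_exists hN0
  refine ⟨N, K, hNsa, hK, ?_, ?_⟩
  · have h1 : star (K * N) * (K * N) = N * N * N := by
      rw [star_mul, hNsa]
      have h2 : N * star K * (K * N) = N * (star K * K) * N := by simp only [mul_assoc]
      rw [h2, ← hK]
    rw [h1, ← hM2, mul_sub, h3, zero_sub, neg_mul]
  · intro h5
    have h16 : star N * N = 0 := by
      have h6 : star K * (K * N) = N * N := by rw [← mul_assoc, ← hK]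
      rw [hNsa, ← h6, h5, mul_zero]
    have h17 : N = 0 := (CStarRing.star_mul_self_eq_zero_iff N).1 h16
    rw [← hM2, h17, sub_zero]
    exact hP0

theorem isCP_of_starHom {A B : Type*} [NonUnitalCStarAlgebra A] [NonUnitalCStarAlgebra B]
    (f : A →⋆ₙₐ[ℂ] B) (g : A →ₗ[ℂ] B) (hg : ∀ a, g a = f a) : IsCP g := by
  unfold IsCP
  let _ := CStarAlgebra.spectralOrder A
  let _ := CStarAlgebra.spectralOrderedRing A
  let _ := CStarAlgebra.spectralOrder B
  let _ := CStarAlgebra.spectralOrderedRing B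
  refine ⟨⟨g, fun k M hM => ?_⟩, rfl⟩
  have h2 : M.map g = CStarMatrix.mapₙₐ f M := by
    ext i j
    exact hg _
  change 0 ≤ M.map g
  rw [h2]
  exact map_nonneg _ hM

theorem isCP_sum {A B : Type*} [NonUnitalCStarAlgebra A] [NonUnitalCStarAlgebra B]
    {ι : Type*} (s : Finset ι) (f : ι → (A →ₗ[ℂ] B)) (h : ∀ i ∈ s, IsCP (f i)) :
    IsCP (∑ i ∈ s, f i) := by
  unfold IsCP at *
  let _ := CStarAlgebra.spectralOrder A
  let _ := CStarAlgebra.spectralOrderedRing A
  let _ := CStarAlgebra.spectralOrder B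
  let _ := CStarAlgebra.spectralOrderedRing B
  refine ⟨⟨∑ i ∈ s, f i, fun k M hM => ?_⟩, rfl⟩
  have h2 : M.map ((∑ i ∈ s, f i : A →ₗ[ℂ] B) : A → B) = ∑ i ∈ s, M.map (f i) := by
    clear h
    classical
    induction s using Finset.induction_on with
    | empty => ext i j; simp
    | insert a s ha ih =>
      rw [Finset.sum_insert ha, Finset.sum_insert ha, ← ih]
      ext i j
      rfl
  change 0 ≤ M.map ((∑ i ∈ s, f i : A →ₗ[ℂ] B) : A → B)
  rw [h2]
  apply Finset.sum_nonneg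
  intro i hi
  obtain ⟨g, hg⟩ := h i hi
  rw [← hg]
  exact g.map_cstarMatrix_nonneg' k M hM


theorem isCP_pi {A : Type*} [NonUnitalCStarAlgebra A] {ι : Type*} [Fintype ι] {B : ι → Type*}
    [∀ i, NonUnitalCStarAlgebra (B i)] (f : A →ₗ[ℂ] (∀ i, B i))
    (h : ∀ i, IsCP ((LinearMap.proj i : (∀ i, B i) →ₗ[ℂ] B i) ∘ₗ f)) : IsCP f := by
  unfold IsCP at *
  let _ := CStarAlgebra.spectralOrder A
  let _ := CStarAlgebra.spectralOrderedRing A
  let _ := CStarAlgebra.spectralOrder (∀ i, B i)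
  let _ := CStarAlgebra.spectralOrderedRing (∀ i, B i)
  refine ⟨⟨f, fun k M hM => ?_⟩, rfl⟩
  have h1 : ∀ i, ∃ C : CStarMatrix (Fin k) (Fin k) (B i),
      ∀ a b, (f (M a b)) i = ∑ l, star (C l a) * C l b := by
    intro i
    let _ := CStarAlgebra.spectralOrder (B i)
    let _ := CStarAlgebra.spectralOrderedRing (B i)
    obtain ⟨g, hg⟩ := h i
    have h2 := g.map_cstarMatrix_nonneg' k M hM
    obtain ⟨C, hC⟩ := nonneg_exists h2
    refine ⟨C, fun a b => ?_⟩
    have h3 := congrFun (congrFun hC a) b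
    rw [hg] at h3
    rw [CStarMatrix.map_apply] at h3
    change (f (M a b)) i = _ at h3
    rw [h3]
    rw [CStarMatrix.mul_apply]
    rfl
  choose C hC using h1
  let D : CStarMatrix (Fin k) (Fin k) (∀ i, B i) := CStarMatrix.ofMatrix (fun a b i => C i a b)
  have h4 : M.map f = star D * D := by
    ext a b i
    rw [CStarMatrix.map_apply, CStarMatrix.mul_apply, Finset.sum_apply, hC i a b]
    rfl
  change 0 ≤ M.map f
  rw [h4]
  exact star_mul_self_nonneg D

theorem quad_mul {E : Type*} [NormedAddCommGroup E] [InnerProductSpace ℂ E]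
    [CompleteSpace E] {k : ℕ} (L : CStarMatrix (Fin k) (Fin k) (E →L[ℂ] E)) (i : Fin k) (v : E) :
    (inner ℂ v ((- (star L * L) : CStarMatrix (Fin k) (Fin k) (E →L[ℂ] E)) i i v)).re =
      - ∑ l, ‖L l i v‖ ^ 2 := by
  rw [CStarMatrix.neg_apply, CStarMatrix.mul_apply]
  have h1 : (∑ j, (star L) i j * L j i) v = ∑ j, adjoint (L j i) (L j i v) := by
    rw [sum_apply]
    rfl
  rw [neg_apply, h1, inner_neg_right, inner_sum, Complex.neg_re, Complex.re_sum]
  congr 1
  refine Finset.sum_congr rfl fun l _ => ?_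
  rw [ContinuousLinearMap.adjoint_inner_right, inner_self_eq_norm_sq_to_K]
  norm_cast

theorem quad_conj {E : Type*} [NormedAddCommGroup E] [InnerProductSpace ℂ E]
    [CompleteSpace E] {k : ℕ} (N M : CStarMatrix (Fin k) (Fin k) (E →L[ℂ] E))
    (hN : star N = N) (i : Fin k) (v : E) :
    inner ℂ v ((N * M * N) i i v) = ∑ a, ∑ b, inner ℂ (N a i v) (M a b (N b i v)) := by
  have h1 : (N * M * N) i i v = ∑ a, N i a (∑ b, M a b (N b i v)) := by
    rw [mul_assoc, CStarMatrix.mul_apply, sum_apply]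
    refine Finset.sum_congr rfl fun a _ => ?_
    change N i a ((M * N) a i v) = _
    rw [CStarMatrix.mul_apply, sum_apply]
    rfl
  rw [h1, inner_sum]
  refine Finset.sum_congr rfl fun a _ => ?_
  have h2 : N i a = adjoint (N a i) := by
    conv_lhs => rw [← hN]
    rfl
  rw [h2, ContinuousLinearMap.adjoint_inner_right, inner_sum]

/-- Quadratic form criterion for positivity of an operator matrix. -/
theorem nonneg_of_quad {E : Type*} [NormedAddCommGroup E] [InnerProductSpace ℂ E]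
    [CompleteSpace E] [PartialOrder (E →L[ℂ] E)] [StarOrderedRing (E →L[ℂ] E)] {k : ℕ}
    (M : CStarMatrix (Fin k) (Fin k) (E →L[ℂ] E)) (hM : IsSelfAdjoint M)
    (hq : ∀ v : Fin k → E, 0 ≤ (∑ i, ∑ j, inner ℂ (v i) (M i j (v j))).re) : 0 ≤ M := by
  obtain ⟨N, K, hN, _, h1, h2⟩ := exists_negPart_sqrt hM
  apply h2
  generalize K * N = L at *
  have h6 : ∀ (i : Fin k) (v : E), ∑ l, ‖L l i v‖ ^ 2 = 0 := by
    intro i v
    have h7 := quad_mul L i v
    rw [← h1, quad_conj N M hN i v] at h7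
    have h9 := hq (fun j => N j i v)
    rw [h7] at h9
    have h12 : 0 ≤ ∑ l, ‖L l i v‖ ^ 2 := Finset.sum_nonneg fun _ _ => by positivity
    linarith
  ext l i v
  have h13 := h6 i v
  rw [Finset.sum_eq_zero_iff_of_nonneg (fun _ _ => by positivity)] at h13
  have h14 := h13 l (Finset.mem_univ l)
  have h15 : ‖L l i v‖ = 0 := (pow_eq_zero_iff (two_ne_zero)).1 h14
  rw [norm_eq_zero] at h15
  rw [h15]
  rfl


theorem isCP_compress {H E : Type*} [NormedAddCommGroup H] [InnerProductSpace ℂ H]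
    [CompleteSpace H] [NormedAddCommGroup E] [InnerProductSpace ℂ E] [CompleteSpace E]
    (A : StarSubalgebra ℂ (H →L[ℂ] H)) [IsClosed (A : Set (H →L[ℂ] H))]
    (Z : E →L[ℂ] H) (f : A →ₗ[ℂ] (E →L[ℂ] E))
    (hf : ∀ a : A, f a = (adjoint Z) ∘L (a : H →L[ℂ] H) ∘L Z) : IsCP f := by
  unfold IsCP
  let _ := CStarAlgebra.spectralOrder A
  let _ := CStarAlgebra.spectralOrderedRing A
  let _ := CStarAlgebra.spectralOrder (E →L[ℂ] E)
  let _ := CStarAlgebra.spectralOrderedRing (E →L[ℂ] E)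
  refine ⟨⟨f, fun k M hM => ?_⟩, rfl⟩
  obtain ⟨B, hB⟩ := nonneg_exists hM
  have h1 : ∀ i j, ((M i j : A) : H →L[ℂ] H) =
      ∑ l, adjoint (B l i : H →L[ℂ] H) ∘L (B l j : H →L[ℂ] H) := by
    intro i j
    rw [hB, CStarMatrix.mul_apply, AddSubmonoidClass.coe_finsetSum]
    rfl
  have h2 : ∀ i j v, f (M i j) v = ∑ l, adjoint Z (adjoint (B l i : H →L[ℂ] H)
      ((B l j : H →L[ℂ] H) (Z v))) := by
    intro i j v
    rw [hf, h1]
    change adjoint Z ((∑ l, adjoint (B l i : H →L[ℂ] H) ∘L (B l j : H →L[ℂ] H)) (Z v)) = _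
    rw [sum_apply, map_sum]
    rfl
  have h3 : ∀ i j u v, inner ℂ u (f (M i j) v) =
      ∑ l, inner ℂ ((B l i : H →L[ℂ] H) (Z u)) ((B l j : H →L[ℂ] H) (Z v)) := by
    intro i j u v
    rw [h2, inner_sum]
    refine Finset.sum_congr rfl fun l _ => ?_
    rw [ContinuousLinearMap.adjoint_inner_right, ContinuousLinearMap.adjoint_inner_right]
  change 0 ≤ M.map f
  apply nonneg_of_quad
  · have h4 : star (M.map f) = M.map f := by
      ext i j v
      refine ext_inner_left ℂ fun u => ?_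
      rw [CStarMatrix.star_apply, CStarMatrix.map_apply, CStarMatrix.map_apply,
        ContinuousLinearMap.star_eq_adjoint, ContinuousLinearMap.adjoint_inner_right,
        ← inner_conj_symm, h3, h3, map_sum]
      refine Finset.sum_congr rfl fun l _ => ?_
      rw [inner_conj_symm]
    exact h4
  · intro v
    have h5 : (∑ i, ∑ j, inner ℂ (v i) ((M.map f) i j (v j))) =
        ∑ l, inner ℂ (∑ i, (B l i : H →L[ℂ] H) (Z (v i))) (∑ j, (B l j : H →L[ℂ] H) (Z (v j))) := by
      have h6 : ∀ i j, inner ℂ (v i) ((M.map f) i j (v j)) =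
          ∑ l, inner ℂ ((B l i : H →L[ℂ] H) (Z (v i))) ((B l j : H →L[ℂ] H) (Z (v j))) := by
        intro i j
        rw [CStarMatrix.map_apply, h3]
      simp only [h6]
      have h7 : ∀ i, (∑ j, ∑ l, inner ℂ ((B l i : H →L[ℂ] H) (Z (v i)))
          ((B l j : H →L[ℂ] H) (Z (v j)))) = ∑ l, ∑ j, inner ℂ ((B l i : H →L[ℂ] H) (Z (v i)))
          ((B l j : H →L[ℂ] H) (Z (v j))) := fun i => Finset.sum_comm
      rw [Finset.sum_congr rfl fun i _ => h7 i, Finset.sum_comm]
      refine Finset.sum_congr rfl fun l _ => ?_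
      rw [sum_inner]
      refine Finset.sum_congr rfl fun i _ => ?_
      rw [inner_sum]
    rw [h5, Complex.re_sum]
    apply Finset.sum_nonneg
    intro l _
    exact inner_self_nonneg (𝕜 := ℂ)

end

end Pool.Agent.Roe
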