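import Mathlib
import Pool.Agent.Work.MP_80b727_an.Defs
import Pool.Agent.Work.MP_80b727_an.CP
import Pool.Agent.Work.MP_80b727_an.BD

/-!
# Abstract nuclear approximation
-/

namespace Pool.Agent.Roe

open scoped ENNReal InnerProductSpace CStarAlgebra
open ContinuousLinearMap (adjoint)

noncomputable section

section Approx
variable {H : Type*} [NormedAddCommGroup H] [InnerProductSpace ℂ H] [CompleteSpace H]

/-- compression of `a` by `Z` -/
def compr {ν : ℕ} (Z : Eu ν →L[ℂ] H) (a : H →L[ℂ] H) : Eu ν →L[ℂ] Eu ν := adjoint Z ∘L a ∘L Z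

theorem compr_norm_le {ν : ℕ} (Z : Eu ν →L[ℂ] H) (hZ : ‖Z‖ ≤ 1) (a : H →L[ℂ] H) :
    ‖compr Z a‖ ≤ ‖a‖ := by
  have h2 : ‖adjoint Z‖ ≤ 1 := by
    rw [LinearIsometryEquiv.norm_map]
    exact hZ
  unfold compr
  refine (ContinuousLinearMap.opNorm_comp_le _ _).trans ?_
  calc ‖adjoint Z‖ * ‖a ∘L Z‖ ≤ 1 * (‖a‖ * 1) := by
        apply mul_le_mul h2 _ (norm_nonneg _) zero_le_one
        refine (ContinuousLinearMap.opNorm_comp_le _ _).trans ?_
        exact mul_le_mul_of_nonneg_left hZ (norm_nonneg _)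
    _ = ‖a‖ := by ring

/-- finitely many cells of contractions `Z` on which the compressions of `𝓕` are almost constant -/
theorem exists_cells (ν : ℕ) (𝓕 : Finset (H →L[ℂ] H)) (δ : ℝ) (hδ : 0 < δ) :
    ∃ (k : ℕ) (cell : (Eu ν →L[ℂ] H) → Fin k), ∀ Z Z' : Eu ν →L[ℂ] H, ‖Z‖ ≤ 1 → ‖Z'‖ ≤ 1 →
      cell Z = cell Z' → ∀ a ∈ 𝓕, ‖compr Z a - compr Z' a‖ < δ := by
  classical
  set M : ℝ := ∑ a ∈ 𝓕, ‖a‖ with hM
  set Θ : (Eu ν →L[ℂ] H) → (𝓕 → (Eu ν →L[ℂ] Eu ν)) := fun Z a => compr Z a.1 with hΘ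
  have hM0 : 0 ≤ M := Finset.sum_nonneg (fun _ _ => norm_nonneg _)
  have hΘM : ∀ Z : Eu ν →L[ℂ] H, ‖Z‖ ≤ 1 →
      Θ Z ∈ Metric.closedBall (0 : 𝓕 → (Eu ν →L[ℂ] Eu ν)) M := by
    intro Z hZ
    rw [mem_closedBall_zero_iff, pi_norm_le_iff_of_nonneg hM0]
    intro a
    refine (compr_norm_le Z hZ a.1).trans ?_
    exact Finset.single_le_sum (f := fun a : H →L[ℂ] H => ‖a‖) (fun _ _ => norm_nonneg _) a.2
  have hTB : TotallyBounded (Metric.closedBall (0 : 𝓕 → (Eu ν →L[ℂ] Eu ν)) M) :=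
    (isCompact_closedBall _ _).totallyBounded
  rw [Metric.totallyBounded_iff] at hTB
  obtain ⟨t, ht, hcov⟩ := hTB (δ / 2) (by positivity)
  have hex : ∀ Z : Eu ν →L[ℂ] H, ‖Z‖ ≤ 1 → ∃ y : ht.toFinset, Θ Z ∈ Metric.ball y.1 (δ / 2) := by
    intro Z hZ
    have h1 := hcov (hΘM Z hZ)
    rw [Set.mem_iUnion₂] at h1
    obtain ⟨y, hy, hy2⟩ := h1
    exact ⟨⟨y, by rwa [Set.Finite.mem_toFinset]⟩, hy2⟩
  set e := ht.toFinset.equivFin with he
  refine ⟨ht.toFinset.card + 1, fun Z => if h : ‖Z‖ ≤ 1 then (e (hex Z h).choose).castSucc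
    else Fin.last _, ?_⟩
  intro Z Z' hZ hZ' hcell a ha
  beta_reduce at hcell
  rw [dif_pos hZ, dif_pos hZ', Fin.castSucc_inj, e.injective.eq_iff] at hcell
  have h1 := (hex Z hZ).choose_spec
  have h2 := (hex Z' hZ').choose_spec
  rw [← hcell] at h2
  have h3 : dist (Θ Z) (Θ Z') < δ := by
    have := dist_triangle_right (Θ Z) (Θ Z') (hex Z hZ).choose.1
    rw [Metric.mem_ball] at h1 h2
    linarith
  have h4 := (dist_pi_lt_iff hδ).mp h3 ⟨a, ha⟩
  rwa [dist_eq_norm] at h4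

theorem exists_gap {ι : Type*} (s : Finset ι) (f : ι → ℝ) (ε : ℝ) (h : ∀ i ∈ s, f i < ε) :
    ∃ η > 0, ∀ i ∈ s, f i + η < ε := by
  classical
  induction s using Finset.induction_on with
  | empty => exact ⟨1, one_pos, by simp⟩
  | insert a s ha ih =>
    obtain ⟨η, hη, h1⟩ := ih (fun i hi => h i (Finset.mem_insert_of_mem hi))
    have h2 := h a (Finset.mem_insert_self a s)
    refine ⟨min η ((ε - f a) / 2), lt_min hη (by linarith), ?_⟩
    intro i hi
    rcases Finset.mem_insert.mp hi with rfl | hi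
    · have := min_le_right η ((ε - f i) / 2)
      linarith
    · have := min_le_left η ((ε - f a) / 2)
      have := h1 i hi
      linarith

theorem BD_sub_norm_le {J : Type} {n : J → ℕ} (W : ∀ j, Eu (n j) →ₗᵢ[ℂ] H)
    (hW : OrthogonalFamily ℂ (fun j => Eu (n j)) W) (b b' : ∀ j, Eu (n j) →L[ℂ] Eu (n j))
    {C δ : ℝ} (hb' : ∀ j, ‖b' j‖ ≤ C) (hδ : 0 ≤ δ) (h : ∀ j, ‖b j - b' j‖ ≤ δ) :
    ‖BD W hW b - BD W hW b'‖ ≤ δ := by
  have h1 : BD W hW b = BD W hW (fun j => b j - b' j) + BD W hW b' := by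
    rw [← BD_add W hW _ _ h hb']
    congr 1
    funext j
    simp
  rw [h1, add_sub_cancel_right]
  exact BD_norm_le W hW _ hδ h

/-- The `*`-homomorphism given by the block diagonal operators. -/
def bdHom (A : StarSubalgebra ℂ (H →L[ℂ] H)) [IsClosed (A : Set (H →L[ℂ] H))]
    {T : Type} [Fintype T] (d : T → ℕ) {J : Type} (cls : J → T)
    (W : ∀ j, Eu (d (cls j)) →ₗᵢ[ℂ] H)
    (hW : OrthogonalFamily ℂ (fun j => Eu (d (cls j))) W)
    (hBD : ∀ (b : ∀ j, Eu (d (cls j)) →L[ℂ] Eu (d (cls j))) (C : ℝ), (∀ j, ‖b j‖ ≤ C) →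
      BD W hW b ∈ A) :
    (∀ τ : T, Eu (d τ) →L[ℂ] Eu (d τ)) →⋆ₙₐ[ℂ] A where
  toFun b := ⟨BD W hW (fun j => b (cls j)), hBD _ ‖b‖ (fun j => norm_le_pi_norm b (cls j))⟩
  map_smul' c b := by
    ext1
    exact BD_smul W hW c _ (fun j => norm_le_pi_norm b (cls j))
  map_zero' := by
    ext1
    have h := BD_norm_le W hW (fun j => (0 : Eu (d (cls j)) →L[ℂ] Eu (d (cls j)))) le_rfl
      (fun j => by simp)
    exact norm_le_zero_iff.mp h
  map_add' b b' := by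
    ext1
    exact BD_add W hW _ _ (fun j => norm_le_pi_norm b (cls j))
      (fun j => norm_le_pi_norm b' (cls j))
  map_mul' b b' := by
    ext1
    exact BD_mul W hW _ _ (fun j => norm_le_pi_norm b (cls j))
      (fun j => norm_le_pi_norm b' (cls j))
  map_star' b := by
    ext1
    exact BD_star W hW _ (fun j => norm_le_pi_norm b (cls j))

theorem nucApprox (A : StarSubalgebra ℂ (H →L[ℂ] H)) [IsClosed (A : Set (H →L[ℂ] H))]
    (𝓕 : Finset A) (ε : ℝ) (hε : 0 < ε) (m : ℕ) (J : Fin (m + 1) → Type)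
    (n : ∀ c, J c → ℕ) (N : ℕ) (hn : ∀ c j, n c j ≤ N)
    (W : ∀ c j, Eu (n c j) →ₗᵢ[ℂ] H)
    (hW : ∀ c, OrthogonalFamily ℂ (fun j => Eu (n c j)) (W c))
    (Z : ∀ c j, Eu (n c j) →L[ℂ] H) (hZ : ∀ c j, ‖Z c j‖ ≤ 1)
    (hBD : ∀ c (b : ∀ j, Eu (n c j) →L[ℂ] Eu (n c j)) (C : ℝ), (∀ j, ‖b j‖ ≤ C) →
      BD (W c) (hW c) b ∈ A)
    (hT : ∀ a ∈ 𝓕, ‖(∑ c, BD (W c) (hW c) (fun j => adjoint (Z c j) ∘L (a : H →L[ℂ] H) ∘L Z c j))
      - (a : H →L[ℂ] H)‖ < ε) :
    ∃ (F : Fin (m + 1) → Type) (_ : ∀ i, CStarAlgebra (F i))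
      (_ : ∀ i, FiniteDimensional ℂ (F i))
      (ψ : A →ₗ[ℂ] (∀ i, F i)) (φ : (∀ i, F i) →ₗ[ℂ] A),
      IsCP ψ ∧ (∀ a, ‖ψ a‖ ≤ ‖a‖) ∧ IsCP φ ∧
      (∀ i, (∀ b : F i, ‖φ (Pi.single i b)‖ ≤ ‖b‖) ∧
        OrderZero (φ ∘ₗ LinearMap.single ℂ F i)) ∧
      ∀ a ∈ 𝓕, ‖φ (ψ a) - a‖ < ε := by
  classical
  have _ := hε
  obtain ⟨η, hη, hgap⟩ := exists_gap 𝓕 _ ε hT
  set δ : ℝ := η / (m + 1) with hδ
  have hδ0 : 0 < δ := by positivity
  set 𝓕' : Finset (H →L[ℂ] H) := Finset.image (fun a : A => (a : H →L[ℂ] H)) 𝓕 with h𝓕'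
  have hcells := fun ν : ℕ => exists_cells ν 𝓕' δ hδ0
  choose k cell hcell using hcells
  let T : Type := Σ ν : Fin (N + 1), Fin (k ν)
  let d : T → ℕ := fun τ => τ.1
  let rep : ∀ τ : T, Eu (d τ) →L[ℂ] H := fun τ =>
    if h : ∃ Z : Eu (d τ) →L[ℂ] H, ‖Z‖ ≤ 1 ∧ cell (d τ) Z = τ.2 then h.choose else 0
  have hrep1 : ∀ τ, ‖rep τ‖ ≤ 1 := by
    intro τ
    by_cases h : ∃ Z : Eu (d τ) →L[ℂ] H, ‖Z‖ ≤ 1 ∧ cell (d τ) Z = τ.2
    · have : rep τ = h.choose := dif_pos h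
      rw [this]
      exact h.choose_spec.1
    · have : rep τ = 0 := dif_neg h
      rw [this, norm_zero]
      exact zero_le_one
  let cls : ∀ c, J c → T := fun c j => ⟨⟨n c j, Nat.lt_succ_of_le (hn c j)⟩, cell (n c j) (Z c j)⟩
  have hrep2 : ∀ c j, ∀ a ∈ 𝓕', ‖compr (rep (cls c j)) a - compr (Z c j) a‖ ≤ δ := by
    intro c j a ha
    have hex : ∃ Z' : Eu (d (cls c j)) →L[ℂ] H, ‖Z'‖ ≤ 1 ∧
        cell (d (cls c j)) Z' = (cls c j).2 := ⟨Z c j, hZ c j, rfl⟩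
    have h1 : rep (cls c j) = hex.choose := dif_pos hex
    have h2 := hex.choose_spec.2
    rw [← h1] at h2
    exact (hcell (n c j) (rep (cls c j)) (Z c j) (hrep1 _) (hZ c j) h2 a ha).le
  let hom : ∀ c, (∀ τ : T, Eu (d τ) →L[ℂ] Eu (d τ)) →⋆ₙₐ[ℂ] A := fun c =>
    bdHom A d (cls c) (W c) (hW c) (hBD c)
  have hhom : ∀ c b, ((hom c b : A) : H →L[ℂ] H) = BD (W c) (hW c) (fun j => b (cls c j)) :=
    fun c b => rfl
  have hhomn : ∀ c b, ‖hom c b‖ ≤ ‖b‖ := by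
    intro c b
    show ‖((hom c b : A) : H →L[ℂ] H)‖ ≤ ‖b‖
    rw [hhom]
    exact BD_norm_le _ _ _ (norm_nonneg b) (fun j => norm_le_pi_norm b (cls c j))
  let F : Fin (m + 1) → Type := fun _ => ∀ τ : T, Eu (d τ) →L[ℂ] Eu (d τ)
  let ψ : A →ₗ[ℂ] (∀ i, F i) :=
    { toFun := fun a _ τ => compr (rep τ) (a : H →L[ℂ] H)
      map_add' := by
        intro a b
        funext i τ
        show adjoint (rep τ) ∘L ((a : H →L[ℂ] H) + (b : H →L[ℂ] H)) ∘L rep τ = _
        rw [ContinuousLinearMap.add_comp, ContinuousLinearMap.comp_add]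
        rfl
      map_smul' := by
        intro c a
        funext i τ
        show adjoint (rep τ) ∘L (c • (a : H →L[ℂ] H)) ∘L rep τ = _
        rw [ContinuousLinearMap.smul_comp, ContinuousLinearMap.comp_smul]
        rfl }
  let φc : ∀ c, (∀ i, F i) →ₗ[ℂ] A := fun c =>
    { toFun := fun b => hom c (b c)
      map_add' := by
        intro a b
        exact map_add (hom c) (a c) (b c)
      map_smul' := by
        intro r a
        exact map_smul (hom c) r (a c) }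
  let φ : (∀ i, F i) →ₗ[ℂ] A := ∑ c, φc c
  have hφ : ∀ b, φ b = ∑ c, hom c (b c) := by
    intro b
    show (∑ c, φc c) b = _
    rw [LinearMap.sum_apply]
    rfl
  have hφs : ∀ i (b : F i), φ (Pi.single i b) = hom i b := by
    intro i b
    rw [hφ, Finset.sum_eq_single i]
    · rw [Pi.single_eq_same]
    · intro c _ hc
      rw [Pi.single_eq_of_ne hc, map_zero]
    · intro h
      exact absurd (Finset.mem_univ i) h
  refine ⟨F, fun i => inferInstanceAs (CStarAlgebra (∀ τ : T, Eu (d τ) →L[ℂ] Eu (d τ))),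
    fun i => inferInstanceAs (FiniteDimensional ℂ (∀ τ : T, Eu (d τ) →L[ℂ] Eu (d τ))),
    ψ, φ, ?_, ?_, ?_, ?_, ?_⟩
  · -- ψ is completely positive
    apply isCP_pi
    intro i
    apply isCP_pi
    intro τ
    apply isCP_compress A (rep τ)
    intro a
    rfl
  · -- ψ is contractive
    intro a
    rw [pi_norm_le_iff_of_nonneg (norm_nonneg _)]
    intro i
    rw [pi_norm_le_iff_of_nonneg (norm_nonneg _)]
    intro τ
    exact compr_norm_le (rep τ) (hrep1 τ) (a : H →L[ℂ] H)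
  · -- φ is completely positive
    apply isCP_sum
    intro c _
    exact isCP_of_starHom ((hom c).comp (Pi.evalNonUnitalStarAlgHom ℂ F c)) (φc c)
      (fun a => rfl)
  · intro i
    refine ⟨?_, ?_⟩
    · intro b
      rw [hφs]
      exact hhomn i b
    · intro x y hxy
      show φ (Pi.single i (star x * x)) * φ (Pi.single i (star y * y)) = 0
      rw [hφs, hφs, ← map_mul, hxy, map_zero]
  · intro a ha
    have hg := hgap a ha
    have h1 : ‖((φ (ψ a) - a : A) : H →L[ℂ] H)‖ < ε := by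
      have h2 : ((φ (ψ a) - a : A) : H →L[ℂ] H) =
          (∑ c, (BD (W c) (hW c) (fun j => compr (rep (cls c j)) (a : H →L[ℂ] H)) -
            BD (W c) (hW c) (fun j => compr (Z c j) (a : H →L[ℂ] H)))) +
          ((∑ c, BD (W c) (hW c) (fun j => compr (Z c j) (a : H →L[ℂ] H))) -
            (a : H →L[ℂ] H)) := by
        rw [hφ, Finset.sum_sub_distrib, sub_add_sub_cancel]
        rw [AddSubgroupClass.coe_sub, AddSubmonoidClass.coe_finsetSum]
        rfl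
      rw [h2]
      have h3 : ‖∑ c, (BD (W c) (hW c) (fun j => compr (rep (cls c j)) (a : H →L[ℂ] H)) -
            BD (W c) (hW c) (fun j => compr (Z c j) (a : H →L[ℂ] H)))‖ ≤ η := by
        refine (norm_sum_le _ _).trans ?_
        calc ∑ c, ‖BD (W c) (hW c) (fun j => compr (rep (cls c j)) (a : H →L[ℂ] H)) -
              BD (W c) (hW c) (fun j => compr (Z c j) (a : H →L[ℂ] H))‖
            ≤ ∑ _c : Fin (m + 1), δ := by
              apply Finset.sum_le_sum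
              intro c _
              apply BD_sub_norm_le (C := ‖(a : H →L[ℂ] H)‖)
              · intro j
                exact compr_norm_le _ (hZ c j) _
              · exact hδ0.le
              · intro j
                exact hrep2 c j _ (Finset.mem_image_of_mem _ ha)
          _ = η := by
              rw [Finset.sum_const, Finset.card_univ, Fintype.card_fin, nsmul_eq_mul, hδ]
              push_cast
              field_simp
      calc _ ≤ _ := norm_add_le _ _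
        _ ≤ η + ‖(∑ c, BD (W c) (hW c) (fun j => compr (Z c j) (a : H →L[ℂ] H))) -
            (a : H →L[ℂ] H)‖ := by linarith
        _ < ε := by
            have h4 : ‖(∑ c, BD (W c) (hW c) (fun j => compr (Z c j) (a : H →L[ℂ] H))) -
              (a : H →L[ℂ] H)‖ + η < ε := hg
            linarith
    exact h1

end Approx

end

end Pool.Agent.Roe
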