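import Mathlib
import Pool.Agent.Work.MP_80b727_an.Defs

/-! Module S: Schur test on `ℓ²(X)`. -/

set_option autoImplicit false

namespace Pool.Agent.Roe

open Finset

noncomputable section

namespace Schur

variable {X : Type*}

/-- a local structure of bounded degree: `N x` is the set of neighbours of `x`. -/
structure Nb (X : Type*) (m : ℕ) where
  /-- neighbours -/
  N : X → Finset X
  /-- inverse neighbours -/
  M : X → Finset X
  mem_iff : ∀ x y, y ∈ N x ↔ x ∈ M y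
  cardN : ∀ x, (N x).card ≤ m
  cardM : ∀ y, (M y).card ≤ m

variable {m : ℕ}

/-- action of a banded kernel on functions -/
def opFun (nb : Nb X m) (k : X → X → ℂ) (f : X → ℂ) (x : X) : ℂ :=
  ∑ y ∈ nb.N x, k x y * f y

theorem sum_sq_le (f : L2 X) (s : Finset X) : ∑ i ∈ s, ‖f i‖ ^ 2 ≤ ‖f‖ ^ 2 := by
  have h := lp.sum_rpow_le_norm_rpow (p := 2) (by norm_num) f s
  simpa using h

theorem sum_bound (nb : Nb X m) (k : X → X → ℂ) (δ : ℝ) (hk : ∀ x, ∀ y ∈ nb.N x, ‖k x y‖ ≤ δ)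
    (f : L2 X) (s : Finset X) :
    ∑ x ∈ s, ‖opFun nb k f x‖ ^ 2 ≤ (m * δ * ‖f‖) ^ 2 := by
  classical
  have h1 : ∀ x, ‖opFun nb k f x‖ ^ 2 ≤ m * δ ^ 2 * ∑ y ∈ nb.N x, ‖f y‖ ^ 2 := by
    intro x
    have h2 : ‖opFun nb k f x‖ ≤ ∑ y ∈ nb.N x, δ * ‖f y‖ := by
      refine (norm_sum_le _ _).trans (Finset.sum_le_sum fun y hy => ?_)
      rw [norm_mul]
      exact mul_le_mul_of_nonneg_right (hk x y hy) (norm_nonneg _)
    have h3 : ‖opFun nb k f x‖ ^ 2 ≤ (∑ y ∈ nb.N x, δ * ‖f y‖) ^ 2 :=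
      pow_le_pow_left₀ (norm_nonneg _) h2 2
    refine h3.trans ?_
    rw [← Finset.mul_sum, mul_pow]
    have h4 : (∑ y ∈ nb.N x, ‖f y‖) ^ 2 ≤ (nb.N x).card * ∑ y ∈ nb.N x, ‖f y‖ ^ 2 :=
      sq_sum_le_card_mul_sum_sq
    have h5 : ((nb.N x).card : ℝ) ≤ m := by exact_mod_cast nb.cardN x
    have h6 : 0 ≤ ∑ y ∈ nb.N x, ‖f y‖ ^ 2 := Finset.sum_nonneg fun _ _ => by positivity
    have h7 := mul_le_mul_of_nonneg_right h5 h6
    have h8 := mul_le_mul_of_nonneg_left (h4.trans h7) (sq_nonneg δ)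
    linarith
  refine (Finset.sum_le_sum fun x _ => h1 x).trans ?_
  rw [← Finset.mul_sum]
  have h9 : ∑ x ∈ s, ∑ y ∈ nb.N x, ‖f y‖ ^ 2
      = ∑ y ∈ s.biUnion nb.N, ∑ x ∈ s.filter (fun x => y ∈ nb.N x), ‖f y‖ ^ 2 := by
    apply Finset.sum_comm'
    intro x y
    simp only [Finset.mem_biUnion, Finset.mem_filter]
    constructor
    · rintro ⟨h, h'⟩
      exact ⟨⟨h, h'⟩, x, h, h'⟩
    · rintro ⟨⟨h, h'⟩, _⟩
      exact ⟨h, h'⟩
  have h10 : ∑ y ∈ s.biUnion nb.N, ∑ x ∈ s.filter (fun x => y ∈ nb.N x), ‖f y‖ ^ 2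
      ≤ ∑ y ∈ s.biUnion nb.N, (m : ℝ) * ‖f y‖ ^ 2 := by
    refine Finset.sum_le_sum fun y _ => ?_
    rw [Finset.sum_const, nsmul_eq_mul]
    refine mul_le_mul_of_nonneg_right ?_ (by positivity)
    have : (s.filter (fun x => y ∈ nb.N x)).card ≤ (nb.M y).card :=
      Finset.card_le_card fun x hx => (nb.mem_iff x y).1 (Finset.mem_filter.1 hx).2
    exact_mod_cast this.trans (nb.cardM y)
  rw [h9]
  have h11 := sum_sq_le f (s.biUnion nb.N)
  rw [← Finset.mul_sum] at h10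
  have hm : (0 : ℝ) ≤ m := Nat.cast_nonneg m
  calc (m : ℝ) * δ ^ 2 * ∑ y ∈ s.biUnion nb.N, ∑ x ∈ s.filter (fun x => y ∈ nb.N x), ‖f y‖ ^ 2
      ≤ (m : ℝ) * δ ^ 2 * (m * ‖f‖ ^ 2) := by
        refine mul_le_mul_of_nonneg_left (h10.trans ?_) (by positivity)
        exact mul_le_mul_of_nonneg_left h11 hm
    _ = (m * δ * ‖f‖) ^ 2 := by ring

theorem memlp (nb : Nb X m) (k : X → X → ℂ) (δ : ℝ) (hk : ∀ x, ∀ y ∈ nb.N x, ‖k x y‖ ≤ δ)
    (f : L2 X) : Memℓp (E := fun _ : X => ℂ) (opFun nb k f) 2 := by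
  apply memℓp_gen' (C := (m * δ * ‖f‖) ^ 2)
  intro s
  have := sum_bound nb k δ hk f s
  simpa using this

/-- the operator with banded kernel `k` -/
def op (nb : Nb X m) (k : X → X → ℂ) (δ : ℝ) (hk : ∀ x, ∀ y ∈ nb.N x, ‖k x y‖ ≤ δ)
    (hδ : 0 ≤ δ) : L2 X →L[ℂ] L2 X :=
  LinearMap.mkContinuous
    { toFun := fun f => ⟨opFun nb k f, memlp nb k δ hk f⟩
      map_add' := by
        intro f g
        apply lp.ext
        funext x
        show ∑ y ∈ nb.N x, k x y * (f y + g y)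
          = (∑ y ∈ nb.N x, k x y * f y) + ∑ y ∈ nb.N x, k x y * g y
        rw [← Finset.sum_add_distrib]
        exact Finset.sum_congr rfl fun y _ => by ring
      map_smul' := by
        intro c f
        apply lp.ext
        funext x
        show ∑ y ∈ nb.N x, k x y * (c * f y) = c * ∑ y ∈ nb.N x, k x y * f y
        rw [Finset.mul_sum]
        exact Finset.sum_congr rfl fun y _ => by ring }
    (m * δ) (by
      intro f
      apply lp.norm_le_of_forall_sum_le (p := 2) (by norm_num) (by positivity)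
      intro s
      have := sum_bound nb k δ hk f s
      simpa using this)

theorem op_apply (nb : Nb X m) (k : X → X → ℂ) (δ : ℝ) (hk : ∀ x, ∀ y ∈ nb.N x, ‖k x y‖ ≤ δ)
    (hδ : 0 ≤ δ) (f : L2 X) (x : X) : op nb k δ hk hδ f x = ∑ y ∈ nb.N x, k x y * f y := rfl

theorem op_norm_le (nb : Nb X m) (k : X → X → ℂ) (δ : ℝ) (hk : ∀ x, ∀ y ∈ nb.N x, ‖k x y‖ ≤ δ)
    (hδ : 0 ≤ δ) : ‖op nb k δ hk hδ‖ ≤ m * δ :=
  LinearMap.mkContinuous_norm_le _ (by positivity) _

open Classical in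
theorem entry_op (nb : Nb X m) (k : X → X → ℂ) (δ : ℝ) (hk : ∀ x, ∀ y ∈ nb.N x, ‖k x y‖ ≤ δ)
    (hδ : 0 ≤ δ) (x y : X) : entry (op nb k δ hk hδ) x y = if y ∈ nb.N x then k x y else 0 := by
  rw [entry_eq, op_apply]
  simp only [delta_apply, mul_ite, mul_one, mul_zero, Finset.sum_ite_eq']

/-- an operator is determined by its matrix -/
theorem ext_entry (S T : L2 X →L[ℂ] L2 X) (h : ∀ x y, entry S x y = entry T x y) : S = T := by
  classical
  have h1 : ∀ y, S (delta y) = T (delta y) := by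
    intro y
    apply lp.ext
    funext x
    have := h x y
    rwa [entry_eq, entry_eq] at this
  ext1 f
  have h2 : ∀ y (a : ℂ), (lp.single 2 y a : L2 X) = a • delta y := by
    intro y a
    apply lp.ext
    funext x
    rw [lp.coeFn_smul, Pi.smul_apply, delta_apply]
    by_cases hx : x = y
    · subst hx
      rw [lp.single_apply_self, if_pos rfl, smul_eq_mul, mul_one]
    · rw [lp.single_apply_ne _ _ _ hx, if_neg hx, smul_zero]
  have h3 := lp.hasSum_single (p := 2) (by norm_num) f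
  have h4 := h3.mapL S
  have h5 := h3.mapL T
  have h6 : (fun i => S (lp.single 2 i (f i))) = fun i => T (lp.single 2 i (f i)) := by
    funext i
    rw [h2, map_smul, map_smul, h1]
  rw [h6] at h4
  exact h4.unique h5

end Schur

/-- Schur test. -/
theorem opNorm_le_of_entries {X : Type*} (T : L2 X →L[ℂ] L2 X) (N : ℕ) (δ : ℝ) (hδ : 0 ≤ δ)
    (h : ∀ x y, ‖entry T x y‖ ≤ δ) (hrow : ∀ x, {y | entry T x y ≠ 0}.encard ≤ N)
    (hcol : ∀ y, {x | entry T x y ≠ 0}.encard ≤ N) : ‖T‖ ≤ N * δ := by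
  classical
  have hrf : ∀ x, {y | entry T x y ≠ 0}.Finite := fun x =>
    Set.finite_of_encard_le_coe (hrow x)
  have hcf : ∀ y, {x | entry T x y ≠ 0}.Finite := fun y =>
    Set.finite_of_encard_le_coe (hcol y)
  let nb : Schur.Nb X N :=
    { N := fun x => (hrf x).toFinset
      M := fun y => (hcf y).toFinset
      mem_iff := by
        intro x y
        simp
      cardN := by
        intro x
        have h1 := hrow x
        rw [(hrf x).encard_eq_coe_toFinset_card] at h1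
        exact_mod_cast h1
      cardM := by
        intro y
        have h1 := hcol y
        rw [(hcf y).encard_eq_coe_toFinset_card] at h1
        exact_mod_cast h1 }
  have h2 : T = Schur.op nb (entry T) δ (fun x y _ => h x y) hδ := by
    apply Schur.ext_entry
    intro x y
    rw [Schur.entry_op]
    split_ifs with h3
    · rfl
    · by_contra hne
      apply h3
      show y ∈ (hrf x).toFinset
      rw [Set.Finite.mem_toFinset]
      exact hne
  rw [h2]
  exact Schur.op_norm_le _ _ _ _ _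

end

end Pool.Agent.Roe
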