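import Pool.Agent.Work.MP_80b727_an.Defs
import Pool.Agent.Work.MP_80b727_an.Schur
import Pool.Agent.Work.MP_80b727_an.Approx
import Pool.Agent.Work.MP_80b727_an.CombData

/-! # Module P: from combinatorial partitions of unity to nuclear dimension at most one -/

namespace Pool.Agent.Roe

open scoped ENNReal InnerProductSpace CStarAlgebra
open ContinuousLinearMap (adjoint)

noncomputable section

namespace Part

section basics
variable {X : Type*}

theorem norm_delta (x : X) : ‖(delta x : L2 X)‖ = 1 := by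
  classical
  unfold delta
  rw [lp.norm_single (by norm_num)]
  simp

theorem norm_entry_le (T : L2 X →L[ℂ] L2 X) (x y : X) : ‖entry T x y‖ ≤ ‖T‖ := by
  unfold entry
  refine (norm_inner_le_norm _ _).trans ?_
  rw [norm_delta, one_mul]
  refine (T.le_opNorm _).trans ?_
  rw [norm_delta, mul_one]

/-- operators that agree on the basis are equal -/
theorem ext_delta {S T : L2 X →L[ℂ] L2 X} (h : ∀ y, S (delta y) = T (delta y)) : S = T := by
  classical
  ext1 f
  have h1 := lp.hasSum_single (E := fun _ : X => ℂ) (p := 2) (by norm_num) f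
  have h2 : ∀ y, lp.single (E := fun _ : X => ℂ) 2 y (f y) = f y • (delta y : L2 X) := by
    intro y
    unfold delta
    have := lp.single_smul (𝕜 := ℂ) (E := fun _ : X => ℂ) 2 y (f y) (1 : ℂ)
    rw [smul_eq_mul, mul_one] at this
    rw [this]
  have h3 := h1.mapL S
  have h4 := h1.mapL T
  have h5 : (fun y => S (lp.single (E := fun _ : X => ℂ) 2 y (f y)))
      = fun y => T (lp.single (E := fun _ : X => ℂ) 2 y (f y)) := by
    funext y
    rw [h2 y, map_smul, map_smul, h y]
  rw [h5] at h3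
  exact h3.unique h4

end basics

section zop
variable {X : Type} [MetricSpace X] {ι : Type} {a : ι → X → X → ℂ} {δ : ℝ} {m : ℕ}
  (D : CombData X ι a δ m)

/-- rank one operator `|δ_x⟩⟨δ_y|` -/
def e1 {X : Type} (x y : X) : L2 X →L[ℂ] L2 X := (innerSL ℂ (delta y)).smulRight (delta x)

theorem e1_apply {X : Type} (x y : X) (f : L2 X) : e1 x y f = f y • delta x := by
  unfold e1
  rw [ContinuousLinearMap.smulRight_apply, innerSL_apply_apply, inner_delta_left]

/-- the operator `z_j` -/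
def z (j : D.J) : L2 X →L[ℂ] L2 X :=
  ∑ x ∈ D.P j, ((D.d j x : ℂ) • e1 x x + (D.o j x : ℂ) • e1 x (D.σ x))

theorem z_apply (j : D.J) (f : L2 X) (x : X) :
    (z D j f : L2 X) x = D.d j x * f x + D.o j x * f (D.σ x) := by
  classical
  have h1 : z D j f = ∑ p ∈ D.P j, ((D.d j p : ℂ) * f p + (D.o j p : ℂ) * f (D.σ p)) •
      (delta p : L2 X) := by
    unfold z
    rw [sum_apply]
    refine Finset.sum_congr rfl fun p _ => ?_
    rw [add_apply, smul_apply,
      smul_apply, e1_apply, e1_apply, smul_smul, smul_smul, add_smul]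
  rw [h1, ← inner_delta_left x, inner_sum]
  have h2 : ∀ p ∈ D.P j, inner ℂ (delta x : L2 X)
      (((D.d j p : ℂ) * f p + (D.o j p : ℂ) * f (D.σ p)) • (delta p : L2 X))
      = if p = x then (D.d j x * f x + D.o j x * f (D.σ x)) else 0 := by
    intro p _
    rw [inner_smul_right, inner_delta_left, delta_apply]
    by_cases h : p = x
    · subst h; simp
    · rw [if_neg h, if_neg (Ne.symm h), mul_zero]
  rw [Finset.sum_congr rfl h2, Finset.sum_ite_eq']
  split_ifs with h
  · rfl
  · have hd : D.d j x = 0 := by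
      by_contra hc; exact h (D.d_supp j x hc)
    have ho : D.o j x = 0 := by
      by_contra hc; exact h (D.o_supp j x hc)
    rw [hd, ho]; simp

theorem z_delta (j : D.J) (y : X) :
    z D j (delta y) = (D.d j y : ℂ) • (delta y : L2 X) + (D.o j y : ℂ) • (delta (D.σ y) : L2 X) := by
  classical
  ext p
  rw [z_apply, lp.coeFn_add, Pi.add_apply, lp.coeFn_smul, Pi.smul_apply, lp.coeFn_smul,
    Pi.smul_apply, delta_apply, delta_apply, delta_apply, smul_eq_mul, smul_eq_mul]
  congr 1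
  · by_cases h : p = y
    · subst h; rfl
    · rw [if_neg h]; simp
  · by_cases h : p = D.σ y
    · have h2 : D.σ p = y := by rw [h, D.σσ]
      rw [if_pos h2, if_pos h, h, D.o_σ]
    · have h2 : D.σ p ≠ y := by
        intro h3; apply h; rw [← h3, D.σσ]
      rw [if_neg h2, if_neg h]; simp

theorem z_star (j : D.J) : star (z D j) = z D j := by
  classical
  apply ext_delta
  intro y
  ext x
  rw [← entry_eq, entry_star, entry_eq, z_apply, z_apply, delta_apply, delta_apply, delta_apply,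
    delta_apply]
  rw [star_add, star_mul', star_mul']
  congr 1
  · by_cases h : x = y
    · subst h; simp
    · rw [if_neg h, if_neg (Ne.symm h)]; simp
  · by_cases h : D.σ x = y
    · have h2 : D.σ y = x := by rw [← h, D.σσ]
      have h3 : D.o j y = D.o j x := by rw [← h, D.o_σ]
      rw [if_pos h, if_pos h2, h3]; simp
    · have h2 : D.σ y ≠ x := by
        intro h3; apply h; rw [← h3, D.σσ]
      rw [if_neg h, if_neg h2]; simp

theorem z_adj (j : D.J) : adjoint (z D j) = z D j := by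
  rw [← ContinuousLinearMap.star_eq_adjoint, z_star]

theorem z_inner (j : D.J) (f g : L2 X) : inner ℂ (z D j f) g = inner ℂ f (z D j g) := by
  conv_lhs => rw [← z_adj D j]
  rw [ContinuousLinearMap.adjoint_inner_left]

theorem z_mul_zero {j k : D.J} (hjk : j ≠ k) (hc : D.col j = D.col k) (f : L2 X) :
    z D j (z D k f) = 0 := by
  ext x
  rw [z_apply, z_apply, z_apply, D.σσ, D.o_σ]
  have h1 := D.orth1 j k hjk hc x
  have h2 := D.orth2 j k hjk hc x
  have h1' : (D.d j x : ℂ) * D.d k x + D.o j x * D.o k x = 0 := by exact_mod_cast h1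
  have h2' : (D.d j x : ℂ) * D.o k x + D.o j x * D.d k (D.σ x) = 0 := by exact_mod_cast h2
  simp only [lp.coeFn_zero, Pi.zero_apply]
  linear_combination (f x) * h1' + (f (D.σ x)) * h2'

theorem z_inner_delta (j : D.J) (x : X) (g : L2 X) :
    inner ℂ (z D j (delta x)) g = D.d j x * g x + D.o j x * g (D.σ x) := by
  rw [z_inner, inner_delta_left, z_apply]

/-- `∑_j z_j² = 1` in the form used below -/
theorem sum_z_sq (x : X) (g : L2 X) :
    ∑ j ∈ D.act x, inner ℂ (z D j (delta x)) (z D j g) = g x := by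
  have h1 : ∀ j ∈ D.act x, inner ℂ (z D j (delta x)) (z D j g)
      = ((D.d j x ^ 2 + D.o j x ^ 2 : ℝ) : ℂ) * g x
        + ((D.o j x * (D.d j x + D.d j (D.σ x)) : ℝ) : ℂ) * g (D.σ x) := by
    intro j _
    rw [z_inner_delta, z_apply, z_apply, D.σσ, D.o_σ]
    push_cast
    ring
  rw [Finset.sum_congr rfl h1, Finset.sum_add_distrib, ← Finset.sum_mul, ← Finset.sum_mul,
    ← Complex.ofReal_sum, ← Complex.ofReal_sum, D.sum1, D.sum2]
  simp

theorem d_abs_le (j : D.J) (x : X) : |D.d j x| ≤ 1 := by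
  by_cases h : j ∈ D.act x
  · have h1 := Finset.single_le_sum (f := fun j => D.d j x ^ 2 + D.o j x ^ 2)
      (fun j _ => by positivity) h
    have h2 := D.sum1 x
    rw [abs_le]
    constructor <;> nlinarith [sq_nonneg (D.o j x)]
  · rw [D.act_d j x h]; simp

theorem o_abs_le (j : D.J) (x : X) : |D.o j x| ≤ 1 := by
  by_cases h : j ∈ D.act x
  · have h1 := Finset.single_le_sum (f := fun j => D.d j x ^ 2 + D.o j x ^ 2)
      (fun j _ => by positivity) h
    have h2 := D.sum1 x
    rw [abs_le]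
    constructor <;> nlinarith [sq_nonneg (D.d j x)]
  · rw [D.act_o j x h]; simp

theorem hasSum_sq {X : Type} (f : L2 X) : HasSum (fun x => ‖f x‖ ^ 2) (‖f‖ ^ 2) := by
  have h := lp.hasSum_norm (E := fun _ : X => ℂ) (p := 2) (by norm_num) f
  simpa using h

/-- the pointwise expansion -/
theorem block_expand (d d' o : ℝ) (u v : ℂ) :
    ‖(d : ℂ) * u + o * v‖ ^ 2 + ‖(d' : ℂ) * v + o * u‖ ^ 2
      = (d ^ 2 + o ^ 2) * ‖u‖ ^ 2 + (d' ^ 2 + o ^ 2) * ‖v‖ ^ 2
        + o * (d + d') * (2 * (u.re * v.re + u.im * v.im)) := by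
  simp only [Complex.sq_norm, Complex.normSq_apply, Complex.add_re, Complex.add_im,
    Complex.mul_re, Complex.mul_im, Complex.ofReal_re, Complex.ofReal_im]
  ring

theorem block_le (j : D.J) (x : X) (u v : ℂ) :
    ‖(D.d j x : ℂ) * u + D.o j x * v‖ ^ 2 + ‖(D.d j (D.σ x) : ℂ) * v + D.o j x * u‖ ^ 2
      ≤ ‖u‖ ^ 2 + ‖v‖ ^ 2 := by
  classical
  set s := D.act x ∪ D.act (D.σ x) with hs
  have e1 : ∑ k ∈ s, (D.d k x ^ 2 + D.o k x ^ 2) = 1 := by
    rw [← D.sum1 x]
    symm
    apply Finset.sum_subset Finset.subset_union_left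
    intro k _ hk
    rw [D.act_d k x hk, D.act_o k x hk]; ring
  have e2 : ∑ k ∈ s, (D.d k (D.σ x) ^ 2 + D.o k x ^ 2) = 1 := by
    rw [← D.sum1 (D.σ x)]
    symm
    have h1 : ∀ k ∈ s, D.d k (D.σ x) ^ 2 + D.o k x ^ 2
        = D.d k (D.σ x) ^ 2 + D.o k (D.σ x) ^ 2 := fun k _ => by rw [D.o_σ]
    rw [Finset.sum_congr rfl h1]
    apply Finset.sum_subset Finset.subset_union_right
    intro k _ hk
    rw [D.act_d k _ hk, D.act_o k _ hk]; ring
  have e3 : ∑ k ∈ s, D.o k x * (D.d k x + D.d k (D.σ x)) = 0 := by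
    rw [← D.sum2 x]
    symm
    apply Finset.sum_subset Finset.subset_union_left
    intro k _ hk
    rw [D.act_o k x hk]; ring
  have hsum : ∑ k ∈ s, (‖(D.d k x : ℂ) * u + D.o k x * v‖ ^ 2
      + ‖(D.d k (D.σ x) : ℂ) * v + D.o k x * u‖ ^ 2) = ‖u‖ ^ 2 + ‖v‖ ^ 2 := by
    simp_rw [block_expand]
    rw [Finset.sum_add_distrib, Finset.sum_add_distrib, ← Finset.sum_mul, ← Finset.sum_mul,
      ← Finset.sum_mul, e1, e2, e3]
    ring
  by_cases hj : j ∈ s
  · rw [← hsum]
    exact Finset.single_le_sum (f := fun k => ‖(D.d k x : ℂ) * u + D.o k x * v‖ ^ 2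
      + ‖(D.d k (D.σ x) : ℂ) * v + D.o k x * u‖ ^ 2) (fun k _ => by positivity) hj
  · rw [hs, Finset.mem_union, not_or] at hj
    rw [D.act_d j x hj.1, D.act_o j x hj.1, D.act_d j _ hj.2]
    simp
    positivity

/-- `σ` as a permutation -/
def σp : Equiv.Perm X := Function.Involutive.toPerm D.σ D.σσ

theorem z_norm_le (j : D.J) : ‖z D j‖ ≤ 1 := by
  refine ContinuousLinearMap.opNorm_le_bound _ zero_le_one fun f => ?_
  rw [one_mul]
  have hF := hasSum_sq f
  have hG := hasSum_sq (z D j f)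
  have hF' : HasSum (fun x => ‖f (D.σ x)‖ ^ 2) (‖f‖ ^ 2) := (σp D).hasSum_iff.2 hF
  have hG' : HasSum (fun x => ‖(z D j f : L2 X) (D.σ x)‖ ^ 2) (‖z D j f‖ ^ 2) :=
    (σp D).hasSum_iff.2 hG
  have h1 := hasSum_le (fun x => ?_) (hG.add hG') (hF.add hF')
  · have h2 : ‖z D j f‖ ^ 2 ≤ ‖f‖ ^ 2 := by linarith
    exact le_of_sq_le_sq h2 (norm_nonneg _)
  · have h3 := block_le D j x (f x) (f (D.σ x))
    rw [z_apply, z_apply, D.σσ, D.o_σ]
    exact h3

/-- the range of `z_j` -/
abbrev Rz (j : D.J) : Submodule ℂ (L2 X) := LinearMap.range (z D j).toLinearMap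

open Classical in
theorem Rz_le (j : D.J) : Rz D j ≤ Submodule.span ℂ (((D.P j).image (fun x => (delta x : L2 X)) :
    Finset (L2 X)) : Set (L2 X)) := by
  classical
  rintro _ ⟨f, rfl⟩
  change z D j f ∈ _
  unfold z
  rw [sum_apply]
  apply Submodule.sum_mem
  intro p hp
  rw [add_apply, smul_apply, smul_apply, e1_apply, e1_apply]
  have h1 : (delta p : L2 X) ∈ Submodule.span ℂ (((D.P j).image (fun x => (delta x : L2 X)) :
      Finset (L2 X)) : Set (L2 X)) :=
    Submodule.subset_span (by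
      rw [Finset.coe_image]
      exact ⟨p, hp, rfl⟩)
  exact Submodule.add_mem _ (Submodule.smul_mem _ _ (Submodule.smul_mem _ _ h1))
    (Submodule.smul_mem _ _ (Submodule.smul_mem _ _ h1))

instance (j : D.J) : FiniteDimensional ℂ (Rz D j) := by
  classical
  have : FiniteDimensional ℂ (Submodule.span ℂ (((D.P j).image (fun x => (delta x : L2 X)) :
    Finset (L2 X)) : Set (L2 X))) := FiniteDimensional.span_finset ℂ _
  exact Submodule.finiteDimensional_of_le (Rz_le D j)

theorem finrank_Rz_le (j : D.J) : Module.finrank ℂ (Rz D j) ≤ D.N := by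
  classical
  have : FiniteDimensional ℂ (Submodule.span ℂ (((D.P j).image (fun x => (delta x : L2 X)) :
    Finset (L2 X)) : Set (L2 X))) := FiniteDimensional.span_finset ℂ _
  have h1 := Submodule.finrank_mono (Rz_le D j)
  have h2 := finrank_span_finset_le_card (R := ℂ) ((D.P j).image (fun x => (delta x : L2 X)))
  have h3 : ((D.P j).image (fun x => (delta x : L2 X))).card ≤ (D.P j).card :=
    Finset.card_image_le
  exact h1.trans (h2.trans (h3.trans (D.P_card j)))

/-- the isometry onto the range of `z_j` -/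
def Wz (j : D.J) : Eu (Module.finrank ℂ (Rz D j)) →ₗᵢ[ℂ] L2 X :=
  (Rz D j).subtypeₗᵢ.comp (stdOrthonormalBasis ℂ (Rz D j)).repr.symm.toLinearIsometry

theorem Wz_mem (j : D.J) (v) : ∃ f : L2 X, Wz D j v = z D j f := by
  have h := ((stdOrthonormalBasis ℂ (Rz D j)).repr.symm v).2
  obtain ⟨f, hf⟩ := h
  exact ⟨f, hf.symm⟩

theorem exists_Wz (j : D.J) (f : L2 X) : ∃ v, Wz D j v = z D j f := by
  refine ⟨(stdOrthonormalBasis ℂ (Rz D j)).repr ⟨z D j f, ⟨f, rfl⟩⟩, ?_⟩
  unfold Wz
  simp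

theorem W_orth (c : Fin 2) : OrthogonalFamily ℂ
    (fun j : {j : D.J // D.col j = c} => Eu (Module.finrank ℂ (Rz D j.1)))
    (fun j => Wz D j.1) := by
  intro j k hjk v w
  obtain ⟨f, hf⟩ := Wz_mem D j.1 v
  obtain ⟨g, hg⟩ := Wz_mem D k.1 w
  simp only
  rw [hf, hg, z_inner, z_mul_zero D (fun h => hjk (Subtype.ext h)) (j.2.trans k.2.symm),
    inner_zero_right]

theorem zWW (j : D.J) (x : L2 X) :
    z D j (Wz D j (adjoint (Wz D j).toContinuousLinearMap x)) = z D j x := by
  set u := x - Wz D j (adjoint (Wz D j).toContinuousLinearMap x) with hu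
  have h0 : z D j u = 0 := by
    apply ext_inner_left ℂ
    intro g
    rw [inner_zero_right, ← z_inner]
    obtain ⟨v, hv⟩ := exists_Wz D j g
    rw [← hv, hu, inner_sub_right, LinearIsometry.inner_map_map,
      ContinuousLinearMap.adjoint_inner_right]
    simp
  rw [hu, map_sub, sub_eq_zero] at h0
  exact h0.symm

/-- the coordinate map vanishes outside the support -/
theorem adj_delta_eq_zero (j : D.J) {x : X} (h : x ∉ D.P j) :
    adjoint (Wz D j).toContinuousLinearMap (delta x) = 0 := by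
  apply ext_inner_left ℂ
  intro v
  rw [inner_zero_right, ContinuousLinearMap.adjoint_inner_right]
  obtain ⟨f, hf⟩ := Wz_mem D j v
  have h1 : (Wz D j).toContinuousLinearMap v = z D j f := hf
  rw [h1, inner_delta_right, z_apply]
  have hd : D.d j x = 0 := by
    by_contra hc; exact h (D.d_supp j x hc)
  have ho : D.o j x = 0 := by
    by_contra hc; exact h (D.o_supp j x hc)
  rw [hd, ho]; simp

/-- the block diagonal operators have finite propagation -/
theorem BD_prop (c : Fin 2)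
    (b : ∀ j : {j : D.J // D.col j = c}, Eu (Module.finrank ℂ (Rz D j.1)) →L[ℂ]
      Eu (Module.finrank ℂ (Rz D j.1))) (C : ℝ) (hb : ∀ j, ‖b j‖ ≤ C) :
    HasProp (BD (fun j : {j : D.J // D.col j = c} => Wz D j.1) (W_orth D c) b) D.D := by
  intro x y hxy
  unfold entry
  have h1 := BD_hasSum (fun j : {j : D.J // D.col j = c} => Wz D j.1) (W_orth D c) b hb
    (delta x) (delta y)
  have h2 : (fun j : {j : D.J // D.col j = c} =>
      inner ℂ (adjoint (Wz D j.1).toContinuousLinearMap (delta x))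
        (b j (adjoint (Wz D j.1).toContinuousLinearMap (delta y)))) = fun _ => 0 := by
    funext j
    by_cases hx : x ∈ D.P j.1
    · by_cases hy : y ∈ D.P j.1
      · exact absurd (D.P_diam j.1 x hx y hy) (not_le.2 hxy)
      · rw [adj_delta_eq_zero D j.1 hy, map_zero, inner_zero_right]
    · rw [adj_delta_eq_zero D j.1 hx, inner_zero_left]
  rw [h2] at h1
  exact (h1.unique hasSum_zero)

/-- the compressed operator -/
def Zz (j : D.J) : Eu (Module.finrank ℂ (Rz D j)) →L[ℂ] L2 X :=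
  z D j ∘L (Wz D j).toContinuousLinearMap

theorem Zz_norm (j : D.J) : ‖Zz D j‖ ≤ 1 := by
  unfold Zz
  refine (ContinuousLinearMap.opNorm_comp_le _ _).trans ?_
  have h1 := z_norm_le D j
  have h2 : ‖(Wz D j).toContinuousLinearMap‖ ≤ 1 := LinearIsometry.norm_toContinuousLinearMap_le _
  calc ‖z D j‖ * ‖(Wz D j).toContinuousLinearMap‖ ≤ 1 * 1 :=
        mul_le_mul h1 h2 (norm_nonneg _) zero_le_one
    _ = 1 := one_mul 1

/-- the blocks of `T` -/
def blk (T : L2 X →L[ℂ] L2 X) (j : D.J) :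
    Eu (Module.finrank ℂ (Rz D j)) →L[ℂ] Eu (Module.finrank ℂ (Rz D j)) :=
  adjoint (Zz D j) ∘L T ∘L Zz D j

theorem blk_norm (T : L2 X →L[ℂ] L2 X) (j : D.J) : ‖blk D T j‖ ≤ ‖T‖ := by
  unfold blk
  have h1 := Zz_norm D j
  have h2 : ‖adjoint (Zz D j)‖ ≤ 1 := by
    rw [LinearIsometryEquiv.norm_map]; exact h1
  calc ‖adjoint (Zz D j) ∘L T ∘L Zz D j‖ ≤ ‖adjoint (Zz D j)‖ * ‖T ∘L Zz D j‖ :=
        ContinuousLinearMap.opNorm_comp_le _ _
    _ ≤ 1 * (‖T‖ * ‖Zz D j‖) :=
        mul_le_mul h2 (ContinuousLinearMap.opNorm_comp_le _ _) (norm_nonneg _) zero_le_one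
    _ ≤ 1 * (‖T‖ * 1) := by gcongr
    _ = ‖T‖ := by ring

theorem blk_add (T T' : L2 X →L[ℂ] L2 X) (j : D.J) :
    blk D (T + T') j = blk D T j + blk D T' j := by
  ext1 v
  simp [blk]

/-- the sum of the compressions -/
def SS (T : L2 X →L[ℂ] L2 X) : L2 X →L[ℂ] L2 X :=
  ∑ c : Fin 2, BD (fun j : {j : D.J // D.col j = c} => Wz D j.1) (W_orth D c)
    (fun j => blk D T j.1)

theorem SS_norm (T : L2 X →L[ℂ] L2 X) : ‖SS D T‖ ≤ 2 * ‖T‖ := by
  unfold SS
  refine (norm_sum_le _ _).trans ?_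
  refine (Finset.sum_le_sum fun c _ => BD_norm_le _ (W_orth D c) _ (norm_nonneg T)
    (fun j => blk_norm D T j.1)).trans ?_
  simp

theorem SS_add (T T' : L2 X →L[ℂ] L2 X) : SS D (T + T') = SS D T + SS D T' := by
  unfold SS
  rw [← Finset.sum_add_distrib]
  refine Finset.sum_congr rfl fun c _ => ?_
  rw [← BD_add _ (W_orth D c) _ _ (fun j => blk_norm D T j.1) (fun j => blk_norm D T' j.1)]
  congr 1
  funext j
  exact blk_add D T T' j.1

theorem inner_blk (T : L2 X →L[ℂ] L2 X) (j : D.J) (x y : L2 X) :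
    inner ℂ (adjoint (Wz D j).toContinuousLinearMap x)
      (blk D T j (adjoint (Wz D j).toContinuousLinearMap y))
      = inner ℂ (z D j x) (T (z D j y)) := by
  unfold blk Zz
  rw [ContinuousLinearMap.comp_apply, ContinuousLinearMap.adjoint_inner_right]
  simp only [ContinuousLinearMap.comp_apply, LinearIsometry.coe_toContinuousLinearMap]
  rw [zWW, zWW]

theorem z_delta_eq_zero (j : D.J) {x : X} (h : j ∉ D.act x) : z D j (delta x) = 0 := by
  rw [z_delta, D.act_d j x h, D.act_o j x h]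
  simp

theorem SS_entry (T : L2 X →L[ℂ] L2 X) (x y : X) :
    entry (SS D T) x y = ∑ j ∈ D.act x, inner ℂ (z D j (delta x)) (T (z D j (delta y))) := by
  classical
  unfold entry SS
  rw [sum_apply, inner_sum, ← Finset.sum_fiberwise (D.act x) D.col]
  refine Finset.sum_congr rfl fun c _ => ?_
  have h1 := BD_hasSum (fun j : {j : D.J // D.col j = c} => Wz D j.1) (W_orth D c)
    (fun j => blk D T j.1) (fun j => blk_norm D T j.1) (delta x) (delta y)
  have h2 : (fun j : {j : D.J // D.col j = c} =>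
      inner ℂ (adjoint (Wz D j.1).toContinuousLinearMap (delta x))
        (blk D T j.1 (adjoint (Wz D j.1).toContinuousLinearMap (delta y))))
      = fun j => inner ℂ (z D j.1 (delta x)) (T (z D j.1 (delta y))) := by
    funext j
    exact inner_blk D T j.1 _ _
  rw [h2] at h1
  have h3 : HasSum (fun j : {j : D.J // D.col j = c} =>
      (inner ℂ (z D j.1 (delta x)) (T (z D j.1 (delta y))) : ℂ))
      (∑ j ∈ (D.act x).subtype (fun j => D.col j = c),
        (inner ℂ (z D j.1 (delta x)) (T (z D j.1 (delta y))) : ℂ)) :=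
    hasSum_sum_of_ne_finset_zero (fun j hj => by
      rw [Finset.mem_subtype] at hj
      rw [z_delta_eq_zero D j.1 hj, inner_zero_left])
  rw [h1.unique h3]
  exact Finset.sum_subtype_eq_sum_filter
    (fun j => (inner ℂ (z D j (delta x)) (T (z D j (delta y))) : ℂ))

/-- the entries of the commutator -/
def Cc (T : L2 X →L[ℂ] L2 X) (j : D.J) (w y : X) : ℂ :=
  entry T w y * ((D.d j y : ℂ) - D.d j w) + entry T w (D.σ y) * D.o j y
    - D.o j w * entry T (D.σ w) y

theorem Cc_eq (T : L2 X →L[ℂ] L2 X) (j : D.J) (w y : X) :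
    (T (z D j (delta y)) : L2 X) w - (z D j (T (delta y)) : L2 X) w = Cc D T j w y := by
  rw [z_delta, z_apply, map_add, map_smul, map_smul, lp.coeFn_add, Pi.add_apply, lp.coeFn_smul,
    lp.coeFn_smul, Pi.smul_apply, Pi.smul_apply, ← entry_eq, ← entry_eq, ← entry_eq, smul_eq_mul,
    smul_eq_mul]
  unfold Cc
  ring

theorem entry_diff (T : L2 X →L[ℂ] L2 X) (x y : X) :
    entry (SS D T - T) x y
      = ∑ j ∈ D.act x, ((D.d j x : ℂ) * Cc D T j x y + D.o j x * Cc D T j (D.σ x) y) := by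
  have h0 : entry (SS D T - T) x y = entry (SS D T) x y - entry T x y := by
    unfold entry
    rw [sub_apply, inner_sub_right]
  have h1 : entry T x y = ∑ j ∈ D.act x, inner ℂ (z D j (delta x)) (z D j (T (delta y))) := by
    rw [sum_z_sq, entry_eq]
  rw [h0, SS_entry, h1, ← Finset.sum_sub_distrib]
  refine Finset.sum_congr rfl fun j _ => ?_
  rw [z_inner_delta, z_inner_delta, ← Cc_eq, ← Cc_eq]
  ring

theorem entry_diff_le (T : L2 X →L[ℂ] L2 X) (hC : ∀ j w y, ‖Cc D T j w y‖ ≤ δ) (x y : X) :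
    ‖entry (SS D T - T) x y‖ ≤ m * (2 * δ) := by
  rw [entry_diff]
  refine (norm_sum_le _ _).trans ?_
  have hδ : 0 ≤ δ := by
    by_contra hcon
    push Not at hcon
    by_cases hJ : Nonempty D.J
    · obtain ⟨j⟩ := hJ
      exact absurd ((norm_nonneg _).trans (hC j x y)) (not_le.2 hcon)
    · have h1 := D.sum1 x
      have h2 : D.act x = ∅ := by
        rw [Finset.eq_empty_iff_forall_notMem]
        intro j _
        exact hJ ⟨j⟩
      rw [h2, Finset.sum_empty] at h1
      exact absurd h1 (by norm_num)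
  have h1 : ∀ j ∈ D.act x, ‖(D.d j x : ℂ) * Cc D T j x y + D.o j x * Cc D T j (D.σ x) y‖
      ≤ 2 * δ := by
    intro j _
    refine (norm_add_le _ _).trans ?_
    rw [norm_mul, norm_mul, Complex.norm_real, Complex.norm_real, Real.norm_eq_abs,
      Real.norm_eq_abs]
    have a1 := mul_le_mul (d_abs_le D j x) (hC j x y) (norm_nonneg _) zero_le_one
    have a2 := mul_le_mul (o_abs_le D j x) (hC j (D.σ x) y) (norm_nonneg _) zero_le_one
    linarith
  refine (Finset.sum_le_sum h1).trans ?_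
  rw [Finset.sum_const, nsmul_eq_mul]
  have h2 : ((D.act x).card : ℝ) ≤ m := by exact_mod_cast D.act_card x
  exact mul_le_mul_of_nonneg_right h2 (by positivity)

/-- a nonzero entry of `SS T - T` forces a nonzero entry of `T` near by -/
theorem entry_diff_ne (T : L2 X →L[ℂ] L2 X) {x y : X} (h : entry (SS D T - T) x y ≠ 0) :
    entry T x y ≠ 0 ∨ entry T x (D.σ y) ≠ 0 ∨ entry T (D.σ x) y ≠ 0 ∨
      entry T (D.σ x) (D.σ y) ≠ 0 := by
  by_contra hcon
  push Not at hcon
  obtain ⟨h1, h2, h3, h4⟩ := hcon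
  apply h
  rw [entry_diff]
  apply Finset.sum_eq_zero
  intro j _
  unfold Cc
  rw [D.σσ, h1, h2, h3, h4]
  ring

theorem encard_preimage_le (s : Set X) : (D.σ ⁻¹' s).encard ≤ s.encard := by
  have h : D.σ ⁻¹' s = D.σ '' s := by
    ext x
    constructor
    · intro hx
      exact ⟨D.σ x, hx, D.σσ x⟩
    · rintro ⟨y, hy, rfl⟩
      change D.σ (D.σ y) ∈ s
      rw [D.σσ]; exact hy
  rw [h]
  exact Set.encard_image_le _ _

theorem SS_close (T : L2 X →L[ℂ] L2 X) (r : ℝ) (K : ℕ)
    (hK : ∀ x : X, (Metric.closedBall x r).encard ≤ K) (hr : HasProp T r) (hδ : 0 ≤ δ)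
    (hC : ∀ j w y, ‖Cc D T j w y‖ ≤ δ) :
    ‖SS D T - T‖ ≤ ((4 * K : ℕ) : ℝ) * (m * (2 * δ)) := by
  have hd : ∀ x y, entry T x y ≠ 0 → dist x y ≤ r := by
    intro x y h
    by_contra hcon
    exact h (hr x y (not_le.1 hcon))
  have hun : ∀ x : X, (Metric.closedBall x r ∪ D.σ ⁻¹' Metric.closedBall x r ∪
      Metric.closedBall (D.σ x) r ∪ D.σ ⁻¹' Metric.closedBall (D.σ x) r).encard
      ≤ ((4 * K : ℕ) : ℕ∞) := by
    intro x
    have h1 := hK x
    have h2 := (encard_preimage_le D (Metric.closedBall x r)).trans (hK x)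
    have h3 := hK (D.σ x)
    have h4 := (encard_preimage_le D (Metric.closedBall (D.σ x) r)).trans (hK (D.σ x))
    calc _ ≤ (Metric.closedBall x r ∪ D.σ ⁻¹' Metric.closedBall x r ∪
            Metric.closedBall (D.σ x) r).encard + (D.σ ⁻¹' Metric.closedBall (D.σ x) r).encard :=
          Set.encard_union_le _ _
      _ ≤ ((Metric.closedBall x r ∪ D.σ ⁻¹' Metric.closedBall x r).encard
            + (Metric.closedBall (D.σ x) r).encard)
            + (D.σ ⁻¹' Metric.closedBall (D.σ x) r).encard := by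
          gcongr; exact Set.encard_union_le _ _
      _ ≤ (((Metric.closedBall x r).encard + (D.σ ⁻¹' Metric.closedBall x r).encard)
            + (Metric.closedBall (D.σ x) r).encard)
            + (D.σ ⁻¹' Metric.closedBall (D.σ x) r).encard := by
          gcongr; exact Set.encard_union_le _ _
      _ ≤ ((K + K) + K) + K := by gcongr
      _ = ((4 * K : ℕ) : ℕ∞) := by push_cast; ring
  refine opNorm_le_of_entries _ _ _ (by positivity) (fun x y => entry_diff_le D T hC x y) ?_ ?_
  · intro x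
    refine (Set.encard_le_encard ?_).trans (hun x)
    intro y hy
    rcases entry_diff_ne D T hy with h | h | h | h
    · left; left; left
      rw [Metric.mem_closedBall, dist_comm]; exact hd _ _ h
    · left; left; right
      rw [Set.mem_preimage, Metric.mem_closedBall, dist_comm]; exact hd _ _ h
    · left; right
      rw [Metric.mem_closedBall, dist_comm]; exact hd _ _ h
    · right
      rw [Set.mem_preimage, Metric.mem_closedBall, dist_comm]; exact hd _ _ h
  · intro y
    refine (Set.encard_le_encard ?_).trans (hun y)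
    intro x hx
    rcases entry_diff_ne D T hx with h | h | h | h
    · left; left; left
      exact hd _ _ h
    · left; right
      exact hd _ _ h
    · left; left; right
      exact hd _ _ h
    · right
      exact hd _ _ h

end zop

end Part

open Pool.Agent.Roe.Part in
theorem nucDimLE_one_of_comb (X : Type) [MetricSpace X] (hX : BoundedGeometry X) (m : ℕ)
    (h : ∀ (k : ℕ) (a : Fin k → X → X → ℂ) (r M : ℝ), (∀ i x y, ‖a i x y‖ ≤ M) →
      (∀ i x y, r < dist x y → a i x y = 0) → ∀ δ > 0, Nonempty (CombData X (Fin k) a δ m)) :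
    NucDimLE (uniformRoe X) 1 := by
  intro 𝓕 ε hε
  have happ : ∀ a : uniformRoe X, ∃ T : L2 X →L[ℂ] L2 X, (∃ R : ℝ, HasProp T R) ∧
      ‖(a : L2 X →L[ℂ] L2 X) - T‖ < ε / 8 := by
    intro a
    have h1 : (a : L2 X →L[ℂ] L2 X) ∈ closure ((finProp X : StarSubalgebra ℂ
        (L2 X →L[ℂ] L2 X)) : Set (L2 X →L[ℂ] L2 X)) := a.2
    obtain ⟨T, hT, hd⟩ := Metric.mem_closure_iff.1 h1 (ε / 8) (by positivity)
    exact ⟨T, hT, by rwa [dist_eq_norm] at hd⟩
  choose T hT1 hT2 using happ
  choose R hR using hT1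
  let e := 𝓕.equivFin
  let aa : Fin 𝓕.card → X → X → ℂ := fun i x y => entry (T (e.symm i).1) x y
  obtain ⟨M, hM⟩ : ∃ M : ℝ, ∀ i : Fin 𝓕.card, ‖T (e.symm i).1‖ ≤ M :=
    Finite.exists_le (fun i : Fin 𝓕.card => ‖T (e.symm i).1‖)
  obtain ⟨r, hr⟩ : ∃ r : ℝ, ∀ i : Fin 𝓕.card, R (e.symm i).1 ≤ r :=
    Finite.exists_le (fun i : Fin 𝓕.card => R (e.symm i).1)
  obtain ⟨K, hK⟩ := hX r
  have hpr : ∀ i : Fin 𝓕.card, HasProp (T (e.symm i).1) r := fun i x y hxy =>
    hR (e.symm i).1 x y (lt_of_le_of_lt (hr i) hxy)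
  set δ : ℝ := ε / (16 * (K * m + 1)) with hδ
  have hδ0 : 0 < δ := by positivity
  obtain ⟨D⟩ := h 𝓕.card aa r M (fun i x y => (norm_entry_le _ x y).trans (hM i))
    (fun i x y hxy => hpr i x y hxy) δ hδ0
  refine nucApprox (uniformRoe X) 𝓕 ε hε 1 (fun c => {j : D.J // D.col j = c})
    (fun c j => Module.finrank ℂ (Rz D j.1)) D.N (fun c j => finrank_Rz_le D j.1)
    (fun c j => Wz D j.1) (fun c => W_orth D c) (fun c j => Zz D j.1)
    (fun c j => Zz_norm D j.1) ?_ ?_
  · intro c b C hb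
    exact (finProp X).le_topologicalClosure (show _ ∈ finProp X from ⟨D.D, BD_prop D c b C hb⟩)
  · intro a ha
    set i := e ⟨a, ha⟩ with hi
    have hia : (e.symm i).1 = a := by rw [hi, Equiv.symm_apply_apply]
    have hprop : HasProp (T a) r := by rw [← hia]; exact hpr i
    have hC : ∀ j w y, ‖Cc D (T a) j w y‖ ≤ δ := by
      intro j w y
      have h1 := D.comm i j w y
      simp only [aa, hia] at h1
      exact h1
    have h1 := SS_close D (T a) r K hK hprop hδ0.le hC
    have h2 : SS D (a : L2 X →L[ℂ] L2 X) = SS D ((a : L2 X →L[ℂ] L2 X) - T a) + SS D (T a) := by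
      rw [← SS_add, sub_add_cancel]
    have h3 : SS D (a : L2 X →L[ℂ] L2 X) - (a : L2 X →L[ℂ] L2 X)
        = SS D ((a : L2 X →L[ℂ] L2 X) - T a) + (SS D (T a) - T a)
          - ((a : L2 X →L[ℂ] L2 X) - T a) := by
      rw [h2]; abel
    have h4 := SS_norm D ((a : L2 X →L[ℂ] L2 X) - T a)
    have h5 := hT2 a
    have h6 : ((4 * K : ℕ) : ℝ) * (m * (2 * δ)) ≤ ε / 2 := by
      rw [hδ]
      push_cast
      have hpos : (0 : ℝ) < 16 * (K * m + 1) := by positivity
      have e1 : 4 * (K : ℝ) * (m * (2 * (ε / (16 * (K * m + 1)))))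
          = (8 * (K * m) * ε) / (16 * (K * m + 1)) := by
        field_simp
        ring
      rw [e1, div_le_iff₀ hpos]
      have : 0 ≤ (K : ℝ) * m := by positivity
      nlinarith
    have h7 : ‖SS D (a : L2 X →L[ℂ] L2 X) - (a : L2 X →L[ℂ] L2 X)‖ < ε := by
      rw [h3]
      calc _ ≤ ‖SS D ((a : L2 X →L[ℂ] L2 X) - T a) + (SS D (T a) - T a)‖
              + ‖(a : L2 X →L[ℂ] L2 X) - T a‖ := norm_sub_le _ _
        _ ≤ ‖SS D ((a : L2 X →L[ℂ] L2 X) - T a)‖ + ‖SS D (T a) - T a‖
              + ‖(a : L2 X →L[ℂ] L2 X) - T a‖ := by gcongr; exact norm_add_le _ _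
        _ < ε := by linarith
    exact h7

end

end Pool.Agent.Roe
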