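import Mathlib
import Pool.Agent.Work.MP_80b727_an.Defs

/-!
# Uniform Roe algebras, asymptotic dimension and nuclear dimension (definitions)
-/

namespace Pool.Agent.RoeZ2

noncomputable section

/-- The Hilbert space `ℓ²(X)`. -/
def L2 (X : Type*) : Type _ := lp (fun _ : X => ℂ) 2

instance instNACG (X : Type*) : NormedAddCommGroup (L2 X) := lp.normedAddCommGroup

instance instIPS (X : Type*) : InnerProductSpace ℂ (L2 X) := lp.instInnerProductSpace

instance instCS (X : Type*) : CompleteSpace (L2 X) := lp.completeSpace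

/-- The space `B(ℓ²(X))` of bounded operators on `ℓ²(X)`. -/
def BL2 (X : Type*) : Type _ := L2 X →L[ℂ] L2 X

/-- `B(ℓ²(X))` is a C*-algebra (Mathlib's structure on `L2 X →L[ℂ] L2 X`). -/
instance instBL2 (X : Type*) : CStarAlgebra (BL2 X) :=
  @instCStarAlgebraContinuousLinearMapComplexIdOfCompleteSpace (L2 X) (instNACG X) (instIPS X)
    (instCS X)

open Classical in
/-- The standard basis vector `δ_x` of `ℓ²(X)`. -/
def delta {X : Type*} (x : X) : L2 X := (lp.single 2 x (1 : ℂ) : lp (fun _ : X => ℂ) 2)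

/-- An element of `B(ℓ²(X))` as a continuous linear map. -/
def toCLM {X : Type*} (T : BL2 X) : L2 X →L[ℂ] L2 X := T

/-- The matrix entry `⟨T δ_y, δ_x⟩` (in Mathlib the inner product is linear in the second
variable). -/
def entry {X : Type*} (T : BL2 X) (x y : X) : ℂ := inner ℂ (delta x) (toCLM T (delta y))

/-- `T` has propagation at most `R`. -/
def HasProp {X : Type*} [MetricSpace X] (T : BL2 X) (R : ℝ) : Prop :=
  ∀ x y : X, R < dist x y → entry T x y = 0

/-- The set of bounded operators of finite propagation. -/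
def FinProp (X : Type*) [MetricSpace X] : Set (BL2 X) := {T | ∃ R : ℝ, HasProp T R}

theorem FinProp_mul {X : Type*} [MetricSpace X] {S T : BL2 X} (hS : S ∈ FinProp X)
    (hT : T ∈ FinProp X) : S * T ∈ FinProp X := (Roe.finProp X).mul_mem' hS hT

theorem FinProp_add {X : Type*} [MetricSpace X] {S T : BL2 X} (hS : S ∈ FinProp X)
    (hT : T ∈ FinProp X) : S + T ∈ FinProp X := (Roe.finProp X).add_mem' hS hT

theorem FinProp_algebraMap {X : Type*} [MetricSpace X] (c : ℂ) :
    algebraMap ℂ (BL2 X) c ∈ FinProp X := (Roe.finProp X).algebraMap_mem' c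

theorem FinProp_star {X : Type*} [MetricSpace X] {T : BL2 X} (hT : T ∈ FinProp X) :
    star T ∈ FinProp X := (Roe.finProp X).star_mem' hT

theorem FinProp_one {X : Type*} [MetricSpace X] : (1 : BL2 X) ∈ FinProp X := by
  have h := FinProp_algebraMap (X := X) 1
  rwa [map_one] at h

theorem FinProp_zero {X : Type*} [MetricSpace X] : (0 : BL2 X) ∈ FinProp X := by
  have h := FinProp_algebraMap (X := X) 0
  rwa [map_zero] at h

/-- The star algebra of bounded operators on `ℓ²(X)` of finite propagation. -/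
def finProp (X : Type*) [MetricSpace X] : StarSubalgebra ℂ (BL2 X) where
  carrier := FinProp X
  mul_mem' := FinProp_mul
  one_mem' := FinProp_one
  add_mem' := FinProp_add
  zero_mem' := FinProp_zero
  algebraMap_mem' := FinProp_algebraMap
  star_mem' := FinProp_star

/-- The norm closure of a star subalgebra of a C*-algebra. -/
def normClosure {A : Type*} [CStarAlgebra A] (S : StarSubalgebra ℂ A) : StarSubalgebra ℂ A :=
  S.topologicalClosure

theorem normClosure_isClosed {A : Type*} [CStarAlgebra A] (S : StarSubalgebra ℂ A) :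
    IsClosed ((normClosure S : StarSubalgebra ℂ A) : Set A) := S.isClosed_topologicalClosure

/-- A norm closed star subalgebra of a C*-algebra is a C*-algebra (Mathlib's structure). -/
@[reducible] def closedCStar {A : Type*} [CStarAlgebra A] (S : StarSubalgebra ℂ A)
    (h : IsClosed (S : Set A)) : CStarAlgebra S :=
  StarSubalgebra.cstarAlgebra S (h_closed := h)

/-- The uniform Roe algebra `C*_u(X)`: the norm closure, in `B(ℓ²(X))`, of the set of bounded
operators of finite propagation. -/
def uniformRoe (X : Type*) [MetricSpace X] : StarSubalgebra ℂ (BL2 X) := normClosure (finProp X)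

/-- The uniform Roe algebra as a type. -/
def CuStar (X : Type*) [MetricSpace X] : Type _ := uniformRoe X

/-- The uniform Roe algebra is a C*-algebra (Mathlib's structure on a closed star subalgebra). -/
instance instRoe (X : Type*) [MetricSpace X] : CStarAlgebra (CuStar X) :=
  closedCStar (uniformRoe X) (normClosure_isClosed (finProp X))

/-- Bounded geometry: balls of a given radius have uniformly bounded cardinality. -/
def BoundedGeometry (X : Type*) [MetricSpace X] : Prop :=
  ∀ r : ℝ, ∃ N : ℕ, ∀ x : X, (Metric.closedBall x r).encard ≤ N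

/-- `asdim X ≤ n`: for every `R > 0` there is a cover of `X` by sets of uniformly bounded
diameter such that every ball of radius `R` meets at most `n + 1` members of the cover. -/
def AsdimLE (X : Type*) [MetricSpace X] (n : ℕ) : Prop :=
  ∀ R : ℝ, 0 < R → ∃ (𝒰 : Set (Set X)) (D : ℝ),
    (⋃₀ 𝒰 = Set.univ) ∧ (∀ U ∈ 𝒰, ∀ x ∈ U, ∀ y ∈ U, dist x y ≤ D) ∧
    ∀ x : X, {U ∈ 𝒰 | (U ∩ Metric.closedBall x R).Nonempty}.encard ≤ n + 1

/-- The asymptotic dimension. -/
def asdim (X : Type*) [MetricSpace X] : ℕ∞ := sInf {m : ℕ∞ | ∃ n : ℕ, m = n ∧ AsdimLE X n}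

open scoped CStarAlgebra in
/-- A linear map between C*-algebras is completely positive (Mathlib's notion
`CompletelyPositiveMap`; the C*-algebras carry their spectral order). -/
def IsCP {A B : Type*} [NonUnitalCStarAlgebra A] [NonUnitalCStarAlgebra B] (f : A →ₗ[ℂ] B) :
    Prop :=
  letI := CStarAlgebra.spectralOrder A
  letI := CStarAlgebra.spectralOrderedRing A
  letI := CStarAlgebra.spectralOrder B
  letI := CStarAlgebra.spectralOrderedRing B
  ∃ g : A →CP B, g.toLinearMap = f

/-- A linear map between C*-algebras preserves orthogonality of positive elements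
(`order zero`, for completely positive maps).  Positive elements are those of the form `x* x`. -/
def OrderZero {A B : Type*} [NonUnitalCStarAlgebra A] [NonUnitalCStarAlgebra B]
    (f : A →ₗ[ℂ] B) : Prop :=
  ∀ x y : A, (star x * x) * (star y * y) = 0 → f (star x * x) * f (star y * y) = 0

/-- Nuclear dimension at most `n`. -/
def NucDimLE (A : Type*) [CStarAlgebra A] (n : ℕ) : Prop :=
  ∀ (𝓕 : Finset A) (ε : ℝ), 0 < ε →
    ∃ (F : Fin (n + 1) → Type) (_ : ∀ i, CStarAlgebra (F i))
      (_ : ∀ i, FiniteDimensional ℂ (F i))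
      (ψ : A →ₗ[ℂ] (∀ i, F i)) (φ : (∀ i, F i) →ₗ[ℂ] A),
      IsCP ψ ∧ (∀ a, ‖ψ a‖ ≤ ‖a‖) ∧ IsCP φ ∧
      (∀ i, (∀ b : F i, ‖φ (Pi.single i b)‖ ≤ ‖b‖) ∧
        OrderZero (φ ∘ₗ LinearMap.single ℂ F i)) ∧
      ∀ a ∈ 𝓕, ‖φ (ψ a) - a‖ < ε

/-- The nuclear dimension. -/
def nucDim (A : Type*) [CStarAlgebra A] : ℕ∞ := sInf {m : ℕ∞ | ∃ n : ℕ, m = n ∧ NucDimLE A n}

end

end Pool.Agent.RoeZ2
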